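import Pool.Agent.H17.IMN.Cls

/-!
# The numbers of the images of a class

`im_leA`, `im_leB`: upper bounds. `im_ge0`, `im_geN`: lower bounds.
-/

set_option autoImplicit false

namespace Pool.IMN17

open Finset Real MvPolynomial
open Pool.Agent.H49.Ent Pool.Agent.H32.Dense Pool.STK Pool.KA Pool.KSAT Pool.K2S Pool.PB Pool.S6C
open Pool.GEN Pool.REX Pool.REX83 Pool.NFT33 Pool.TOP
open Pool.GRD (LbP)
open Pool.GRW (bas_part)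
open Pool.D2F2 (hgp)
open Pool.LA91 (ojet)
open Pool.FUL33 (st_fac bgJ wB wJ jw jmul pull bas_abs)
open Pool.FUL17

variable {m N R J : ℕ}

/-! ### Powers -/

theorem np_le {n : ℕ} {x : ℝ} (h : (n : ℝ) ≤ x) : (2 : ℝ) ^ n ≤ (2 : ℝ) ^ x := by
  rw [← Real.rpow_natCast]
  exact Real.rpow_le_rpow_of_exponent_le (by norm_num) h

theorem np_ge {n : ℕ} {x : ℝ} (h : x ≤ (n : ℝ)) : (2 : ℝ) ^ x ≤ (2 : ℝ) ^ n := by
  rw [← Real.rpow_natCast]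
  exact Real.rpow_le_rpow_of_exponent_le (by norm_num) h

theorem p_le {x y : ℝ} (h : x ≤ y) : (2 : ℝ) ^ x ≤ (2 : ℝ) ^ y :=
  Real.rpow_le_rpow_of_exponent_le (by norm_num) h

theorem p_pos (x : ℝ) : (0 : ℝ) < (2 : ℝ) ^ x := Real.rpow_pos_of_pos (by norm_num) _

theorem p_add (x y : ℝ) : (2 : ℝ) ^ (x + y) = 2 ^ x * 2 ^ y := Real.rpow_add (by norm_num) _ _

theorem ex_pow {g : ℝ} (hg : 0 < g) (C : ℝ) : ∃ J₀ : ℕ, ∀ J ≥ J₀, C ≤ (2 : ℝ) ^ (g * (J : ℝ)) := by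
  have hl2 : 0 < Real.log 2 := Real.log_pos one_lt_two
  obtain ⟨J₀, hJ₀⟩ := bgJ (a := g * Real.log 2) (by positivity) C
  refine ⟨J₀, fun J hJ => ?_⟩
  have h1 := hJ₀ J hJ
  rw [Real.rpow_def_of_pos (by norm_num)]
  have h2 := Real.add_one_le_exp (Real.log 2 * (g * (J : ℝ)))
  have e1 : g * Real.log 2 * (J : ℝ) = Real.log 2 * (g * (J : ℝ)) := by ring
  rw [e1] at h1
  linarith

/-! ### Rows -/

/-- The heights are small. -/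
def HtS (F : Fam m J) (v : Vz m) (c : ℕ → Fin m) (N r : ℕ) (s : ℕ → ℝ) (e : ℝ)
    (fr : v.κ J F → ℕ → MvPolynomial (Option (Fin m)) ℝ) (A : F.Ω → Prop) : Prop :=
  ∀ ω, A ω → ∀ l < r, |hgp F (c (N + l)) (fr (v.y J F ω) l) ω| ≤ (2 : ℝ) ^ (-((s l - e) * J))

/-- The row has a place of a large coefficient, the later coefficients are small. -/
def RwA (F : Fam m J) (v : Vz m) (r : ℕ) (s ν : ℕ → ℝ) (θ g : ℝ) (al : v.κ J F → ℕ → ℝ)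
    (A : F.Ω → Prop) : Prop :=
  ∀ ω, A ω → ∃ l₁ < r, (2 : ℝ) ^ ((s l₁ + θ - ν l₁) * J) ≤ |al (v.y J F ω) l₁| ∧
    ∀ l, l₁ < l → l < r → |al (v.y J F ω) l| ≤ (2 : ℝ) ^ ((s l + θ - ν l + g) * J)

/-- The second row has a place of a large coefficient, where the first row is zero, the later
coefficients of both rows are small. -/
def RwB (F : Fam m J) (v : Vz m) (r : ℕ) (s ν : ℕ → ℝ) (θ g : ℝ) (al : v.κ J F → Fin 2 → ℕ → ℝ)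
    (A : F.Ω → Prop) : Prop :=
  ∀ ω, A ω → ∃ l₁ < r, al (v.y J F ω) 0 l₁ = 0 ∧
    (2 : ℝ) ^ ((s l₁ - ν l₁) * J) ≤ |al (v.y J F ω) 1 l₁| ∧
    ∀ l, l₁ < l → l < r → |al (v.y J F ω) 0 l| ≤ (2 : ℝ) ^ ((s l + θ - ν l + g) * J) ∧
      |al (v.y J F ω) 1 l| ≤ (2 : ℝ) ^ ((s l - ν l + g) * J)

/-- The sum over the later places. -/
theorem late_le {r l₁ : ℕ} {a X' : ℕ → ℝ} {y : ℝ} (hy : 0 ≤ y)
    (h : ∀ l, l₁ < l → l < r → |a l| * |X' l| ≤ y) :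
    ∑ l ∈ Finset.Ico (l₁ + 1) r, |a l| * |X' l| ≤ r * y := by
  calc _ ≤ ∑ _l ∈ Finset.Ico (l₁ + 1) r, y := Finset.sum_le_sum fun l hl => by
        rw [Finset.mem_Ico] at hl
        exact h l (by omega) hl.2
    _ = ((Finset.Ico (l₁ + 1) r).card : ℝ) * y := by rw [Finset.sum_const, nsmul_eq_mul]
    _ ≤ r * y := by
        refine mul_le_mul_of_nonneg_right ?_ hy
        rw [Nat.card_Ico]
        exact_mod_cast (by omega : r - (l₁ + 1) ≤ r)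

section cl

variable {S : PCl m} {v : Vz m} {φ : Fin N → Fin m} {n : Fin R → Fin m} {E : Finset (Fin m)}
  {M q : ℕ → ℕ}
  {ka : ∀ (J : ℕ) (F : Fam m J), v.κ J F → Fin R → Fin m → ℝ} {T : PCl (N + R)}
  {L : Finset (Fin (N + R)) → Fin (N + R) → ℝ → ℝ → ℝ} {c : ℕ → Fin m} {r : ℕ}
  {fr : ∀ (J : ℕ) (F : Fam m J), v.κ J F → ℕ → MvPolynomial (Option (Fin m)) ℝ}
  {al : ∀ (J : ℕ) (F : Fam m J), v.κ J F → Fin R → ℕ → ℝ}
  {ga : ∀ (J : ℕ) (F : Fam m J), v.κ J F → Fin R → MvPolynomial (Option (Fin m)) ℝ}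
  {g0 : ∀ (J : ℕ) (F : Fam m J), v.κ J F → Fin R → ℝ}
  {gc : ∀ (J : ℕ) (F : Fam m J), v.κ J F → Fin R → Option (Fin N) → ℝ}
  {s ν : ℕ → ℝ}

/-- **The number of an image over the base.** -/
theorem im_leA (hS : (S.sl (slI v (nwR v φ n E M ka) T)).Ne) (hL : LamW T L)
    (hst : Bas S (fun J F A => StR F v E (ka J F) (M J) (q J) A))
    (hI : ∀ (J : ℕ) (F : Fam m J), ImR c N r n E (fr J F) (al J F) (ga J F) (ka J F))
    (hφ : ∀ i : Fin N, φ i = c i) (hr : 0 < r) (j : Fin R)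
    {v₀ μ m₀ C θ g e e₁ νm w' w'' P r₀ : ℝ}
    (hht : Bas S (fun J F A => HtS F v c N r s e (fr J F) A))
    (hrw : Bas S (fun J F A => RwA F v r s ν θ g (fun y => al J F y j) A))
    (habs : ∀ l < r, ∀ K, Bas S (fun J F A =>
      ¬ LbR 0 F ((range (N + l)).image c) (c (N + l)) K ⌊v₀ * J⌋₊ ⌊(s l + μ) * J⌋₊ A))
    (hv₀ : v.b + w'' * (1 - v.b) < v₀) (hv1 : v₀ ≤ 1) (hw' : w' < w'') (hw0 : 0 < w'')
    (hw1 : w'' ≤ 1) (hM : ∀ J : ℕ, (M J : ℝ) ≤ m₀ * J + C) (hs : ∀ l < r, 0 ≤ s l + μ)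
    (he₁ : 0 < e₁) (hg : 0 < g) (hν : ∀ l < r, ν l ≤ νm)
    (hν2 : ∀ l l', l < l' → l' < r → ν l + μ + e + 2 * g ≤ ν l')
    (hP : m₀ + μ + νm < θ + v.b + (P - e₁) * (1 - v.b))
    {I : Finset (Fin (N + R))} (hI' : ∀ j : Fin R, Fin.natAdd N j ∉ I) :
    L I (Fin.natAdd N j) w' r₀ ≤ P := by
  have hb0 := v.b0
  have hb1 := v.b1
  refine num_le hS hL hw' hw0 hw1 he₁ fun K => ?_
  obtain ⟨J₁, hJ₁⟩ := bgJ (a := v₀ - (v.b + w'' * (1 - v.b))) (by linarith) w''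
  obtain ⟨J₂, hJ₂⟩ := bgJ (a := θ + v.b + (P - e₁) * (1 - v.b) - (m₀ + μ + νm)) (by linarith)
    (C + 3 + |P - e₁|)
  obtain ⟨J₃, hJ₃⟩ := ex_pow hg (2 * r)
  have hab := bas_part (bas_lt fun l hl => habs l hl (K + 1)) (c := 99 ^ m * 99 ^ (N + R) * r)
    (by positivity)
  refine (((hst.and hht).and hrw).and hab).mono (max (max J₁ J₂) J₃) ?_
  rintro J hJ F A ⟨⟨⟨h1, h2⟩, h3⟩, h4⟩ h5
  have g1 := hJ₁ J ((le_max_left _ _).trans ((le_max_left _ _).trans hJ))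
  have g2 := hJ₂ J ((le_max_right _ _).trans ((le_max_left _ _).trans hJ))
  have g3 := hJ₃ J ((le_max_right _ _).trans hJ)
  have hJ0 : (0 : ℝ) ≤ J := Nat.cast_nonneg J
  obtain ⟨j1, j2⟩ := jw v J
  obtain ⟨b1, b2⟩ := wB v J
  have hWJ : ⌊v₀ * (J : ℝ)⌋₊ ≤ J := by
    refine Nat.floor_le_of_le ?_
    calc v₀ * (J : ℝ) ≤ 1 * J := mul_le_mul_of_nonneg_right hv1 hJ0
      _ = J := one_mul _
  have hW : v.B J + ⌊w'' * ((J - v.B J : ℕ) : ℝ)⌋₊ ≤ ⌊v₀ * (J : ℝ)⌋₊ := by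
    refine Nat.le_floor ?_
    have h9 : (⌊w'' * ((J - v.B J : ℕ) : ℝ)⌋₊ : ℝ) ≤ w'' * ((J - v.B J : ℕ) : ℝ) :=
      Nat.floor_le (mul_nonneg hw0.le (Nat.cast_nonneg _))
    have h10 : w'' * ((J - v.B J : ℕ) : ℝ) ≤ w'' * ((1 - v.b) * J + 1) :=
      mul_le_mul_of_nonneg_left j2 hw0.le
    have e1 : (v₀ - (v.b + w'' * (1 - v.b))) * (J : ℝ) =
      v₀ * J - v.b * J - w'' * ((1 - v.b) * J) := by ring
    have e2 : w'' * ((1 - v.b) * J + 1) = w'' * ((1 - v.b) * J) + w'' := by ring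
    push_cast
    linarith
  refine no_labA h1 (hI J F) hφ hr j hI' (P₂ := fun l => ⌊(s l + μ) * J⌋₊) hW hWJ h4 h5 ?_
  intro ω hω
  obtain ⟨l₁, hl₁, h6, h7⟩ := h3 ω hω
  obtain ⟨T₀, hT₀⟩ : ∃ T₀ : ℝ, T₀ = (2 : ℝ) ^ ((s l₁ + θ - ν l₁) * J) := ⟨_, rfl⟩
  rw [← hT₀] at h6
  have hT₀p : 0 < T₀ := by rw [hT₀]; exact p_pos _
  refine ⟨l₁, hl₁, fun hc => ?_, ?_⟩
  · simp only [hc, abs_zero] at h6
    linarith
  refine le_trans ?_ h6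
  have k1 : (⌊(s l₁ + μ) * (J : ℝ)⌋₊ : ℝ) ≤ (s l₁ + μ) * J :=
    Nat.floor_le (mul_nonneg (hs l₁ hl₁) hJ0)
  have k2 := Nat.lt_floor_add_one ((P - e₁) * ((J - v.B J : ℕ) : ℝ))
  have k3 := jmul v (P - e₁) J
  have k4 := hM J
  have t1 : (2 : ℝ) ^ ⌊(s l₁ + μ) * (J : ℝ)⌋₊ * (2 ^ M J / 2 ^ v.B J *
      (1 / 2 ^ ⌊(P - e₁) * ((J - v.B J : ℕ) : ℝ)⌋₊ + 0)) ≤ T₀ / 2 := by
    have e1 : (2 : ℝ) ^ ⌊(s l₁ + μ) * (J : ℝ)⌋₊ * (2 ^ M J / 2 ^ v.B J *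
      (1 / 2 ^ ⌊(P - e₁) * ((J - v.B J : ℕ) : ℝ)⌋₊ + 0)) = (2 : ℝ) ^
        ((⌊(s l₁ + μ) * (J : ℝ)⌋₊ : ℝ) + M J - v.B J -
          (⌊(P - e₁) * ((J - v.B J : ℕ) : ℝ)⌋₊ : ℝ)) := by
      rw [Real.rpow_sub (by norm_num), Real.rpow_sub (by norm_num), Real.rpow_add (by norm_num),
        Real.rpow_natCast, Real.rpow_natCast, Real.rpow_natCast, Real.rpow_natCast]
      field_simp
      ring
    have e2 : T₀ / 2 = (2 : ℝ) ^ ((s l₁ + θ - ν l₁) * J - 1) := by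
      rw [hT₀, Real.rpow_sub (by norm_num), Real.rpow_one]
    rw [e1, e2]
    refine p_le ?_
    have e3 : (θ + v.b + (P - e₁) * (1 - v.b) - (m₀ + μ + νm)) * (J : ℝ) =
      θ * J + v.b * J + (P - e₁) * (1 - v.b) * J - m₀ * J - μ * J - νm * J := by ring
    have e4 : (s l₁ + θ - ν l₁) * (J : ℝ) = s l₁ * J + θ * J - ν l₁ * J := by ring
    have e5 : (s l₁ + μ) * (J : ℝ) = s l₁ * J + μ * J := by ring
    have e6 := mul_le_mul_of_nonneg_right (hν l₁ hl₁) hJ0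
    linarith
  have t2 : (2 : ℝ) ^ ⌊(s l₁ + μ) * (J : ℝ)⌋₊ * ∑ l ∈ Finset.Ico (l₁ + 1) r,
      |al J F (v.y J F ω) j l| * |hgp F (c (N + l)) (fr J F (v.y J F ω) l) ω| ≤ T₀ / 2 := by
    have e1 := late_le (r := r) (l₁ := l₁) (a := fun l => al J F (v.y J F ω) j l)
      (X' := fun l => hgp F (c (N + l)) (fr J F (v.y J F ω) l) ω)
      (y := (2 : ℝ) ^ ((θ - ν l₁ - μ - g) * J)) (p_pos _).le fun l hl hl' => by
        have f1 := h7 l hl hl'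
        have f2 := h2 ω hω l hl'
        calc _ ≤ (2 : ℝ) ^ ((s l + θ - ν l + g) * J) * 2 ^ (-((s l - e) * J)) :=
              mul_le_mul f1 f2 (abs_nonneg _) (p_pos _).le
          _ = 2 ^ ((θ - ν l + g + e) * J) := by
              rw [← p_add]
              congr 1
              ring
          _ ≤ _ := by
              refine p_le (mul_le_mul_of_nonneg_right ?_ hJ0)
              have := hν2 l₁ l hl hl'
              linarith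
    have e2 : T₀ = (2 : ℝ) ^ ((s l₁ + μ) * J) * (2 ^ ((θ - ν l₁ - μ - g) * J) * 2 ^ (g * J)) := by
      rw [hT₀, ← p_add, ← p_add]
      congr 1
      ring
    have e3 := np_le k1
    calc _ ≤ (2 : ℝ) ^ ((s l₁ + μ) * J) * (r * (2 : ℝ) ^ ((θ - ν l₁ - μ - g) * J)) :=
          mul_le_mul e3 e1 (Finset.sum_nonneg fun l _ => by positivity) (p_pos _).le
      _ ≤ (2 : ℝ) ^ ((s l₁ + μ) * J) * (2 ^ (g * (J : ℝ)) / 2 *
            (2 : ℝ) ^ ((θ - ν l₁ - μ - g) * J)) := by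
          refine mul_le_mul_of_nonneg_left (mul_le_mul_of_nonneg_right ?_ (p_pos _).le)
            (p_pos _).le
          linarith
      _ = T₀ / 2 := by
          rw [e2]
          ring
  calc _ = (2 : ℝ) ^ ⌊(s l₁ + μ) * (J : ℝ)⌋₊ * (2 ^ M J / 2 ^ v.B J *
      (1 / 2 ^ ⌊(P - e₁) * ((J - v.B J : ℕ) : ℝ)⌋₊ + 0)) +
      (2 : ℝ) ^ ⌊(s l₁ + μ) * (J : ℝ)⌋₊ * ∑ l ∈ Finset.Ico (l₁ + 1) r,
      |al J F (v.y J F ω) j l| * |hgp F (c (N + l)) (fr J F (v.y J F ω) l) ω| := by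
        rw [mul_add]
    _ ≤ T₀ / 2 + T₀ / 2 := add_le_add t1 t2
    _ = T₀ := by ring

/-- The numbers of the images are at least the exponent of their size. -/
theorem im_ge0 (hS : (S.sl (slI v (nwR v φ n E M ka) T)).Ne) (hL : LamW T L)
    (hst : Bas S (fun J F A => StR F v E (ka J F) (M J) (q J) A)) {σ : ℝ} (hσ : σ ≤ 1)
    (hq : ∃ J₀ : ℕ, ∀ J ≥ J₀, ⌊σ * ((J - v.B J : ℕ) : ℝ)⌋₊ ≤ q J) (j : Fin R)
    (I : Finset (Fin (N + R))) (w' r₀ : ℝ) : σ ≤ L I (Fin.natAdd N j) w' r₀ := by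
  obtain ⟨J₀, hJ₀⟩ := hq
  have hcl : Bas S (fun _ F A => 0 ≤ Pe F.p A) := ⟨1, one_pos, 0, fun J _ F A _ =>
    Pe_nonneg F.isLaw A⟩
  refine num_ge hS hL hσ fun d _ _ => ⟨0, (hst.and hcl).mono J₀ fun J hJ F A h => ?_⟩
  exact ⟨A, fun _ h => h, by linarith [h.2], h.1.zero j I 0 _ _ _ _ (hJ₀ J hJ)⟩

end cl

end Pool.IMN17
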