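import Pool.Agent.H17.IMN.Cl2

/-!
# The numbers of two images of a class

`im_leB`: the number of the second image over the base and the first image. `im_geN`: the number of
an image is at least natural.
-/

set_option autoImplicit false

namespace Pool.IMN17

open Finset Real MvPolynomial
open Pool.Agent.H49.Ent Pool.Agent.H32.Dense Pool.STK Pool.KA Pool.KSAT Pool.K2S Pool.PB Pool.S6C
open Pool.GEN Pool.REX Pool.REX83 Pool.NFT33 Pool.TOP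
open Pool.GRD (LbP)
open Pool.GRW (bas_part)
open Pool.D2F2 (hgp)
open Pool.LA91 (ojet)
open Pool.FUL33 (st_fac bgJ wB wJ jw jmul pull bas_abs)
open Pool.FUL17

variable {m N R J : ℕ}

section cl

variable {S : PCl m} {v : Vz m} {φ : Fin N → Fin m} {n : Fin R → Fin m} {E : Finset (Fin m)}
  {M q : ℕ → ℕ}
  {ka : ∀ (J : ℕ) (F : Fam m J), v.κ J F → Fin R → Fin m → ℝ} {T : PCl (N + R)}
  {L : Finset (Fin (N + R)) → Fin (N + R) → ℝ → ℝ → ℝ} {c : ℕ → Fin m} {r : ℕ}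
  {fr : ∀ (J : ℕ) (F : Fam m J), v.κ J F → ℕ → MvPolynomial (Option (Fin m)) ℝ}
  {al : ∀ (J : ℕ) (F : Fam m J), v.κ J F → Fin R → ℕ → ℝ}
  {ga : ∀ (J : ℕ) (F : Fam m J), v.κ J F → Fin R → MvPolynomial (Option (Fin m)) ℝ}
  {g0 : ∀ (J : ℕ) (F : Fam m J), v.κ J F → Fin R → ℝ}
  {gc : ∀ (J : ℕ) (F : Fam m J), v.κ J F → Fin R → Option (Fin N) → ℝ}
  {s : ℕ → ℝ}

/-- **The number of an image is at least natural.** -/
theorem im_geN (hS : (S.sl (slI v (nwR v φ n E M ka) T)).Ne) (hL : LamW T L)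
    (hst : Bas S (fun J F A => StR F v E (ka J F) (M J) (q J) A))
    (hI : ∀ (J : ℕ) (F : Fam m J), ImR c N r n E (fr J F) (al J F) (ga J F) (ka J F))
    (haff : ∀ (J : ℕ) (F : Fam m J) y j (b : Option (Fin m) → ℝ), eval b (ga J F y j) =
      g0 J F y j + (gc J F y j none * b none + ∑ i, gc J F y j (some i) * b (some (φ i))))
    (j : Fin R) {m₀ e e₂ w' σ₁ r₀ : ℝ}
    (hht : Bas S (fun J F A => HtS F v c N r s e (fr J F) A))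
    (hal : Bas S (fun J F A => ∀ ω, A ω → ∀ l < r,
      |al J F (v.y J F ω) j l| ≤ (2 : ℝ) ^ ((s l + e₂) * J)))
    (hgc : Bas S (fun J F A => ∀ ω, A ω → ∀ o, |gc J F (v.y J F ω) j o| ≤ 2 ^ M J))
    (hvel : ∀ ε : ℝ, 0 < ε → Bas S (fun J F A => ∃ B : F.Ω → Prop, Sub B A ∧
      Pe F.p A ≤ 2 * Pe F.p B ∧ ∀ ω, B ω → ∀ l < r,
        |ojet F (c (N + l)) 1 (fr J F (v.y J F ω) l) ω| ≤ (2 : ℝ) ^ ((v.b + ε + e - s l) * J)))
    (hM : ∀ J : ℕ, m₀ * J ≤ M J) (hw' : 0 ≤ w') (hσ0 : 0 ≤ σ₁) (hσ1 : σ₁ ≤ 1)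
    (hσ : σ₁ * (1 - v.b) + e + e₂ < m₀ - v.b) (I : Finset (Fin (N + R)))
    (hI' : ∀ i : Fin N, Fin.castAdd R i ∈ I) : σ₁ ≤ L I (Fin.natAdd N j) w' r₀ := by
  classical
  have hb0 := v.b0
  have hb1 := v.b1
  have hsubI : univ.image (Fin.castAdd R) ⊆ I := by
    intro i hi
    obtain ⟨a, -, rfl⟩ := mem_image.1 hi
    exact hI' a
  refine num_ge hS hL hσ1 fun d hd hd1 => ⟨1, ?_⟩
  obtain ⟨ε, hε⟩ : ∃ ε : ℝ, ε = d * (1 - v.b) / 2 := ⟨_, rfl⟩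
  have hd' : 0 < d * (1 - v.b) := mul_pos hd (by linarith)
  have hε0 : 0 < ε := by
    rw [hε]
    exact half_pos hd'
  obtain ⟨g, hg⟩ : ∃ g : ℝ, g = (m₀ - v.b - (σ₁ * (1 - v.b) + e + e₂)) / 2 := ⟨_, rfl⟩
  have hg0 : 0 < g := by
    rw [hg]
    exact half_pos (by linarith)
  obtain ⟨J₁, hJ₁⟩ := ex_pow hg0 r
  obtain ⟨J₂, hJ₂⟩ := bgJ hg0 (1 + |σ₁|)
  refine ((((hst.and hht).and hal).and hgc).and (hvel ε hε0)).mono (max J₁ J₂) ?_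
  rintro J hJ F A ⟨⟨⟨⟨h1, h2⟩, h3⟩, h4⟩, B, hB, hPB, h5⟩
  have g1 := hJ₁ J ((le_max_left _ _).trans hJ)
  have g2 := hJ₂ J ((le_max_right _ _).trans hJ)
  have hJ0 : (0 : ℝ) ≤ J := Nat.cast_nonneg J
  obtain ⟨j1, j2⟩ := jw v J
  obtain ⟨b1, b2⟩ := wB v J
  have hM' := hM J
  have hJ' : (0 : ℝ) ≤ ((J - v.B J : ℕ) : ℝ) := Nat.cast_nonneg _
  refine ⟨B, hB, hPB, ?_⟩
  -- the precision
  have kP : (⌊σ₁ * ((J - v.B J : ℕ) : ℝ)⌋₊ : ℝ) ≤ σ₁ * (1 - v.b) * J + |σ₁| := by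
    refine (Nat.floor_le (mul_nonneg hσ0 hJ')).trans ?_
    rw [abs_of_nonneg hσ0]
    have := mul_le_mul_of_nonneg_left j2 hσ0
    linarith
  have kw : d * (1 - v.b) * J - 1 ≤ (⌊(w' + d) * ((J - v.B J : ℕ) : ℝ)⌋₊ : ℝ) := by
    have h6 := Nat.lt_floor_add_one ((w' + d) * ((J - v.B J : ℕ) : ℝ))
    have h7 : d * ((1 - v.b) * J) ≤ (w' + d) * ((J - v.B J : ℕ) : ℝ) :=
      mul_le_mul (by linarith) j1 (mul_nonneg (by linarith) hJ0) (by linarith)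
    linarith
  have e0 : 2 * g = m₀ - v.b - (σ₁ * (1 - v.b) + e + e₂) := by rw [hg]; ring
  have e0' : 2 * g * (J : ℝ) = m₀ * J - v.b * J - σ₁ * (1 - v.b) * J - e * J - e₂ * J := by
    rw [e0]
    ring
  have lbl := natL (w' := ⌊(w' + d) * ((J - v.B J : ℕ) : ℝ)⌋₊)
    (P' := ⌊σ₁ * ((J - v.B J : ℕ) : ℝ)⌋₊) (e' := ⌊d * ((J - v.B J : ℕ) : ℝ)⌋₊)
    (ρ' := ⌊(r₀ + d) * ((J - v.B J : ℕ) : ℝ)⌋₊) h1 (hI J F) (fun y j b => haff J F y j b) hB j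
    (fun ω hω => ?_) (fun ω hω => ?_) (fun ω hω => h4 ω (hB ω hω))
  · obtain ⟨V, z, z', G, h6⟩ := lbl
    exact ⟨V, z, z', G, h6.mono hsubI le_rfl le_rfl le_rfl le_rfl⟩
  · -- the position
    have hA := hB ω hω
    have k1 : |∑ l ∈ range r, al J F (v.y J F ω) j l *
        hgp F (c (N + l)) (fr J F (v.y J F ω) l) ω| ≤ 2 ^ (g * J) * (2 : ℝ) ^ ((e + e₂) * J) := by
      refine (Finset.abs_sum_le_sum_abs _ _).trans ?_
      calc _ ≤ ∑ _l ∈ range r, (2 : ℝ) ^ ((e + e₂) * J) := Finset.sum_le_sum fun l hl => by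
            have hl' := mem_range.1 hl
            rw [abs_mul]
            refine (mul_le_mul (h3 ω hA l hl') (h2 ω hA l hl') (abs_nonneg _)
              (p_pos _).le).trans (le_of_eq ?_)
            rw [← p_add]
            congr 1
            ring
        _ = r * (2 : ℝ) ^ ((e + e₂) * J) := by
            rw [Finset.sum_const, card_range, nsmul_eq_mul]
        _ ≤ _ := mul_le_mul_of_nonneg_right g1 (p_pos _).le
    have e2 : (2 : ℝ) ^ v.B J / 2 ^ M J * (2 ^ (g * J) * (2 : ℝ) ^ ((e + e₂) * J)) =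
        (2 : ℝ) ^ ((v.B J : ℝ) - M J + g * J + (e + e₂) * J) := by
      rw [p_add, p_add, Real.rpow_sub (by norm_num), Real.rpow_natCast, Real.rpow_natCast]
      ring
    have e3 : (1 : ℝ) / 2 ^ ⌊σ₁ * ((J - v.B J : ℕ) : ℝ)⌋₊ =
        (2 : ℝ) ^ (-(⌊σ₁ * ((J - v.B J : ℕ) : ℝ)⌋₊ : ℝ)) := by
      rw [Real.rpow_neg (by norm_num), Real.rpow_natCast, one_div]
    refine (mul_le_mul_of_nonneg_left k1 (by positivity)).trans ?_
    rw [e2, e3]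
    refine p_le ?_
    linarith
  · -- the velocity
    have hA := hB ω hω
    have k1 : |∑ l ∈ range r, al J F (v.y J F ω) j l *
        ojet F (c (N + l)) 1 (fr J F (v.y J F ω) l) ω| ≤
        2 ^ (g * J) * (2 : ℝ) ^ ((v.b + ε + e + e₂) * J) := by
      refine (Finset.abs_sum_le_sum_abs _ _).trans ?_
      calc _ ≤ ∑ _l ∈ range r, (2 : ℝ) ^ ((v.b + ε + e + e₂) * J) :=
            Finset.sum_le_sum fun l hl => by
            have hl' := mem_range.1 hl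
            rw [abs_mul]
            refine (mul_le_mul (h3 ω hA l hl') (h5 ω hω l hl') (abs_nonneg _)
              (p_pos _).le).trans (le_of_eq ?_)
            rw [← p_add]
            congr 1
            ring
        _ = r * (2 : ℝ) ^ ((v.b + ε + e + e₂) * J) := by
            rw [Finset.sum_const, card_range, nsmul_eq_mul]
        _ ≤ _ := mul_le_mul_of_nonneg_right g1 (p_pos _).le
    have e2 : (1 : ℝ) / 2 ^ M J * (2 ^ (g * J) * (2 : ℝ) ^ ((v.b + ε + e + e₂) * J)) =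
        (2 : ℝ) ^ (g * J + (v.b + ε + e + e₂) * J - M J) := by
      rw [Real.rpow_sub (by norm_num), p_add, Real.rpow_natCast]
      ring
    have e3 : (2 : ℝ) ^ ⌊(w' + d) * ((J - v.B J : ℕ) : ℝ)⌋₊ /
        2 ^ ⌊σ₁ * ((J - v.B J : ℕ) : ℝ)⌋₊ = (2 : ℝ) ^
        ((⌊(w' + d) * ((J - v.B J : ℕ) : ℝ)⌋₊ : ℝ) - (⌊σ₁ * ((J - v.B J : ℕ) : ℝ)⌋₊ : ℝ)) := by
      rw [Real.rpow_sub (by norm_num), Real.rpow_natCast, Real.rpow_natCast]
    refine (mul_le_mul_of_nonneg_left k1 (by positivity)).trans ?_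
    rw [e2, e3]
    refine p_le ?_
    have e4 : (v.b + ε + e + e₂) * (J : ℝ) = v.b * J + ε * J + e * J + e₂ * J := by ring
    have e5 : ε * (J : ℝ) = d * (1 - v.b) * J / 2 := by rw [hε]; ring
    have e6 : 0 ≤ d * (1 - v.b) * (J : ℝ) := mul_nonneg hd'.le hJ0
    linarith

end cl

section cl2

variable {S : PCl m} {v : Vz m} {φ : Fin N → Fin m} {n : Fin 2 → Fin m} {E : Finset (Fin m)}
  {M q : ℕ → ℕ}
  {ka : ∀ (J : ℕ) (F : Fam m J), v.κ J F → Fin 2 → Fin m → ℝ} {T : PCl (N + 2)}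
  {L : Finset (Fin (N + 2)) → Fin (N + 2) → ℝ → ℝ → ℝ} {c : ℕ → Fin m} {r : ℕ}
  {fr : ∀ (J : ℕ) (F : Fam m J), v.κ J F → ℕ → MvPolynomial (Option (Fin m)) ℝ}
  {al : ∀ (J : ℕ) (F : Fam m J), v.κ J F → Fin 2 → ℕ → ℝ}
  {ga : ∀ (J : ℕ) (F : Fam m J), v.κ J F → Fin 2 → MvPolynomial (Option (Fin m)) ℝ}
  {s ν : ℕ → ℝ}

/-- **The number of the second image over the base and the first image.** -/
theorem im_leB (hS : (S.sl (slI v (nwR v φ n E M ka) T)).Ne) (hL : LamW T L)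
    (hst : Bas S (fun J F A => StR F v E (ka J F) (M J) (q J) A))
    (hI : ∀ (J : ℕ) (F : Fam m J), ImR c N r n E (fr J F) (al J F) (ga J F) (ka J F))
    (hφ : ∀ i : Fin N, φ i = c i) (hr : 0 < r)
    {v₀ μ m₀ C θ g e e₁ νm w' w'' P r₀ : ℝ}
    (hht : Bas S (fun J F A => HtS F v c N r s e (fr J F) A))
    (hrw : Bas S (fun J F A => RwB F v r s ν θ g (fun y => al J F y) A))
    (habs : ∀ l < r, ∀ K, Bas S (fun J F A =>
      ¬ LbR 0 F ((range (N + l)).image c) (c (N + l)) K ⌊v₀ * J⌋₊ ⌊(s l + μ) * J⌋₊ A))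
    (hv₀ : v.b + w'' * (1 - v.b) < v₀) (hv1 : v₀ ≤ 1) (hw' : w' < w'') (hw0 : 0 < w'')
    (hw1 : w'' ≤ 1) (hM0 : ∀ J : ℕ, m₀ * J ≤ M J) (hM : ∀ J : ℕ, (M J : ℝ) ≤ m₀ * J + C)
    (hs : ∀ l < r, 0 ≤ s l + μ) (hθ : 0 ≤ θ) (hμ : 0 ≤ μ)
    (he₁ : 0 < e₁) (hg : 0 < g) (he : 0 ≤ e) (hν : ∀ l < r, ν l ≤ νm)
    (hν1 : ∀ l l', l ≤ l' → ν l ≤ ν l')
    (hν2 : ∀ l, ν l + μ + e₁ * (1 - v.b) + θ + e + 4 * g ≤ ν (l + 1))
    (hr₀ : 0 ≤ r₀) (hball : (r₀ + e₁) * (1 - v.b) + v.b + θ + e + 3 * g ≤ m₀ + ν 1)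
    (hP : m₀ + μ + νm < v.b + (P - e₁) * (1 - v.b))
    {I : Finset (Fin (N + 2))} (hI' : Fin.natAdd N 1 ∉ I) :
    L I (Fin.natAdd N 1) w' r₀ ≤ P := by
  have hb0 := v.b0
  have hb1 := v.b1
  refine num_le hS hL hw' hw0 hw1 he₁ fun K => ?_
  obtain ⟨J₁, hJ₁⟩ := bgJ (a := v₀ - (v.b + w'' * (1 - v.b))) (by linarith) w''
  obtain ⟨J₂, hJ₂⟩ := bgJ (a := v.b + (P - e₁) * (1 - v.b) - (m₀ + μ + νm)) (by linarith)
    (C + 4 + |P - e₁|)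
  obtain ⟨J₃, hJ₃⟩ := ex_pow hg (4 * r)
  obtain ⟨J₄, hJ₄⟩ := bgJ hg (r₀ + e₁ + 2)
  have hab := bas_part (bas_lt fun l hl => habs l hl (K + 1)) (c := 99 ^ m * 99 ^ (N + 2) * r)
    (by positivity)
  refine (((hst.and hht).and hrw).and hab).mono (max (max J₁ J₂) (max J₃ J₄)) ?_
  rintro J hJ F A ⟨⟨⟨h1, h2⟩, h3⟩, h4⟩ h5
  have g1 := hJ₁ J ((le_max_left _ _).trans ((le_max_left _ _).trans hJ))
  have g2 := hJ₂ J ((le_max_right _ _).trans ((le_max_left _ _).trans hJ))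
  have g3 := hJ₃ J ((le_max_left _ _).trans ((le_max_right _ _).trans hJ))
  have g4 := hJ₄ J ((le_max_right _ _).trans ((le_max_right _ _).trans hJ))
  have hJ0 : (0 : ℝ) ≤ J := Nat.cast_nonneg J
  have hr0 : (0 : ℝ) < r := by exact_mod_cast hr
  obtain ⟨j1, j2⟩ := jw v J
  obtain ⟨b1, b2⟩ := wB v J
  have hJ' : (0 : ℝ) ≤ ((J - v.B J : ℕ) : ℝ) := Nat.cast_nonneg _
  have hWJ : ⌊v₀ * (J : ℝ)⌋₊ ≤ J := by
    refine Nat.floor_le_of_le ?_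
    calc v₀ * (J : ℝ) ≤ 1 * J := mul_le_mul_of_nonneg_right hv1 hJ0
      _ = J := one_mul _
  have hW : v.B J + ⌊w'' * ((J - v.B J : ℕ) : ℝ)⌋₊ ≤ ⌊v₀ * (J : ℝ)⌋₊ := by
    refine Nat.le_floor ?_
    have h9 : (⌊w'' * ((J - v.B J : ℕ) : ℝ)⌋₊ : ℝ) ≤ w'' * ((J - v.B J : ℕ) : ℝ) :=
      Nat.floor_le (mul_nonneg hw0.le (Nat.cast_nonneg _))
    have h10 : w'' * ((J - v.B J : ℕ) : ℝ) ≤ w'' * ((1 - v.b) * J + 1) :=
      mul_le_mul_of_nonneg_left j2 hw0.le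
    have e1 : (v₀ - (v.b + w'' * (1 - v.b))) * (J : ℝ) =
      v₀ * J - v.b * J - w'' * ((1 - v.b) * J) := by ring
    have e2 : w'' * ((1 - v.b) * J + 1) = w'' * ((1 - v.b) * J) + w'' := by ring
    push_cast
    linarith
  have hM0' := hM0 J
  have hM' := hM J
  -- the error
  obtain ⟨err, herr⟩ : ∃ err : ℕ → ℝ, err = fun l₁ => (2 : ℝ) ^ v.B J / 2 ^ M J *
    (2 ^ (g * J) / 4 * (2 : ℝ) ^ ((θ - ν (l₁ + 1) + g + e) * J)) := ⟨_, rfl⟩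
  have kr : (⌊(r₀ + e₁) * ((J - v.B J : ℕ) : ℝ)⌋₊ : ℝ) ≤ (r₀ + e₁) * (1 - v.b) * J + (r₀ + e₁) := by
    have h6 : 0 ≤ r₀ + e₁ := by linarith
    refine (Nat.floor_le (mul_nonneg h6 hJ')).trans ?_
    have := mul_le_mul_of_nonneg_left j2 h6
    linarith
  have ke : (⌊e₁ * ((J - v.B J : ℕ) : ℝ)⌋₊ : ℝ) ≤ e₁ * (1 - v.b) * J + e₁ := by
    refine (Nat.floor_le (mul_nonneg he₁.le hJ')).trans ?_
    have := mul_le_mul_of_nonneg_left j2 he₁.le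
    linarith
  refine no_labB h1 (hI J F) hφ hr hI' (P₂ := fun l => ⌊(s l + μ) * J⌋₊) hW hWJ h4 h5
    (err := err) (fun l _ => ?_) ?_
  · rw [herr]
    have e1 : (2 : ℝ) ^ v.B J / 2 ^ M J * (2 ^ (g * J) / 4 *
        (2 : ℝ) ^ ((θ - ν (l + 1) + g + e) * J)) =
        (2 : ℝ) ^ ((v.B J : ℝ) - M J + g * J + (θ - ν (l + 1) + g + e) * J - 2) := by
      rw [Real.rpow_sub (by norm_num), p_add, p_add, Real.rpow_sub (by norm_num),
        Real.rpow_natCast, Real.rpow_natCast]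
      norm_num
      ring
    have e3 : (1 : ℝ) / 2 ^ ⌊(r₀ + e₁) * ((J - v.B J : ℕ) : ℝ)⌋₊ =
        (2 : ℝ) ^ (-(⌊(r₀ + e₁) * ((J - v.B J : ℕ) : ℝ)⌋₊ : ℝ)) := by
      rw [Real.rpow_neg (by norm_num), Real.rpow_natCast, one_div]
    show (2 : ℝ) ^ v.B J / 2 ^ M J * (2 ^ (g * J) / 4 *
        (2 : ℝ) ^ ((θ - ν (l + 1) + g + e) * J)) ≤ _
    rw [e1, e3]
    refine p_le ?_
    have e4 := mul_le_mul_of_nonneg_right hball hJ0
    have e5 : ((r₀ + e₁) * (1 - v.b) + v.b + θ + e + 3 * g) * (J : ℝ) =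
      (r₀ + e₁) * (1 - v.b) * J + v.b * J + θ * J + e * J + 3 * (g * J) := by ring
    have e6 : (m₀ + ν 1) * (J : ℝ) = m₀ * J + ν 1 * J := by ring
    have e7 : (θ - ν (l + 1) + g + e) * (J : ℝ) = θ * J - ν (l + 1) * J + g * J + e * J := by ring
    have e8 := mul_le_mul_of_nonneg_right (hν1 1 (l + 1) (by omega)) hJ0
    linarith
  intro ω hω
  obtain ⟨l₁, hl₁, h6, h7, h8⟩ := h3 ω hω
  obtain ⟨T₀, hT₀⟩ : ∃ T₀ : ℝ, T₀ = (2 : ℝ) ^ ((s l₁ - ν l₁) * J) := ⟨_, rfl⟩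
  rw [← hT₀] at h7
  have hT₀p : 0 < T₀ := by rw [hT₀]; exact p_pos _
  have hν1' : ∀ l, l₁ < l → ν (l₁ + 1) ≤ ν l := fun l hl => hν1 _ _ (by omega)
  have l0 : ∑ l ∈ Finset.Ico (l₁ + 1) r, |al J F (v.y J F ω) 0 l| *
      |hgp F (c (N + l)) (fr J F (v.y J F ω) l) ω| ≤
      2 ^ (g * J) / 4 * (2 : ℝ) ^ ((θ - ν (l₁ + 1) + g + e) * J) := by
    have e1 := late_le (r := r) (l₁ := l₁) (a := fun l => al J F (v.y J F ω) 0 l)
      (X' := fun l => hgp F (c (N + l)) (fr J F (v.y J F ω) l) ω)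
      (y := (2 : ℝ) ^ ((θ - ν (l₁ + 1) + g + e) * J)) (p_pos _).le fun l hl hl' => by
        have f1 := (h8 l hl hl').1
        have f2 := h2 ω hω l hl'
        calc _ ≤ (2 : ℝ) ^ ((s l + θ - ν l + g) * J) * 2 ^ (-((s l - e) * J)) :=
              mul_le_mul f1 f2 (abs_nonneg _) (p_pos _).le
          _ = 2 ^ ((θ - ν l + g + e) * J) := by
              rw [← p_add]
              congr 1
              ring
          _ ≤ _ := by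
              refine p_le (mul_le_mul_of_nonneg_right ?_ hJ0)
              have := hν1' l hl
              linarith
    refine e1.trans (mul_le_mul_of_nonneg_right ?_ (p_pos _).le)
    linarith
  have l1 : ∑ l ∈ Finset.Ico (l₁ + 1) r, |al J F (v.y J F ω) 1 l| *
      |hgp F (c (N + l)) (fr J F (v.y J F ω) l) ω| ≤
      2 ^ (g * J) / 4 * (2 : ℝ) ^ ((- ν (l₁ + 1) + g + e) * J) := by
    have e1 := late_le (r := r) (l₁ := l₁) (a := fun l => al J F (v.y J F ω) 1 l)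
      (X' := fun l => hgp F (c (N + l)) (fr J F (v.y J F ω) l) ω)
      (y := (2 : ℝ) ^ ((- ν (l₁ + 1) + g + e) * J)) (p_pos _).le fun l hl hl' => by
        have f1 := (h8 l hl hl').2
        have f2 := h2 ω hω l hl'
        calc _ ≤ (2 : ℝ) ^ ((s l - ν l + g) * J) * 2 ^ (-((s l - e) * J)) :=
              mul_le_mul f1 f2 (abs_nonneg _) (p_pos _).le
          _ = 2 ^ ((- ν l + g + e) * J) := by
              rw [← p_add]
              congr 1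
              ring
          _ ≤ _ := by
              refine p_le (mul_le_mul_of_nonneg_right ?_ hJ0)
              have := hν1' l hl
              linarith
    refine e1.trans (mul_le_mul_of_nonneg_right ?_ (p_pos _).le)
    linarith
  refine ⟨l₁, hl₁, fun hc => ?_, h6, ?_, ?_⟩
  · simp only [hc, abs_zero] at h7
    linarith
  · rw [herr]
    exact mul_le_mul_of_nonneg_left l0 (by positivity)
  refine le_trans ?_ h7
  have k1 : (⌊(s l₁ + μ) * (J : ℝ)⌋₊ : ℝ) ≤ (s l₁ + μ) * J :=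
    Nat.floor_le (mul_nonneg (hs l₁ hl₁) hJ0)
  have k2 := Nat.lt_floor_add_one ((P - e₁) * ((J - v.B J : ℕ) : ℝ))
  have k3 := jmul v (P - e₁) J
  have n1 := hν2 l₁
  have n1' := mul_le_mul_of_nonneg_right n1 hJ0
  have n2 : (ν l₁ + μ + e₁ * (1 - v.b) + θ + e + 4 * g) * (J : ℝ) =
    ν l₁ * J + μ * J + e₁ * (1 - v.b) * J + θ * J + e * J + 4 * (g * J) := by ring
  have t1 : (2 : ℝ) ^ ⌊(s l₁ + μ) * (J : ℝ)⌋₊ * (2 ^ M J / 2 ^ v.B J *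
      (1 / 2 ^ ⌊(P - e₁) * ((J - v.B J : ℕ) : ℝ)⌋₊)) ≤ T₀ / 4 := by
    have e1 : (2 : ℝ) ^ ⌊(s l₁ + μ) * (J : ℝ)⌋₊ * (2 ^ M J / 2 ^ v.B J *
      (1 / 2 ^ ⌊(P - e₁) * ((J - v.B J : ℕ) : ℝ)⌋₊)) = (2 : ℝ) ^
        ((⌊(s l₁ + μ) * (J : ℝ)⌋₊ : ℝ) + M J - v.B J -
          (⌊(P - e₁) * ((J - v.B J : ℕ) : ℝ)⌋₊ : ℝ)) := by
      rw [Real.rpow_sub (by norm_num), Real.rpow_sub (by norm_num), Real.rpow_add (by norm_num),
        Real.rpow_natCast, Real.rpow_natCast, Real.rpow_natCast, Real.rpow_natCast]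
      field_simp
    have e2 : T₀ / 4 = (2 : ℝ) ^ ((s l₁ - ν l₁) * J - 2) := by
      rw [hT₀, Real.rpow_sub (by norm_num)]
      norm_num
    rw [e1, e2]
    refine p_le ?_
    have e3 : (v.b + (P - e₁) * (1 - v.b) - (m₀ + μ + νm)) * (J : ℝ) =
      v.b * J + (P - e₁) * (1 - v.b) * J - m₀ * J - μ * J - νm * J := by ring
    have e4 : (s l₁ - ν l₁) * (J : ℝ) = s l₁ * J - ν l₁ * J := by ring
    have e5 : (s l₁ + μ) * (J : ℝ) = s l₁ * J + μ * J := by ring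
    have e6 := mul_le_mul_of_nonneg_right (hν l₁ hl₁) hJ0
    linarith
  have t2 : (2 : ℝ) ^ ⌊(s l₁ + μ) * (J : ℝ)⌋₊ * (2 ^ M J / 2 ^ v.B J *
      (2 ^ ⌊e₁ * ((J - v.B J : ℕ) : ℝ)⌋₊ * err l₁)) ≤ T₀ / 4 := by
    have e1 : (2 : ℝ) ^ ⌊(s l₁ + μ) * (J : ℝ)⌋₊ * (2 ^ M J / 2 ^ v.B J *
      (2 ^ ⌊e₁ * ((J - v.B J : ℕ) : ℝ)⌋₊ * err l₁)) = (2 : ℝ) ^
        ((⌊(s l₁ + μ) * (J : ℝ)⌋₊ : ℝ) + (⌊e₁ * ((J - v.B J : ℕ) : ℝ)⌋₊ : ℝ) + g * J +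
          (θ - ν (l₁ + 1) + g + e) * J - 2) := by
      rw [Real.rpow_sub (by norm_num), p_add, p_add, p_add, Real.rpow_natCast,
        Real.rpow_natCast, herr]
      norm_num
      field_simp
    have e2 : T₀ / 4 = (2 : ℝ) ^ ((s l₁ - ν l₁) * J - 2) := by
      rw [hT₀, Real.rpow_sub (by norm_num)]
      norm_num
    rw [e1, e2]
    refine p_le ?_
    have e4 : (s l₁ - ν l₁) * (J : ℝ) = s l₁ * J - ν l₁ * J := by ring
    have e5 : (s l₁ + μ) * (J : ℝ) = s l₁ * J + μ * J := by ring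
    have e7 : (θ - ν (l₁ + 1) + g + e) * (J : ℝ) = θ * J - ν (l₁ + 1) * J + g * J + e * J := by
      ring
    linarith
  have t3 : (2 : ℝ) ^ ⌊(s l₁ + μ) * (J : ℝ)⌋₊ * ∑ l ∈ Finset.Ico (l₁ + 1) r,
      |al J F (v.y J F ω) 1 l| * |hgp F (c (N + l)) (fr J F (v.y J F ω) l) ω| ≤ T₀ / 4 := by
    have e3 := np_le k1
    have e1 : (2 : ℝ) ^ ((s l₁ + μ) * J) * (2 ^ (g * J) / 4 *
        (2 : ℝ) ^ ((- ν (l₁ + 1) + g + e) * J)) = (2 : ℝ) ^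
        ((s l₁ + μ) * J + g * J + (- ν (l₁ + 1) + g + e) * J - 2) := by
      rw [Real.rpow_sub (by norm_num), p_add, p_add]
      norm_num
      ring
    have e2 : T₀ / 4 = (2 : ℝ) ^ ((s l₁ - ν l₁) * J - 2) := by
      rw [hT₀, Real.rpow_sub (by norm_num)]
      norm_num
    refine (mul_le_mul e3 l1 (Finset.sum_nonneg fun l _ => by positivity) (p_pos _).le).trans ?_
    rw [e1, e2]
    refine p_le ?_
    have e4 : (s l₁ - ν l₁) * (J : ℝ) = s l₁ * J - ν l₁ * J := by ring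
    have e5 : (s l₁ + μ) * (J : ℝ) = s l₁ * J + μ * J := by ring
    have e7 : (- ν (l₁ + 1) + g + e) * (J : ℝ) = - ν (l₁ + 1) * J + g * J + e * J := by
      ring
    have e8 : 0 ≤ θ * (J : ℝ) := mul_nonneg hθ hJ0
    have e9 : 0 ≤ e₁ * (1 - v.b) * (J : ℝ) := mul_nonneg (mul_nonneg he₁.le (by linarith)) hJ0
    have e10 : 0 ≤ g * (J : ℝ) := mul_nonneg hg.le hJ0
    linarith
  calc _ = (2 : ℝ) ^ ⌊(s l₁ + μ) * (J : ℝ)⌋₊ * (2 ^ M J / 2 ^ v.B J *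
      (1 / 2 ^ ⌊(P - e₁) * ((J - v.B J : ℕ) : ℝ)⌋₊)) +
      (2 : ℝ) ^ ⌊(s l₁ + μ) * (J : ℝ)⌋₊ * (2 ^ M J / 2 ^ v.B J *
      (2 ^ ⌊e₁ * ((J - v.B J : ℕ) : ℝ)⌋₊ * err l₁)) +
      (2 : ℝ) ^ ⌊(s l₁ + μ) * (J : ℝ)⌋₊ * ∑ l ∈ Finset.Ico (l₁ + 1) r,
      |al J F (v.y J F ω) 1 l| * |hgp F (c (N + l)) (fr J F (v.y J F ω) l) ω| := by
        rw [mul_add, mul_add, mul_add]
    _ ≤ T₀ / 4 + T₀ / 4 + T₀ / 4 := add_le_add (add_le_add t1 t2) t3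
    _ ≤ T₀ := by linarith

end cl2

end Pool.IMN17
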