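import Pool.Agent.H17.IMN.Nat
import Pool.Agent.H35.ZCL.Core

/-!
# The numbers of the images, the upper bounds

`im_leA`: the number of an image over the base. `im_leB`: the number of the second image over the
base and the first image, the coefficient of the first image being zero at the place of the division.
-/

set_option autoImplicit false

namespace Pool.IMN17

open Finset Real MvPolynomial
open Pool.Agent.H49.Ent Pool.Agent.H32.Dense Pool.STK Pool.KA Pool.KSAT Pool.K2S Pool.PB Pool.S6C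
open Pool.GEN Pool.REX Pool.REX83 Pool.NFT33 Pool.TOP
open Pool.GRD (LbP)
open Pool.GRW (bas_part)
open Pool.D2F2 (hgp)
open Pool.FUL33 (st_fac bgJ wB wJ jw jmul pull bas_abs)
open Pool.FUL17

variable {m N R J : ℕ}

/-- **A part with a constant code.** -/
theorem pe_code {Ω : Type} [Fintype Ω] {p : Ω → ℝ} (hp : IsLaw p) {B : Ω → Prop} {r : ℕ}
    {P : ℕ → Ω → Prop} (h : ∀ ω, B ω → ∃ l < r, P l ω) (hr : 0 < r) :
    ∃ l < r, Pe p B ≤ r * Pe p (fun ω => B ω ∧ P l ω) := by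
  classical
  obtain ⟨k, hk⟩ : ∃ k : Ω → Fin r, k = fun ω => if hω : B ω then ⟨(h ω hω).choose,
    (h ω hω).choose_spec.1⟩ else ⟨0, hr⟩ := ⟨_, rfl⟩
  obtain ⟨-, k₀, h1⟩ := Pool.ZCL.Pe_pigeon hp k B
  have hr0 : (0 : ℝ) < r := by exact_mod_cast hr
  refine ⟨k₀, k₀.2, ?_⟩
  rw [div_le_iff₀ hr0] at h1
  rw [mul_comm]
  refine h1.trans (mul_le_mul_of_nonneg_right (Pe_mono hp fun ω hω => ?_) hr0.le)
  refine ⟨hω.2, ?_⟩
  have h2 := hω.1
  rw [hk] at h2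
  simp only [dif_pos hω.2] at h2
  rw [← h2]
  exact (h ω hω.2).choose_spec.2

theorem bas_lt {S : PCl m} {r : ℕ} {Φ : ℕ → Stat m} (h : ∀ l < r, Bas S (Φ l)) :
    Bas S (fun J F A => ∀ l < r, Φ l J F A) := by
  induction r with
  | zero => exact ⟨1, one_pos, 0, fun J _ F A _ l hl => absurd hl (Nat.not_lt_zero l)⟩
  | succ r ih =>
    refine ((ih fun l hl => h l (by omega)).and (h r (by omega))).mono 0 ?_
    rintro J - F A ⟨h1, h2⟩ l hl
    rcases Nat.lt_succ_iff_lt_or_eq.1 hl with hl | hl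
    · exact h1 l hl
    · rw [hl]
      exact h2

section ev

variable {F : Fam m J} {v : Vz m} {φ : Fin N → Fin m} {n : Fin R → Fin m} {E : Finset (Fin m)}
  {M : ℕ → ℕ} {ka : ∀ (J : ℕ) (F : Fam m J), v.κ J F → Fin R → Fin m → ℝ} {q : ℕ}
  {A : F.Ω → Prop} {c : ℕ → Fin m} {r : ℕ}
  {fr : ∀ (J : ℕ) (F : Fam m J), v.κ J F → ℕ → MvPolynomial (Option (Fin m)) ℝ}
  {al : ∀ (J : ℕ) (F : Fam m J), v.κ J F → Fin R → ℕ → ℝ}
  {ga : ∀ (J : ℕ) (F : Fam m J), v.κ J F → Fin R → MvPolynomial (Option (Fin m)) ℝ}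

/-- The coordinates of the window without the late places: the time and the base. -/
theorem sgW_base (h : StR F v E (ka J F) (M J) q A) {l₁ : ℕ} {ω : F.Ω} (hω : A ω) (i : Fin N) :
    eval (bt F ω) (sgW F v φ n E (M J) (ka J F) c l₁ (fr J F) (al J F) (ga J F) ((v.win F).Z ω)
      (some (Fin.castAdd R i))) = bt (winI v (nwR v φ n E M ka) F) ω (some (Fin.castAdd R i)) := by
  show _ = (winI v (nwR v φ n E M ka) F).x ω (Fin.castAdd R i)
  rw [h.xb hω, win_x]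
  exact sgC_base _ i

theorem sgW_none {l₁ : ℕ} {ω : F.Ω} :
    eval (bt F ω) (sgW F v φ n E (M J) (ka J F) c l₁ (fr J F) (al J F) (ga J F) ((v.win F).Z ω)
      none) = bt (winI v (nwR v φ n E M ka) F) ω none := by
  have h1 : bt (winI v (nwR v φ n E M ka) F) ω none = (v.win F).t ω := rfl
  rw [h1, win_tt]
  exact sgC_none _

/-- The images without the late places. -/
theorem sgW_im (h : StR F v E (ka J F) (M J) q A)
    (hI : ImR c N r n E (fr J F) (al J F) (ga J F) (ka J F)) {l₁ : ℕ} (hl₁ : l₁ ≤ r) {ω : F.Ω}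
    (hω : A ω) (j : Fin R) :
    bt (winI v (nwR v φ n E M ka) F) ω (some (Fin.natAdd N j)) -
    eval (bt F ω) (sgW F v φ n E (M J) (ka J F) c l₁ (fr J F) (al J F) (ga J F) ((v.win F).Z ω)
      (some (Fin.natAdd N j))) = 2 ^ v.B J / 2 ^ M J * ∑ l ∈ Finset.Ico l₁ r,
        al J F (v.y J F ω) j l * hgp F (c (N + l)) (fr J F (v.y J F ω) l) ω := by
  have h1 := hI.rel (v.y J F ω) j (bt F ω)
  have e0 : (fun i => bt F ω (some i)) = F.x ω := rfl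
  rw [e0] at h1
  have h2 : bt (winI v (nwR v φ n E M ka) F) ω (some (Fin.natAdd N j)) =
    (winI v (nwR v φ n E M ka) F).x ω (Fin.natAdd N j) := rfl
  have h3 : eval (bt F ω) (sgW F v φ n E (M J) (ka J F) c l₁ (fr J F) (al J F) (ga J F)
      ((v.win F).Z ω) (some (Fin.natAdd N j))) = 1 / 2 ^ M J * (2 ^ v.B J *
        (∑ l ∈ range l₁, al J F (v.y J F ω) j l * (bt F ω (some (c (N + l))) -
          eval (bt F ω) (fr J F (v.y J F ω) l)) + eval (bt F ω) (ga J F (v.y J F ω) j)) -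
        imR n E (ka J F (v.y J F ω)) (fun l => (fl (v.B J) (F.x1 (v.B J) ω) l : ℝ)) j) :=
    sgC_im _ j
  rw [h2, StR.xim h hω, h3, h1]
  have h4 : ∑ l ∈ range r, al J F (v.y J F ω) j l * (bt F ω (some (c (N + l))) -
          eval (bt F ω) (fr J F (v.y J F ω) l)) = ∑ l ∈ range l₁, al J F (v.y J F ω) j l *
          (bt F ω (some (c (N + l))) - eval (bt F ω) (fr J F (v.y J F ω) l)) +
      ∑ l ∈ Finset.Ico l₁ r, al J F (v.y J F ω) j l * hgp F (c (N + l))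
        (fr J F (v.y J F ω) l) ω := by
    rw [Finset.range_eq_Ico, Finset.range_eq_Ico, ← Finset.sum_Ico_consecutive _ (Nat.zero_le l₁)
      hl₁]
    rfl
  rw [h4]
  ring

/-- **No label over the base.** -/
theorem no_labA (h : StR F v E (ka J F) (M J) q A)
    (hI : ImR c N r n E (fr J F) (al J F) (ga J F) (ka J F)) (hφ : ∀ i : Fin N, φ i = c i)
    (hr : 0 < r) (j : Fin R) {I' : Finset (Fin (N + R))} (hI' : ∀ j : Fin R, Fin.natAdd N j ∉ I')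
    {K' e' w' W ρ' P' : ℕ} {P₂ : ℕ → ℕ} (hW : v.B J + w' ≤ W) (hWJ : W ≤ J)
    (habs : ∀ B : F.Ω → Prop, Sub B A → Pe F.p A ≤ (99 ^ m * 99 ^ (N + R) * r : ℝ) * Pe F.p B →
      ∀ l < r, ¬ LbR 0 F ((range (N + l)).image c) (c (N + l)) (K' + 1) W (P₂ l) B)
    (hL : Lb (winI v (nwR v φ n E M ka) F) I' (Fin.natAdd N j) K' e' (J - v.B J) w' ρ' P' A)
    (hrow : ∀ ω, A ω → ∃ l₁ < r, al J F (v.y J F ω) j l₁ ≠ 0 ∧
      (2 : ℝ) ^ P₂ l₁ * (2 ^ M J / 2 ^ v.B J * (1 / 2 ^ P' + 0) +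
      ∑ l ∈ Finset.Ico (l₁ + 1) r, |al J F (v.y J F ω) j l| *
        |hgp F (c (N + l)) (fr J F (v.y J F ω) l) ω|) ≤ |al J F (v.y J F ω) j l₁|) : False := by
  classical
  obtain ⟨B, hB, hPB, hdet⟩ := h.part (φ := φ) (n := n)
  obtain ⟨Pc, hPc⟩ : ∃ Pc : ℕ → F.Ω → Prop, Pc = fun l₁ ω => al J F (v.y J F ω) j l₁ ≠ 0 ∧
      (2 : ℝ) ^ P₂ l₁ * (2 ^ M J / 2 ^ v.B J * (1 / 2 ^ P' + 0) +
      ∑ l ∈ Finset.Ico (l₁ + 1) r, |al J F (v.y J F ω) j l| *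
        |hgp F (c (N + l)) (fr J F (v.y J F ω) l) ω|) ≤ |al J F (v.y J F ω) j l₁| := ⟨_, rfl⟩
  obtain ⟨l₁, hl₁, h1⟩ := pe_code F.isLaw (B := B) (P := Pc)
    (fun ω hω => by rw [hPc]; exact hrow ω (hB ω hω)) hr
  obtain ⟨V, z, z', G, hlb⟩ := hL
  obtain ⟨B', hB'⟩ : ∃ B' : F.Ω → Prop, B' = fun ω => B ω ∧ Pc l₁ ω := ⟨_, rfl⟩
  rw [← hB'] at h1
  have hb : ∀ ω, B' ω → B ω := fun ω hω => by rw [hB'] at hω; exact hω.1
  have hc : ∀ ω, B' ω → al J F (v.y J F ω) j l₁ ≠ 0 ∧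
      (2 : ℝ) ^ P₂ l₁ * (2 ^ M J / 2 ^ v.B J * (1 / 2 ^ P' + 0) +
      ∑ l ∈ Finset.Ico (l₁ + 1) r, |al J F (v.y J F ω) j l| *
        |hgp F (c (N + l)) (fr J F (v.y J F ω) l) ω|) ≤ |al J F (v.y J F ω) j l₁| :=
    fun ω hω => by
      rw [hB', hPc] at hω
      exact hω.2
  refine habs B' (fun ω hω => hB ω (hb ω hω)) ?_ l₁ hl₁ (conv h hI hφ (B := B')
    (fun ω hω => hB ω (hb ω hω)) (fun ω ω' hω hω' => hdet ω ω' (hb ω hω) (hb ω' hω')) j hl₁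
    (w' := w') hW hWJ (LbP.of hlb) (err := 0) (fun ω hω => ?_) (fun ω hω => (hc ω hω).2)
    fun ω hω => (hc ω hω).1)
  · refine hPB.trans ?_
    have h9 : (0 : ℝ) ≤ 99 ^ m * 99 ^ (N + R) := by positivity
    refine (mul_le_mul_of_nonneg_left h1 h9).trans (le_of_eq ?_)
    ring
  · rw [hlb.dep _ _ (fun o => eval (bt F ω) (sgW F v φ n E (M J) (ka J F) c l₁ (fr J F)
      (al J F) (ga J F) ((v.win F).Z ω) o)) sgW_none.symm fun i hi => ?_, sub_self, abs_zero]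
    revert hi
    refine Fin.addCases (fun i _ => ?_) (fun j' hi => absurd hi (hI' j')) i
    exact (sgW_base h (hB ω (hb ω hω)) i).symm

end ev

section ev2

variable {F : Fam m J} {v : Vz m} {φ : Fin N → Fin m} {n : Fin 2 → Fin m} {E : Finset (Fin m)}
  {M : ℕ → ℕ} {ka : ∀ (J : ℕ) (F : Fam m J), v.κ J F → Fin 2 → Fin m → ℝ} {q : ℕ}
  {A : F.Ω → Prop} {c : ℕ → Fin m} {r : ℕ}
  {fr : ∀ (J : ℕ) (F : Fam m J), v.κ J F → ℕ → MvPolynomial (Option (Fin m)) ℝ}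
  {al : ∀ (J : ℕ) (F : Fam m J), v.κ J F → Fin 2 → ℕ → ℝ}
  {ga : ∀ (J : ℕ) (F : Fam m J), v.κ J F → Fin 2 → MvPolynomial (Option (Fin m)) ℝ}

/-- **No label over the base and the first image.** -/
theorem no_labB (h : StR F v E (ka J F) (M J) q A)
    (hI : ImR c N r n E (fr J F) (al J F) (ga J F) (ka J F)) (hφ : ∀ i : Fin N, φ i = c i)
    (hr : 0 < r) {I' : Finset (Fin (N + 2))} (hI' : Fin.natAdd N 1 ∉ I')
    {K' e' w' W ρ' P' : ℕ} {P₂ : ℕ → ℕ} (hW : v.B J + w' ≤ W) (hWJ : W ≤ J)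
    (habs : ∀ B : F.Ω → Prop, Sub B A → Pe F.p A ≤ (99 ^ m * 99 ^ (N + 2) * r : ℝ) * Pe F.p B →
      ∀ l < r, ¬ LbR 0 F ((range (N + l)).image c) (c (N + l)) (K' + 1) W (P₂ l) B)
    (hL : Lb (winI v (nwR v φ n E M ka) F) I' (Fin.natAdd N 1) K' e' (J - v.B J) w' ρ' P' A)
    {err : ℕ → ℝ} (hball : ∀ l < r, err l ≤ 1 / 2 ^ ρ')
    (hrow : ∀ ω, A ω → ∃ l₁ < r, al J F (v.y J F ω) 1 l₁ ≠ 0 ∧ al J F (v.y J F ω) 0 l₁ = 0 ∧
      2 ^ v.B J / 2 ^ M J * ∑ l ∈ Finset.Ico (l₁ + 1) r, |al J F (v.y J F ω) 0 l| *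
        |hgp F (c (N + l)) (fr J F (v.y J F ω) l) ω| ≤ err l₁ ∧
      (2 : ℝ) ^ P₂ l₁ * (2 ^ M J / 2 ^ v.B J * (1 / 2 ^ P' + 2 ^ e' * err l₁) +
      ∑ l ∈ Finset.Ico (l₁ + 1) r, |al J F (v.y J F ω) 1 l| *
        |hgp F (c (N + l)) (fr J F (v.y J F ω) l) ω|) ≤ |al J F (v.y J F ω) 1 l₁|) : False := by
  classical
  obtain ⟨B, hB, hPB, hdet⟩ := h.part (φ := φ) (n := n)
  obtain ⟨Pc, hPc⟩ : ∃ Pc : ℕ → F.Ω → Prop, Pc = fun l₁ ω => al J F (v.y J F ω) 1 l₁ ≠ 0 ∧ al J F (v.y J F ω) 0 l₁ = 0 ∧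
      2 ^ v.B J / 2 ^ M J * ∑ l ∈ Finset.Ico (l₁ + 1) r, |al J F (v.y J F ω) 0 l| *
        |hgp F (c (N + l)) (fr J F (v.y J F ω) l) ω| ≤ err l₁ ∧
      (2 : ℝ) ^ P₂ l₁ * (2 ^ M J / 2 ^ v.B J * (1 / 2 ^ P' + 2 ^ e' * err l₁) +
      ∑ l ∈ Finset.Ico (l₁ + 1) r, |al J F (v.y J F ω) 1 l| *
        |hgp F (c (N + l)) (fr J F (v.y J F ω) l) ω|) ≤ |al J F (v.y J F ω) 1 l₁| := ⟨_, rfl⟩
  obtain ⟨l₁, hl₁, h1⟩ := pe_code F.isLaw (B := B) (P := Pc)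
    (fun ω hω => by rw [hPc]; exact hrow ω (hB ω hω)) hr
  obtain ⟨V, z, z', G, hlb⟩ := hL
  obtain ⟨B', hB'⟩ : ∃ B' : F.Ω → Prop, B' = fun ω => B ω ∧ Pc l₁ ω := ⟨_, rfl⟩
  rw [← hB'] at h1
  have hb : ∀ ω, B' ω → B ω := fun ω hω => by rw [hB'] at hω; exact hω.1
  have hc : ∀ ω, B' ω → al J F (v.y J F ω) 1 l₁ ≠ 0 ∧ al J F (v.y J F ω) 0 l₁ = 0 ∧
      2 ^ v.B J / 2 ^ M J * ∑ l ∈ Finset.Ico (l₁ + 1) r, |al J F (v.y J F ω) 0 l| *
        |hgp F (c (N + l)) (fr J F (v.y J F ω) l) ω| ≤ err l₁ ∧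
      (2 : ℝ) ^ P₂ l₁ * (2 ^ M J / 2 ^ v.B J * (1 / 2 ^ P' + 2 ^ e' * err l₁) +
      ∑ l ∈ Finset.Ico (l₁ + 1) r, |al J F (v.y J F ω) 1 l| *
        |hgp F (c (N + l)) (fr J F (v.y J F ω) l) ω|) ≤ |al J F (v.y J F ω) 1 l₁| :=
    fun ω hω => by
      rw [hB', hPc] at hω
      exact hω.2
  refine habs B' (fun ω hω => hB ω (hb ω hω)) ?_ l₁ hl₁ (conv h hI hφ (B := B')
    (fun ω hω => hB ω (hb ω hω)) (fun ω ω' hω hω' => hdet ω ω' (hb ω hω) (hb ω' hω')) 1 hl₁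
    (w' := w') hW hWJ (LbP.of hlb) (err := 2 ^ e' * err l₁) (fun ω hω => ?_)
    (fun ω hω => (hc ω hω).2.2.2) fun ω hω => (hc ω hω).1)
  · refine hPB.trans ?_
    have h9 : (0 : ℝ) ≤ 99 ^ m * 99 ^ (N + 2) := by positivity
    refine (mul_le_mul_of_nonneg_left h1 h9).trans (le_of_eq ?_)
    ring
  · obtain ⟨g, hg⟩ : ∃ g, g = G (z' (slam (winI v (nwR v φ n E M ka) F) w' ω)) := ⟨_, rfl⟩
    obtain ⟨x, hx⟩ : ∃ x, x = bt (winI v (nwR v φ n E M ka) F) ω := ⟨_, rfl⟩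
    obtain ⟨x₁, hx₁⟩ : ∃ x₁ : Option (Fin (N + 2)) → ℝ, x₁ = fun o => eval (bt F ω)
      (sgW F v φ n E (M J) (ka J F) c l₁ (fr J F) (al J F) (ga J F) ((v.win F).Z ω) o) := ⟨_, rfl⟩
    obtain ⟨x₂, hx₂⟩ : ∃ x₂ : Option (Fin (N + 2)) → ℝ, x₂ = fun o =>
      if o = some (Fin.natAdd N 0) then x₁ o else x o := ⟨_, rfl⟩
    have hA := hB ω (hb ω hω)
    have h2 : |x (some (Fin.natAdd N 0)) - x₁ (some (Fin.natAdd N 0))| ≤ err l₁ := by
      rw [hx, hx₁]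
      show |bt (winI v (nwR v φ n E M ka) F) ω (some (Fin.natAdd N 0)) - eval (bt F ω)
        (sgW F v φ n E (M J) (ka J F) c l₁ (fr J F) (al J F) (ga J F) ((v.win F).Z ω)
          (some (Fin.natAdd N 0)))| ≤ err l₁
      rw [sgW_im h hI hl₁.le hA, Finset.sum_eq_sum_Ico_succ_bot hl₁, (hc ω hω).2.1, zero_mul, zero_add,
        abs_mul, abs_of_pos (by positivity : (0 : ℝ) < 2 ^ v.B J / 2 ^ M J)]
      refine le_trans (mul_le_mul_of_nonneg_left ?_ (by positivity)) (hc ω hω).2.2.1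
      refine (Finset.abs_sum_le_sum_abs _ _).trans (le_of_eq ?_)
      exact Finset.sum_congr rfl fun l _ => abs_mul _ _
    have h3 : eval x₁ g = eval x₂ g := by
      rw [hg]
      refine hlb.dep _ _ _ ?_ fun i hi => ?_
      · rw [hx₂]
        simp only [reduceCtorEq, if_false]
        rw [hx₁, hx]
        exact sgW_none
      · revert hi
        refine Fin.addCases (fun i _ => ?_) (fun j' hi => ?_) i
        · rw [hx₂]
          have e1 : (some (Fin.castAdd 2 i) : Option (Fin (N + 2))) ≠ some (Fin.natAdd N 0) :=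
            fun hc => base_ne i 0 (Option.some.inj hc)
          simp only [if_neg e1]
          rw [hx₁, hx]
          exact sgW_base h hA i
        · have hj : j' = 0 := by
            by_contra hne
            have : j' = 1 := by omega
            rw [this] at hi
            exact hI' hi
          rw [hj, hx₂]
          simp only [if_true]
    rw [← hg, ← hx, ← hx₁, h3, abs_sub_comm]
    have hd : ∀ o, |x₂ o - x o| ≤ if o = some (Fin.natAdd N 0) then err l₁ else 0 := by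
      intro o
      rw [hx₂]
      by_cases ho : o = some (Fin.natAdd N 0)
      · simp only [if_pos ho]
        rw [ho, abs_sub_comm]
        exact h2
      · simp only [if_neg ho]
        rw [sub_self, abs_zero]
    have h4 := mvσ g x x₂ (2 ^ e') (fun y hy i => by
      rw [hg]
      refine hlb.lip ω hA y (fun o => ?_) i
      rw [← hx]
      refine (hy o).trans ((hd o).trans ?_)
      split_ifs
      · exact hball l₁ hl₁
      · positivity)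
    refine h4.trans (mul_le_mul_of_nonneg_left ?_ (by positivity))
    refine (Finset.sum_le_sum fun o _ => hd o).trans (le_of_eq ?_)
    rw [Finset.sum_ite_eq' univ (some (Fin.natAdd N 0)), if_pos (mem_univ _)]

end ev2

end Pool.IMN17
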