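import Pool.Agent.H17.IMN.Num

/-!
# Labels of images and labels of the places

`ImR`: the images are combinations of the heights of closed affine labels, up to closed affine
functions of the base. `conv`: a closed label of an image over the base and the other images, with
the coefficients zero at the place `N + l₁`, is a closed label of the place `N + l₁` over the earlier
places: division by the coefficient of the image at `N + l₁`, the later places are negligible.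
-/

set_option autoImplicit false

namespace Pool.IMN17

open Finset Real MvPolynomial
open Pool.Agent.H49.Ent Pool.Agent.H32.Dense Pool.STK Pool.KA Pool.KSAT Pool.K2S Pool.PB Pool.S6C
open Pool.GEN Pool.REX Pool.REX83 Pool.NFT33 Pool.TOP
open Pool.GRD (LbP)
open Pool.D2F2 (hgp)
open Pool.FUL33 (st_fac bgJ wB wJ jw jmul pull bas_abs)
open Pool.FUL17

variable {m N R J : ℕ}

/-- **The images are combinations of the heights** of affine labels, up to affine functions of the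
base. -/
structure ImR (c : ℕ → Fin m) (N r : ℕ) (n : Fin R → Fin m) (E : Finset (Fin m)) {Y : Type}
    (fr : Y → ℕ → MvPolynomial (Option (Fin m)) ℝ) (al : Y → Fin R → ℕ → ℝ)
    (ga : Y → Fin R → MvPolynomial (Option (Fin m)) ℝ) (ka : Y → Fin R → Fin m → ℝ) : Prop where
  dfr : ∀ y, ∀ l < r, (fr y l).totalDegree ≤ 1
  pfr : ∀ y, ∀ l < r, DepC c (N + l) (fr y l)
  dga : ∀ y j, (ga y j).totalDegree ≤ 1
  pga : ∀ y j, DepC c N (ga y j)
  rel : ∀ y j (b : Option (Fin m) → ℝ), imR n E (ka y) (fun i => b (some i)) j =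
    ∑ l ∈ range r, al y j l * (b (some (c (N + l))) - eval b (fr y l)) + eval b (ga y j)

/-- The coordinates of the window with the images without the places from `N + l₁` on. -/
noncomputable def sgC (B M : ℕ) (φ : Fin N → Fin m) (c : ℕ → Fin m) (l₁ : ℕ)
    (fr : ℕ → MvPolynomial (Option (Fin m)) ℝ) (al : Fin R → ℕ → ℝ)
    (ga : Fin R → MvPolynomial (Option (Fin m)) ℝ) (t₀ : ℝ) (x₀ : Fin m → ℝ) (i₀ : Fin R → ℝ) :
    Option (Fin (N + R)) → MvPolynomial (Option (Fin m)) ℝ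
  | none => C (2 ^ B) * X none - C t₀
  | some i => Fin.addCases (motive := fun _ => MvPolynomial (Option (Fin m)) ℝ)
      (fun i => C (2 ^ B) * X (some (φ i)) - C (x₀ (φ i)))
      (fun j => C (1 / 2 ^ M) * (C (2 ^ B) * (∑ l ∈ range l₁, C (al j l) *
        (X (some (c (N + l))) - fr l) + ga j) - C (i₀ j))) i

section sgc

variable {B M : ℕ} {φ : Fin N → Fin m} {c : ℕ → Fin m} {l₁ : ℕ}
  {fr : ℕ → MvPolynomial (Option (Fin m)) ℝ} {al : Fin R → ℕ → ℝ}
  {ga : Fin R → MvPolynomial (Option (Fin m)) ℝ} {t₀ : ℝ} {x₀ : Fin m → ℝ} {i₀ : Fin R → ℝ}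

theorem sgC_base' (i : Fin N) : sgC B M φ c l₁ fr al ga t₀ x₀ i₀ (some (Fin.castAdd R i)) =
    C (2 ^ B) * X (some (φ i)) - C (x₀ (φ i)) := by
  unfold sgC
  exact Fin.addCases_left (motive := fun _ => MvPolynomial (Option (Fin m)) ℝ) i

theorem sgC_im' (j : Fin R) : sgC B M φ c l₁ fr al ga t₀ x₀ i₀ (some (Fin.natAdd N j)) =
    C (1 / 2 ^ M) * (C (2 ^ B) * (∑ l ∈ range l₁, C (al j l) *
        (X (some (c (N + l))) - fr l) + ga j) - C (i₀ j)) := by
  unfold sgC
  exact Fin.addCases_right (motive := fun _ => MvPolynomial (Option (Fin m)) ℝ) j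

variable (b : Option (Fin m) → ℝ)

theorem sgC_none : eval b (sgC (R := R) B M φ c l₁ fr al ga t₀ x₀ i₀ none) =
    2 ^ B * b none - t₀ := by
  unfold sgC
  rw [map_sub, map_mul, eval_C, eval_C, eval_X]

theorem sgC_base (i : Fin N) : eval b (sgC B M φ c l₁ fr al ga t₀ x₀ i₀
    (some (Fin.castAdd R i))) = 2 ^ B * b (some (φ i)) - x₀ (φ i) := by
  rw [sgC_base', map_sub, map_mul, eval_C, eval_C, eval_X]

theorem sgC_im (j : Fin R) : eval b (sgC B M φ c l₁ fr al ga t₀ x₀ i₀ (some (Fin.natAdd N j))) =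
    1 / 2 ^ M * (2 ^ B * (∑ l ∈ range l₁, al j l * (b (some (c (N + l))) - eval b (fr l)) +
      eval b (ga j)) - i₀ j) := by
  have e : ∑ l ∈ range l₁, eval b (C (al j l) * (X (some (c (N + l))) - fr l)) =
      ∑ l ∈ range l₁, al j l * (b (some (c (N + l))) - eval b (fr l)) :=
    Finset.sum_congr rfl fun l _ => by rw [map_mul, map_sub, eval_C, eval_X]
  rw [sgC_im', map_mul, map_sub, map_mul, map_add, map_sum, eval_C, eval_C, eval_C, e]

theorem deg_sgC (hfr : ∀ l < l₁, (fr l).totalDegree ≤ 1) (hga : ∀ j, (ga j).totalDegree ≤ 1)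
    (o : Option (Fin (N + R))) :
    (sgC B M φ c l₁ fr al ga t₀ x₀ i₀ o).totalDegree ≤ 1 := by
  rcases o with _ | i
  · exact deg_lin B none t₀
  · refine Fin.addCases (fun i => ?_) (fun j => ?_) i
    · rw [sgC_base']
      exact deg_lin B (some (φ i)) _
    · rw [sgC_im']
      refine (totalDegree_mul _ _).trans ?_
      rw [totalDegree_C, zero_add]
      refine (totalDegree_sub _ _).trans (max_le ?_ (by rw [totalDegree_C]; exact Nat.zero_le _))
      refine (totalDegree_mul _ _).trans ?_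
      rw [totalDegree_C, zero_add]
      refine (totalDegree_add _ _).trans (max_le ?_ (hga j))
      refine totalDegree_finsetSum_le fun l hl => ?_
      refine (totalDegree_mul _ _).trans ?_
      rw [totalDegree_C, zero_add]
      exact (totalDegree_sub _ _).trans (max_le (by rw [totalDegree_X])
        (hfr l (mem_range.1 hl)))

/-- The polynomials of the coordinates depend on the earlier places. -/
theorem dep_sgC (hφ : ∀ i : Fin N, φ i = c i) (hfr : ∀ l < l₁, DepC c (N + l) (fr l))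
    (hga : ∀ j, DepC c N (ga j)) {b b' : Option (Fin m) → ℝ} (hn : b none = b' none)
    (hb : ∀ l < N + l₁, b (some (c l)) = b' (some (c l))) (o : Option (Fin (N + R))) :
    eval b (sgC B M φ c l₁ fr al ga t₀ x₀ i₀ o) = eval b' (sgC B M φ c l₁ fr al ga t₀ x₀ i₀ o) := by
  rcases o with _ | i
  · rw [sgC_none, sgC_none, hn]
  · refine Fin.addCases (fun i => ?_) (fun j => ?_) i
    · rw [sgC_base, sgC_base, hφ, hb i (by have := i.2; omega)]
    · rw [sgC_im, sgC_im, hga j b b' hn fun l hl => hb l (by omega)]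
      congr 3
      congr 1
      refine Finset.sum_congr rfl fun l hl => ?_
      have hl' := mem_range.1 hl
      rw [hb (N + l) (by omega), hfr l hl' b b' hn fun i hi => hb i (by omega)]

end sgc

section cv

variable {F : Fam m J} {v : Vz m} {φ : Fin N → Fin m} {n : Fin R → Fin m} {E : Finset (Fin m)}
  {M : ℕ → ℕ} {ka : ∀ (J : ℕ) (F : Fam m J), v.κ J F → Fin R → Fin m → ℝ} {q : ℕ}
  {A : F.Ω → Prop} {c : ℕ → Fin m} {r : ℕ}
  {fr : ∀ (J : ℕ) (F : Fam m J), v.κ J F → ℕ → MvPolynomial (Option (Fin m)) ℝ}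
  {al : ∀ (J : ℕ) (F : Fam m J), v.κ J F → Fin R → ℕ → ℝ}
  {ga : ∀ (J : ℕ) (F : Fam m J), v.κ J F → Fin R → MvPolynomial (Option (Fin m)) ℝ}

/-- The images in the window. -/
theorem StR.xim (h : StR F v E (ka J F) (M J) q A) {ω : F.Ω} (hω : A ω) (j : Fin R) :
    (winI v (nwR v φ n E M ka) F).x ω (Fin.natAdd N j) =
      1 / 2 ^ M J * (2 ^ v.B J * imR n E (ka J F (v.y J F ω)) (F.x ω) j -
        imR n E (ka J F (v.y J F ω)) (fun l => (fl (v.B J) (F.x1 (v.B J) ω) l : ℝ)) j) := by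
  rw [h.xl hω]
  obtain ⟨κ, hκ⟩ : ∃ κ, κ = ka J F (v.y J F ω) := ⟨_, rfl⟩
  rw [← hκ]
  unfold imR
  have hwx : ∀ k, (v.win F).x ω k = 2 ^ v.B J * F.x ω k -
    (fl (v.B J) (F.x1 (v.B J) ω) k : ℝ) := fun k => by rw [win_x]
  simp only [hwx]
  have e4 : ∑ l ∈ E, κ j l / 2 ^ M J * (2 ^ v.B J * F.x ω l -
      (fl (v.B J) (F.x1 (v.B J) ω) l : ℝ)) = 1 / 2 ^ M J * (2 ^ v.B J * ∑ l ∈ E, κ j l * F.x ω l -
      ∑ l ∈ E, κ j l * (fl (v.B J) (F.x1 (v.B J) ω) l : ℝ)) := by
    rw [Finset.mul_sum (s := E) (a := (2 : ℝ) ^ v.B J), ← Finset.sum_sub_distrib, Finset.mul_sum]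
    exact Finset.sum_congr rfl fun l _ => by ring
  rw [e4]
  ring

/-- The polynomials of the coordinates of the window. -/
noncomputable def sgW (F : Fam m J) (v : Vz m) (φ : Fin N → Fin m) (n : Fin R → Fin m)
    (E : Finset (Fin m)) (M : ℕ) (ka : v.κ J F → Fin R → Fin m → ℝ) (c : ℕ → Fin m) (l₁ : ℕ)
    (fr : v.κ J F → ℕ → MvPolynomial (Option (Fin m)) ℝ) (al : v.κ J F → Fin R → ℕ → ℝ)
    (ga : v.κ J F → Fin R → MvPolynomial (Option (Fin m)) ℝ) (y : (v.win F).ζ) :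
    Option (Fin (N + R)) → MvPolynomial (Option (Fin m)) ℝ :=
  sgC (v.B J) M φ c l₁ (fr y.1) (al y.1) (ga y.1) (y.2.1.1 : ℝ) (fun i => (y.2.1.2 i : ℝ))
    (imR n E (ka y.1) (fun l => (y.2.1.2 l : ℝ)))

/-- **From a label of an image to a label of a place.** -/
theorem conv (h : StR F v E (ka J F) (M J) q A)
    (hI : ImR c N r n E (fr J F) (al J F) (ga J F) (ka J F)) (hφ : ∀ i : Fin N, φ i = c i)
    {B : F.Ω → Prop} (hB : Sub B A)
    (hdet : ∀ ω ω', B ω → B ω' → ptr F J ω = ptr F J ω' →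
      ptr (winI v (nwR v φ n E M ka) F) (J - v.B J) ω =
        ptr (winI v (nwR v φ n E M ka) F) (J - v.B J) ω') (j : Fin R)
    {I' : Finset (Fin (N + R))} {l₁ : ℕ} (hl₁ : l₁ < r)
    {K' w' W P' P₂ : ℕ} (hW : v.B J + w' ≤ W) (hWJ : W ≤ J) {V : Type}
    {z : PtT (winI v (nwR v φ n E M ka) F) → V} {z' : LnT (winI v (nwR v φ n E M ka) F) → V}
    {G : V → MvPolynomial (Option (Fin (N + R))) ℝ}
    (hL : LbP (winI v (nwR v φ n E M ka) F) I' (Fin.natAdd N j) K' (J - v.B J) w' P' A z z' G)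
    {err : ℝ} (herr : ∀ ω, B ω → |eval (bt (winI v (nwR v φ n E M ka) F) ω)
        (G (z' (slam (winI v (nwR v φ n E M ka) F) w' ω))) -
      eval (fun o => eval (bt F ω) (sgW F v φ n E (M J) (ka J F) c l₁ (fr J F) (al J F) (ga J F)
        ((v.win F).Z ω) o)) (G (z' (slam (winI v (nwR v φ n E M ka) F) w' ω)))| ≤ err)
    (hnum : ∀ ω, B ω → (2 : ℝ) ^ P₂ * (2 ^ M J / 2 ^ v.B J * (1 / 2 ^ P' + err) +
      ∑ l ∈ Finset.Ico (l₁ + 1) r, |al J F (v.y J F ω) j l| *
        |hgp F (c (N + l)) (fr J F (v.y J F ω) l) ω|) ≤ |al J F (v.y J F ω) j l₁|)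
    (hpos : ∀ ω, B ω → al J F (v.y J F ω) j l₁ ≠ 0) :
    LbR 0 F ((range (N + l₁)).image c) (c (N + l₁)) (K' + 1) W P₂ B := by
  classical
  obtain ⟨yp, yl, hy⟩ := st_fac hdet hW hWJ (fun ω hω => hL.cls ω (hB ω hω))
  obtain ⟨σ, hσ⟩ : ∃ σ : (v.win F).ζ → Option (Fin (N + R)) → MvPolynomial (Option (Fin m)) ℝ,
    σ = sgW F v φ n E (M J) (ka J F) c l₁ (fr J F) (al J F) (ga J F) := ⟨_, rfl⟩
  obtain ⟨i₀, hi₀⟩ : ∃ i₀ : (v.win F).ζ → ℝ, i₀ = fun y =>
    imR n E (ka J F y.1) (fun l => (y.2.1.2 l : ℝ)) j := ⟨_, rfl⟩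
  obtain ⟨Gf, hGf⟩ : ∃ Gf : Option (V × (v.win F).ζ) → MvPolynomial (Option (Fin m)) ℝ,
    Gf = fun o => match o with
    | none => 0
    | some u => fr J F u.2.1 l₁ + C (1 / al J F u.2.1 j l₁) *
        (C (2 ^ M J / 2 ^ v.B J) * aeval (σ u.2) (G u.1) + C (i₀ u.2 / 2 ^ v.B J) -
          (∑ l ∈ range l₁, C (al J F u.2.1 j l) * (X (some (c (N + l))) - fr J F u.2.1 l) +
            ga J F u.2.1 j)) := ⟨_, rfl⟩
  have hev : ∀ (u : V × (v.win F).ζ) (b : Option (Fin m) → ℝ), eval b (Gf (some u)) =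
      eval b (fr J F u.2.1 l₁) + 1 / al J F u.2.1 j l₁ *
        (2 ^ M J / 2 ^ v.B J * eval (fun o => eval b (σ u.2 o)) (G u.1) + i₀ u.2 / 2 ^ v.B J -
          (∑ l ∈ range l₁, al J F u.2.1 j l * (b (some (c (N + l))) - eval b (fr J F u.2.1 l)) +
            eval b (ga J F u.2.1 j))) := by
    intro u b
    rw [hGf]
    show eval b (fr J F u.2.1 l₁ + C (1 / al J F u.2.1 j l₁) *
        (C (2 ^ M J / 2 ^ v.B J) * aeval (σ u.2) (G u.1) + C (i₀ u.2 / 2 ^ v.B J) -
          (∑ l ∈ range l₁, C (al J F u.2.1 j l) * (X (some (c (N + l))) - fr J F u.2.1 l) +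
            ga J F u.2.1 j))) = _
    rw [map_add, map_mul, map_sub, map_add, map_mul, map_add, map_sum, eval_C, eval_C, eval_C,
      eval_aevalσ]
    congr 3
    congr 1
    refine Finset.sum_congr rfl fun l _ => ?_
    rw [map_mul, map_sub, eval_C, eval_X]
  refine ⟨Option (V × (v.win F).ζ), yp, yl, Gf, ⟨fun o => ?_, fun o b b' hn hb => ?_,
    fun ω hω => ?_, fun ω hω b hb => ?_⟩⟩
  · rcases o with _ | u
    · rw [hGf]
      show (0 : MvPolynomial (Option (Fin m)) ℝ).totalDegree ≤ _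
      rw [totalDegree_zero]
      exact Nat.zero_le _
    · rw [hGf]
      show (fr J F u.2.1 l₁ + C (1 / al J F u.2.1 j l₁) *
        (C (2 ^ M J / 2 ^ v.B J) * aeval (σ u.2) (G u.1) + C (i₀ u.2 / 2 ^ v.B J) -
          (∑ l ∈ range l₁, C (al J F u.2.1 j l) * (X (some (c (N + l))) - fr J F u.2.1 l) +
            ga J F u.2.1 j))).totalDegree ≤ _
      refine (totalDegree_add _ _).trans (max_le ((hI.dfr _ _ hl₁).trans (by omega)) ?_)
      refine (totalDegree_mul _ _).trans ?_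
      rw [totalDegree_C, zero_add]
      refine (totalDegree_sub _ _).trans (max_le ?_ ?_)
      · refine (totalDegree_add _ _).trans (max_le ?_ (by rw [totalDegree_C]; exact Nat.zero_le _))
        refine (totalDegree_mul _ _).trans ?_
        rw [totalDegree_C, zero_add]
        have e1 : (aeval (σ u.2) (G u.1)).totalDegree ≤ 1 * K' := by
          refine totalDegree_aevalσ (fun o => ?_) (hL.deg _)
          rw [hσ]
          exact deg_sgC (fun l hl => hI.dfr _ _ (by omega)) (fun j => hI.dga _ _) o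
        omega
      · refine (totalDegree_add _ _).trans (max_le ?_ ((hI.dga _ _).trans (by omega)))
        refine totalDegree_finsetSum_le fun l hl => ?_
        have hl' := mem_range.1 hl
        refine (totalDegree_mul _ _).trans ?_
        rw [totalDegree_C, zero_add]
        exact (totalDegree_sub _ _).trans (max_le (by rw [totalDegree_X]; omega)
          ((hI.dfr _ _ (by omega)).trans (by omega)))
  · rcases o with _ | u
    · rw [hGf]
      show eval b (0 : MvPolynomial (Option (Fin m)) ℝ) = eval b' 0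
      rw [map_zero, map_zero]
    · have hb' : ∀ l < N + l₁, b (some (c l)) = b' (some (c l)) := fun l hl =>
        hb (c l) (mem_image_of_mem _ (mem_range.2 hl))
      rw [hev, hev, hI.pfr _ l₁ hl₁ b b' hn hb', hI.pga _ j b b' hn fun l hl => hb' l (by omega)]
      have e1 : (fun o => eval b (σ u.2 o)) = fun o => eval b' (σ u.2 o) := by
        funext o
        rw [hσ]
        exact dep_sgC hφ (fun l hl => hI.pfr _ l (by omega)) (fun j => hI.pga _ j) hn hb' o
      have e2 : ∑ l ∈ range l₁, al J F u.2.1 j l *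
          (b (some (c (N + l))) - eval b (fr J F u.2.1 l)) = ∑ l ∈ range l₁, al J F u.2.1 j l *
          (b' (some (c (N + l))) - eval b' (fr J F u.2.1 l)) := by
        refine Finset.sum_congr rfl fun l hl => ?_
        have hl' := mem_range.1 hl
        rw [hb' (N + l) (by omega), hI.pfr _ l (by omega) b b' hn fun i hi => hb' i (by omega)]
      rw [e1, e2]
  · rw [(hy ω hω).1, (hy ω hω).2]
  · have hA := hB ω hω
    have hbb : b = bt F ω := by
      funext o
      have h1 := hb o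
      rw [zero_div] at h1
      have h2 := abs_nonpos_iff.1 h1
      linarith
    rw [hbb, (hy ω hω).2, hev]
    have h1 := hL.pos ω hA
    have h2 := herr ω hω
    have h3 := hnum ω hω
    have h4 := hpos ω hω
    have h5 := hI.rel (v.y J F ω) j (bt F ω)
    rw [StR.xim h hA] at h1
    have e0 : (fun i => bt F ω (some i)) = F.x ω := rfl
    rw [e0] at h5
    show |F.x ω (c (N + l₁)) - (eval (bt F ω) (fr J F (v.y J F ω) l₁) +
      1 / al J F (v.y J F ω) j l₁ * (2 ^ M J / 2 ^ v.B J *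
        eval (fun o => eval (bt F ω) (σ ((v.win F).Z ω) o))
          (G (z' (slam (winI v (nwR v φ n E M ka) F) w' ω))) +
        i₀ ((v.win F).Z ω) / 2 ^ v.B J -
        (∑ l ∈ range l₁, al J F (v.y J F ω) j l * (F.x ω (c (N + l)) -
          eval (bt F ω) (fr J F (v.y J F ω) l)) + eval (bt F ω) (ga J F (v.y J F ω) j))))| ≤
        1 / 2 ^ P₂
    rw [hσ]
    obtain ⟨g, hg⟩ : ∃ g, g = eval (fun o => eval (bt F ω) (sgW F v φ n E (M J) (ka J F) c l₁
      (fr J F) (al J F) (ga J F) ((v.win F).Z ω) o))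
      (G (z' (slam (winI v (nwR v φ n E M ka) F) w' ω))) := ⟨_, rfl⟩
    obtain ⟨g₁, hg₁⟩ : ∃ g₁, g₁ = eval (bt (winI v (nwR v φ n E M ka) F) ω)
      (G (z' (slam (winI v (nwR v φ n E M ka) F) w' ω))) := ⟨_, rfl⟩
    have hi : i₀ ((v.win F).Z ω) = imR n E (ka J F (v.y J F ω))
        (fun l => (fl (v.B J) (F.x1 (v.B J) ω) l : ℝ)) j := by
      rw [hi₀]
      rfl
    rw [← hg] at h2 ⊢
    rw [← hg₁] at h1 h2
    rw [← hi] at h1
    obtain ⟨i₁, hi₁⟩ : ∃ i₁, i₁ = i₀ ((v.win F).Z ω) := ⟨_, rfl⟩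
    rw [← hi₁] at h1 ⊢
    obtain ⟨y, hyy⟩ : ∃ y, y = v.y J F ω := ⟨_, rfl⟩
    rw [← hyy] at h1 h3 h4 h5 ⊢
    obtain ⟨xi, hxi⟩ : ∃ xi, xi = imR n E (ka J F y) (F.x ω) j := ⟨_, rfl⟩
    rw [← hxi] at h1 h5
    obtain ⟨a, ha⟩ : ∃ a, a = al J F y j l₁ := ⟨_, rfl⟩
    have hXd : ∀ l, hgp F (c (N + l)) (fr J F y l) ω = F.x ω (c (N + l)) -
      eval (bt F ω) (fr J F y l) := fun l => rfl
    obtain ⟨X', hX'⟩ : ∃ X' : ℕ → ℝ, X' = fun l => F.x ω (c (N + l)) -
      eval (bt F ω) (fr J F y l) := ⟨_, rfl⟩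
    have hX1 : ∀ l, F.x ω (c (N + l)) - eval (bt F ω) (fr J F y l) = X' l := fun l => by
      rw [hX']
    have hX2 : ∀ l, bt F ω (some (c (N + l))) - eval (bt F ω) (fr J F y l) = X' l := fun l => by
      rw [hX']
      rfl
    simp only [hXd, hX1] at h3
    simp only [hX2] at h5
    simp only [hX1]
    rw [← ha] at h3 h4 ⊢
    -- the sum
    have hsum : ∑ l ∈ range r, al J F y j l * X' l = ∑ l ∈ range l₁, al J F y j l * X' l +
        a * X' l₁ + ∑ l ∈ Finset.Ico (l₁ + 1) r, al J F y j l * X' l := by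
      rw [ha, ← Finset.sum_range_succ, Finset.range_eq_Ico, Finset.range_eq_Ico,
        Finset.sum_Ico_consecutive _ (Nat.zero_le _) (by omega)]
    rw [hsum] at h5
    obtain ⟨s₀, hs₀⟩ : ∃ s₀, s₀ = ∑ l ∈ range l₁, al J F y j l * X' l := ⟨_, rfl⟩
    obtain ⟨s₁, hs₁⟩ : ∃ s₁, s₁ = ∑ l ∈ Finset.Ico (l₁ + 1) r, al J F y j l * X' l := ⟨_, rfl⟩
    have hs₁' : |s₁| ≤ ∑ l ∈ Finset.Ico (l₁ + 1) r, |al J F y j l| * |X' l| := by
      rw [hs₁]
      refine (Finset.abs_sum_le_sum_abs _ _).trans (le_of_eq ?_)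
      exact Finset.sum_congr rfl fun l _ => abs_mul _ _
    obtain ⟨s₂, hs₂⟩ : ∃ s₂, s₂ = ∑ l ∈ Finset.Ico (l₁ + 1) r, |al J F y j l| * |X' l| := ⟨_, rfl⟩
    rw [← hs₂] at hs₁' h3
    rw [← hs₀, ← hs₁] at h5
    rw [← hs₀]
    obtain ⟨gg, hgg⟩ : ∃ gg, gg = eval (bt F ω) (ga J F y j) := ⟨_, rfl⟩
    rw [← hgg] at h5 ⊢
    have hx0 : F.x ω (c (N + l₁)) = X' l₁ + eval (bt F ω) (fr J F y l₁) := by
      rw [hX']
      ring
    rw [hx0]
    have pM : (0 : ℝ) < 2 ^ M J := by positivity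
    have pB : (0 : ℝ) < 2 ^ v.B J := by positivity
    have pP : (0 : ℝ) < 2 ^ P₂ := by positivity
    have ea : 1 / a * a = 1 := by
      rw [one_div, inv_mul_cancel₀ h4]
    have e1 : X' l₁ + eval (bt F ω) (fr J F y l₁) - (eval (bt F ω) (fr J F y l₁) + 1 / a *
        (2 ^ M J / 2 ^ v.B J * g + i₁ / 2 ^ v.B J - (s₀ + gg))) =
        1 / a * (2 ^ M J / 2 ^ v.B J * (1 / 2 ^ M J * (2 ^ v.B J * xi - i₁) - g) - s₁) := by
      have e2 : X' l₁ = 1 / a * (a * X' l₁) := by rw [← mul_assoc, ea, one_mul]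
      have e3 : 2 ^ M J / 2 ^ v.B J * (1 / 2 ^ M J * (2 ^ v.B J * xi - i₁) - g) =
          xi - i₁ / 2 ^ v.B J - 2 ^ M J / 2 ^ v.B J * g := by
        field_simp
      rw [e3, h5]
      rw [e2]
      have e4 : a * (1 / a * (a * X' l₁)) = a * X' l₁ := by
        rw [← mul_assoc, mul_comm a (1 / a), ea, one_mul]
      rw [e4]
      ring
    rw [e1, abs_mul, abs_div, abs_one]
    have pa : 0 < |a| := abs_pos.2 h4
    have h6 : |2 ^ M J / 2 ^ v.B J * (1 / 2 ^ M J * (2 ^ v.B J * xi - i₁) - g) - s₁| ≤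
        2 ^ M J / 2 ^ v.B J * (1 / 2 ^ P' + err) + s₂ := by
      refine (abs_sub _ _).trans (add_le_add ?_ hs₁')
      rw [abs_mul, abs_of_pos (by positivity : (0 : ℝ) < 2 ^ M J / 2 ^ v.B J)]
      refine mul_le_mul_of_nonneg_left ?_ (by positivity)
      have e5 : 1 / 2 ^ M J * (2 ^ v.B J * xi - i₁) - g =
        (1 / 2 ^ M J * (2 ^ v.B J * xi - i₁) - g₁) + (g₁ - g) := by ring
      rw [e5]
      exact (abs_add_le _ _).trans (add_le_add h1 h2)
    rw [div_mul_eq_mul_div, one_mul, div_le_div_iff₀ pa pP, one_mul]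
    calc _ ≤ (2 ^ M J / 2 ^ v.B J * (1 / 2 ^ P' + err) + s₂) * 2 ^ P₂ :=
          mul_le_mul_of_nonneg_right h6 pP.le
      _ ≤ |a| := by rw [mul_comm]; exact h3

end cv

end Pool.IMN17
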