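import Pool.Agent.H17.IMN.Cl3

/-!
# The straight images of the rows of the heights

`rwP`: the combination of the heights as an affine polynomial; `kaD`: the slopes of its target part;
`gcD`: the coefficients of its base part. `imr_of`: the relation.
-/

set_option autoImplicit false

namespace Pool.IMN17

open Finset Real MvPolynomial
open Pool.Agent.H49.Ent Pool.Agent.H32.Dense Pool.STK Pool.KA Pool.KSAT Pool.K2S Pool.PB Pool.S6C
open Pool.GEN Pool.REX Pool.REX83 Pool.NFT33 Pool.TOP
open Pool.D2F2 (hgp)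
open Pool.FUL33 (st_fac bgJ wB wJ jw jmul pull bas_abs)
open Pool.FUL17

variable {m N R J : ℕ}

/-- The coefficients at the other places vanish. -/
theorem coe_zero {c : ℕ → Fin m} {n : ℕ} {G : MvPolynomial (Option (Fin m)) ℝ}
    (hd : G.totalDegree ≤ 1) (hG : DepC c n G) {i : Fin m} (hi : ∀ l < n, c l ≠ i) :
    coeff (Finsupp.single (some i) 1) G = 0 := by
  classical
  obtain ⟨b, hb⟩ : ∃ b : Option (Fin m) → ℝ, b = fun o => if o = some i then 1 else 0 := ⟨_, rfl⟩
  have h1 := hG b 0 (by rw [hb]; simp) (fun l hl => by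
    rw [hb]
    have : (some (c l) : Option (Fin m)) ≠ some i := fun h => hi l hl (Option.some.inj h)
    simp [this])
  rw [Pool.FVL91.eval_one hd, Pool.FVL91.eval_one hd] at h1
  have e1 : ∑ o, coeff (Finsupp.single o 1) G * (0 : Option (Fin m) → ℝ) o = 0 := by
    simp
  have e2 : ∑ o, coeff (Finsupp.single o 1) G * b o = coeff (Finsupp.single (some i) 1) G := by
    rw [Finset.sum_eq_single (some i)]
    · rw [hb]
      simp
    · intro o _ ho
      rw [hb]
      simp [ho]
    · intro h
      exact absurd (mem_univ _) h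
  rw [e1, e2] at h1
  linarith

/-- The combination of the heights. -/
noncomputable def rwP (c : ℕ → Fin m) (N r : ℕ) (fr : ℕ → MvPolynomial (Option (Fin m)) ℝ)
    (al : ℕ → ℝ) : MvPolynomial (Option (Fin m)) ℝ :=
  ∑ l ∈ range r, C (al l) * (X (some (c (N + l))) - fr l)

/-- The target places. -/
def tgE (c : ℕ → Fin m) (N r : ℕ) : Finset (Fin m) := (range r).image fun l => c (N + l)

open Classical in
/-- The slopes of the straight images. -/
noncomputable def kaD (c : ℕ → Fin m) (N r : ℕ) (fr : ℕ → MvPolynomial (Option (Fin m)) ℝ)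
    (al : Fin R → ℕ → ℝ) (j : Fin R) (i : Fin m) : ℝ :=
  (if i = c N then 1 else 0) - coeff (Finsupp.single (some i) 1) (rwP c N r fr (al j))

/-- The constant coefficients of the base part. -/
noncomputable def g0D (c : ℕ → Fin m) (N r : ℕ) (fr : ℕ → MvPolynomial (Option (Fin m)) ℝ)
    (al : Fin R → ℕ → ℝ) (j : Fin R) : ℝ := -coeff 0 (rwP c N r fr (al j))

/-- The coefficients of the base part. -/
noncomputable def gcD (c : ℕ → Fin m) (N r : ℕ) (fr : ℕ → MvPolynomial (Option (Fin m)) ℝ)
    (al : Fin R → ℕ → ℝ) (j : Fin R) : Option (Fin N) → ℝ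
  | none => -coeff (Finsupp.single none 1) (rwP c N r fr (al j))
  | some i => -coeff (Finsupp.single (some (c i)) 1) (rwP c N r fr (al j))

/-- The base part. -/
noncomputable def gaD (c : ℕ → Fin m) (N r : ℕ) (fr : ℕ → MvPolynomial (Option (Fin m)) ℝ)
    (al : Fin R → ℕ → ℝ) (j : Fin R) : MvPolynomial (Option (Fin m)) ℝ :=
  C (g0D c N r fr al j) + (C (gcD c N r fr al j none) * X none +
    ∑ i : Fin N, C (gcD c N r fr al j (some i)) * X (some (c i)))

section

variable {c : ℕ → Fin m} {r : ℕ} {fr : ℕ → MvPolynomial (Option (Fin m)) ℝ} {al : Fin R → ℕ → ℝ}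

theorem eval_gaD (j : Fin R) (b : Option (Fin m) → ℝ) : eval b (gaD c N r fr al j) =
    g0D c N r fr al j + (gcD c N r fr al j none * b none +
      ∑ i : Fin N, gcD c N r fr al j (some i) * b (some (c i))) := by
  unfold gaD
  rw [map_add, map_add, map_mul, eval_C, eval_C, eval_X, map_sum]
  congr 2
  exact Finset.sum_congr rfl fun i _ => by rw [map_mul, eval_C, eval_X]

theorem deg_gaD (j : Fin R) : (gaD c N r fr al j).totalDegree ≤ 1 := by
  unfold gaD
  refine (totalDegree_add _ _).trans (max_le (by rw [totalDegree_C]; exact Nat.zero_le _) ?_)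
  refine (totalDegree_add _ _).trans (max_le ?_ ?_)
  · refine (totalDegree_mul _ _).trans ?_
    rw [totalDegree_C, totalDegree_X]
  · refine totalDegree_finsetSum_le fun o _ => ?_
    refine (totalDegree_mul _ _).trans ?_
    rw [totalDegree_C, totalDegree_X]

theorem dep_gaD (j : Fin R) : DepC c N (gaD c N r fr al j) := by
  intro b b' hn hb
  rw [eval_gaD, eval_gaD, hn]
  congr 2
  exact Finset.sum_congr rfl fun i _ => by rw [hb i i.2]

theorem eval_rwP (a : ℕ → ℝ) (b : Option (Fin m) → ℝ) : eval b (rwP c N r fr a) =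
    ∑ l ∈ range r, a l * (b (some (c (N + l))) - eval b (fr l)) := by
  unfold rwP
  rw [map_sum]
  exact Finset.sum_congr rfl fun l _ => by rw [map_mul, map_sub, eval_C, eval_X]

theorem deg_rwP (hfr : ∀ l < r, (fr l).totalDegree ≤ 1) (a : ℕ → ℝ) :
    (rwP c N r fr a).totalDegree ≤ 1 := by
  unfold rwP
  refine totalDegree_finsetSum_le fun l hl => ?_
  refine (totalDegree_mul _ _).trans ?_
  rw [totalDegree_C, zero_add]
  exact (totalDegree_sub _ _).trans (max_le (by rw [totalDegree_X]) (hfr l (mem_range.1 hl)))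

theorem dep_rwP (hfr : ∀ l < r, DepC c (N + l) (fr l)) (a : ℕ → ℝ) :
    DepC c (N + r) (rwP c N r fr a) := by
  intro b b' hn hb
  rw [eval_rwP, eval_rwP]
  refine Finset.sum_congr rfl fun l hl => ?_
  have hl' := mem_range.1 hl
  rw [hb (N + l) (by omega), hfr l hl' b b' hn fun i hi => hb i (by omega)]

/-- The coefficients of the combination. -/
theorem coe_rwP (a : ℕ → ℝ) (o : Option (Fin m)) :
    coeff (Finsupp.single o 1) (rwP c N r fr a) = ∑ l ∈ range r, a l *
      ((if some (c (N + l)) = o then 1 else 0) - coeff (Finsupp.single o 1) (fr l)) := by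
  classical
  unfold rwP
  rw [coeff_sum]
  refine Finset.sum_congr rfl fun l _ => ?_
  rw [coeff_C_mul, coeff_sub]
  congr 2
  rw [coeff_X']
  by_cases h : some (c (N + l)) = o
  · rw [h]
    simp
  · have h' : (Finsupp.single (some (c (N + l))) 1 : Option (Fin m) →₀ ℕ) ≠
        Finsupp.single o 1 := fun hc => h (by
        have := Finsupp.single_left_injective (one_ne_zero) hc
        exact this)
    rw [if_neg h', if_neg h]

/-- **The relation.** -/
theorem rel_of (hc : Set.InjOn c (Set.Iio (N + r))) (hr : 0 < r)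
    (hfr : ∀ l < r, (fr l).totalDegree ≤ 1) (hdp : ∀ l < r, DepC c (N + l) (fr l)) (j : Fin R)
    (b : Option (Fin m) → ℝ) :
    imR (fun _ : Fin R => c N) (tgE c N r) (kaD c N r fr al) (fun i => b (some i)) j =
      ∑ l ∈ range r, al j l * (b (some (c (N + l))) - eval b (fr l)) +
        eval b (gaD c N r fr al j) := by
  classical
  obtain ⟨H, hH⟩ : ∃ H, H = rwP c N r fr (al j) := ⟨_, rfl⟩
  have hd : H.totalDegree ≤ 1 := by rw [hH]; exact deg_rwP hfr _
  have hD : DepC c (N + r) H := by rw [hH]; exact dep_rwP hdp _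
  have h1 : eval b H = coeff 0 H + ∑ o, coeff (Finsupp.single o 1) H * b o :=
    Pool.FVL91.eval_one hd b
  rw [← eval_rwP, eval_gaD]
  unfold imR kaD g0D gcD
  rw [← hH, h1, Fintype.sum_option]
  -- the sum over the targets
  have e1 : ∑ l ∈ tgE c N r, ((if l = c N then (1 : ℝ) else 0) -
      coeff (Finsupp.single (some l) 1) H) * b (some l) =
      b (some (c N)) - ∑ l ∈ tgE c N r, coeff (Finsupp.single (some l) 1) H * b (some l) := by
    simp only [sub_mul, ite_mul, one_mul, zero_mul]
    rw [Finset.sum_sub_distrib, Finset.sum_ite_eq']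
    have h2 : c N ∈ tgE c N r := by
      unfold tgE
      exact mem_image.2 ⟨0, mem_range.2 hr, by rw [add_zero]⟩
    rw [if_pos h2]
  rw [e1]
  -- the sum over all places
  have e2 : ∑ i : Fin m, coeff (Finsupp.single (some i) 1) H * b (some i) =
      ∑ i ∈ tgE c N r, coeff (Finsupp.single (some i) 1) H * b (some i) +
      ∑ i : Fin N, coeff (Finsupp.single (some (c i)) 1) H * b (some (c i)) := by
    have e3 : ∑ i : Fin N, coeff (Finsupp.single (some (c i)) 1) H * b (some (c i)) =
        ∑ i ∈ univ.image (fun i : Fin N => c i),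
          coeff (Finsupp.single (some i) 1) H * b (some i) := by
      rw [Finset.sum_image]
      intro i _ i' _ h2
      have h3 := hc (show (i : ℕ) < N + r by have := i.2; omega)
        (show (i' : ℕ) < N + r by have := i'.2; omega) h2
      exact Fin.ext h3
    rw [e3, ← Finset.sum_union]
    · symm
      refine Finset.sum_subset (Finset.subset_univ _) fun i _ hi => ?_
      rw [coe_zero hd hD fun l hl h2 => ?_, zero_mul]
      refine hi ?_
      rcases lt_or_ge l N with h3 | h3
      · exact mem_union_right _ (mem_image.2 ⟨⟨l, h3⟩, mem_univ _, h2⟩)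
      · refine mem_union_left _ ?_
        unfold tgE
        exact mem_image.2 ⟨l - N, mem_range.2 (by omega), by rw [← h2]; congr 1; omega⟩
    · rw [Finset.disjoint_left]
      intro i hi hi'
      unfold tgE at hi
      obtain ⟨l, hl, h2⟩ := mem_image.1 hi
      obtain ⟨i', -, h3⟩ := mem_image.1 hi'
      have hl' := mem_range.1 hl
      have h4 := hc (show N + l < N + r by omega)
        (show (i' : ℕ) < N + r by have := i'.2; omega) (h2.trans h3.symm)
      have := i'.2
      omega
  rw [e2]
  have e4 : ∑ i : Fin N, -coeff (Finsupp.single (some (c i)) 1) H * b (some (c i)) =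
      - ∑ i : Fin N, coeff (Finsupp.single (some (c i)) 1) H * b (some (c i)) := by
    rw [← Finset.sum_neg_distrib]
    exact Finset.sum_congr rfl fun i _ => by ring
  rw [e4]
  ring

end

/-- **The straight images of the rows.** -/
theorem imr_of {Y : Type} {c : ℕ → Fin m} {r : ℕ}
    {fr : Y → ℕ → MvPolynomial (Option (Fin m)) ℝ} {al : Y → Fin R → ℕ → ℝ}
    (hc : Set.InjOn c (Set.Iio (N + r))) (hr : 0 < r)
    (hfr : ∀ y, ∀ l < r, (fr y l).totalDegree ≤ 1)
    (hdp : ∀ y, ∀ l < r, DepC c (N + l) (fr y l)) :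
    ImR c N r (fun _ : Fin R => c N) (tgE c N r) fr al
      (fun y => gaD c N r (fr y) (al y)) (fun y => kaD c N r (fr y) (al y)) :=
  ⟨hfr, hdp, fun y j => deg_gaD j, fun y j => dep_gaD j, fun y j b =>
    rel_of hc hr (hfr y) (hdp y) j b⟩

/-- The sizes of the coefficients of the combinations. -/
theorem coe_le {c : ℕ → Fin m} {r : ℕ} {fr : ℕ → MvPolynomial (Option (Fin m)) ℝ} {a : ℕ → ℝ}
    {y : ℝ} (hy : 0 ≤ y) {o : Option (Fin m)}
    (h : ∀ l < r, |a l| * (1 + |coeff (Finsupp.single o 1) (fr l)|) ≤ y) :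
    |coeff (Finsupp.single o 1) (rwP c N r fr a)| ≤ r * y := by
  classical
  rw [coe_rwP]
  refine (Finset.abs_sum_le_sum_abs _ _).trans ?_
  calc _ ≤ ∑ _l ∈ range r, y := Finset.sum_le_sum fun l hl => by
        rw [abs_mul]
        refine le_trans (mul_le_mul_of_nonneg_left ?_ (abs_nonneg _)) (h l (mem_range.1 hl))
        refine (abs_sub _ _).trans (add_le_add_left ?_ _)
        split_ifs
        · rw [abs_one]
        · rw [abs_zero]
          norm_num
    _ = r * y := by rw [Finset.sum_const, card_range, nsmul_eq_mul]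

end Pool.IMN17
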