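import Pool.Agent.H17.IMN.Sub3

/-!
# The echelon form of two rows
-/

set_option autoImplicit false

namespace Pool.IMN17

open Finset Real

/-- The last place of a property. -/
theorem last_p (r : ℕ) (P : ℕ → Prop) (h : ∃ l < r, P l) :
    ∃ l₁ < r, P l₁ ∧ ∀ l, l₁ < l → l < r → ¬ P l := by
  classical
  induction r with
  | zero =>
    obtain ⟨l, hl, -⟩ := h
    exact absurd hl (Nat.not_lt_zero l)
  | succ n ih =>
    by_cases hn : P n
    · exact ⟨n, Nat.lt_succ_self n, hn, fun l h1 h2 => absurd h2 (by omega)⟩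
    · have h1 : ∃ l < n, P l := by
        obtain ⟨l, hl, hP⟩ := h
        refine ⟨l, ?_, hP⟩
        rcases Nat.lt_succ_iff_lt_or_eq.1 hl with h2 | h2
        · exact h2
        · rw [h2] at hP
          exact absurd hP hn
      obtain ⟨l₁, h2, h3, h4⟩ := ih h1
      refine ⟨l₁, by omega, h3, fun l h5 h6 => ?_⟩
      rcases Nat.lt_succ_iff_lt_or_eq.1 h6 with h7 | h7
      · exact h4 l h5 h7
      · rw [h7]
        exact hn

/-- **One row.** -/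
theorem ech1 {J r : ℕ} {κ : ℝ} (hκ : 0 ≤ κ) {a : ℕ → ℝ}
    (hb : ∃ l < r, (2 : ℝ) ^ (-(3 * κ * J)) ≤ |a l|) :
    ∃ l₁ < r, (2 : ℝ) ^ (-(nua κ l₁ * J)) ≤ |a l₁| ∧
      ∀ l, l₁ < l → l < r → |a l| ≤ (2 : ℝ) ^ (-(nua κ l * J)) := by
  have hJ : (0 : ℝ) ≤ J := Nat.cast_nonneg J
  obtain ⟨l₁, h1, h2, h3⟩ := last_p r (fun l => (2 : ℝ) ^ (-(nua κ l * J)) ≤ |a l|) (by
    obtain ⟨l, hl, h⟩ := hb
    refine ⟨l, hl, le_trans ?_ h⟩
    refine Real.rpow_le_rpow_of_exponent_le (by norm_num) (neg_le_neg ?_)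
    refine mul_le_mul_of_nonneg_right ?_ hJ
    unfold nua
    refine mul_le_mul_of_nonneg_right ?_ hκ
    have : (0 : ℝ) ≤ l := Nat.cast_nonneg l
    linarith)
  exact ⟨l₁, h1, h2, fun l h4 h5 => (not_le.1 (h3 l h4 h5)).le⟩

/-- Two rows, the first one is reduced by the second one. -/
theorem ech_aux {r : ℕ} {Y : ℝ} (hY : 2 ≤ Y) {q p : ℕ → ℝ} (hq : ∀ l < r, |q l| ≤ Y)
    (hp : ∀ l < r, |p l| ≤ Y)
    (hm : ∃ l < r, ∃ l' < r, Y⁻¹ ≤ |q l * p l' - q l' * p l|) {l₁ : ℕ}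
    (h1 : |q l₁| ≤ |p l₁|) (hp1 : 0 < |p l₁|) :
    ∃ t : ℝ, |t| ≤ 1 ∧ q l₁ - t * p l₁ = 0 ∧ (∀ l < r, |q l - t * p l| ≤ 2 * Y) ∧
      ∃ l < r, Y⁻¹ ^ 3 ≤ |q l - t * p l| := by
  have hY0 : 0 < Y := by linarith
  have hp0 : p l₁ ≠ 0 := abs_pos.1 hp1
  obtain ⟨t, ht⟩ : ∃ t, t = q l₁ / p l₁ := ⟨_, rfl⟩
  have ht1 : |t| ≤ 1 := by
    rw [ht, abs_div, div_le_one hp1]
    exact h1
  have hsz : ∀ l < r, |q l - t * p l| ≤ 2 * Y := fun l hl => by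
    refine (abs_sub _ _).trans ?_
    rw [abs_mul]
    have h2 : |t| * |p l| ≤ 1 * Y := mul_le_mul ht1 (hp l hl) (abs_nonneg _) zero_le_one
    linarith [hq l hl]
  refine ⟨t, ht1, ?_, hsz, ?_⟩
  · rw [ht, div_mul_cancel₀ _ hp0]
    ring
  · obtain ⟨l, hl, l', hl', h2⟩ := hm
    by_contra hcon
    push Not at hcon
    have h3 := hcon l hl
    have h4 := hcon l' hl'
    have e1 : q l * p l' - q l' * p l = (q l - t * p l) * p l' - (q l' - t * p l') * p l := by ring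
    rw [e1] at h2
    have h5 : |(q l - t * p l) * p l' - (q l' - t * p l') * p l| ≤
        |q l - t * p l| * |p l'| + |q l' - t * p l'| * |p l| := by
      refine (abs_sub _ _).trans ?_
      rw [abs_mul, abs_mul]
    have h6 : |q l - t * p l| * |p l'| ≤ |q l - t * p l| * Y :=
      mul_le_mul_of_nonneg_left (hp l' hl') (abs_nonneg _)
    have h7 : |q l' - t * p l'| * |p l| ≤ |q l' - t * p l'| * Y :=
      mul_le_mul_of_nonneg_left (hp l hl) (abs_nonneg _)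
    have h8 : |q l - t * p l| * Y < Y⁻¹ ^ 3 * Y := mul_lt_mul_of_pos_right h3 hY0
    have h9 : |q l' - t * p l'| * Y < Y⁻¹ ^ 3 * Y := mul_lt_mul_of_pos_right h4 hY0
    have h10 : Y⁻¹ ^ 3 * Y = Y⁻¹ ^ 2 := by
      field_simp
    have h11 : 2 * Y⁻¹ ^ 2 ≤ Y⁻¹ := by
      have : 2 * Y⁻¹ ≤ 1 := by
        rw [← div_eq_mul_inv, div_le_one hY0]
        exact hY
      have h12 : 0 ≤ Y⁻¹ := by positivity
      nlinarith
    rw [h10] at h8 h9
    linarith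

/-- **The echelon form of two rows.** -/
theorem ech2 {J r : ℕ} {κ : ℝ} (hκ : 0 ≤ κ) (h2 : 2 ≤ (2 : ℝ) ^ (κ * J)) {K : Fin 2 → ℕ → ℝ}
    (hK : ∀ j, ∀ l < r, |K j l| ≤ (2 : ℝ) ^ (κ * J))
    (hm : ∃ l < r, ∃ l' < r, (2 : ℝ) ^ (-(κ * J)) ≤ |K 0 l * K 1 l' - K 0 l' * K 1 l|) :
    ∃ (A t : Fin 2 → ℕ → ℝ), (∀ j l, A j l = t j 0 * K 0 l + t j 1 * K 1 l) ∧
      (∀ j i, |t j i| ≤ 1) ∧ (∀ l < r, |A 0 l| ≤ 2 * (2 : ℝ) ^ (κ * J)) ∧
      (∀ l < r, |A 1 l| ≤ (2 : ℝ) ^ (κ * J)) ∧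
      (∃ l₁ < r, (2 : ℝ) ^ (-(nua κ l₁ * J)) ≤ |A 0 l₁| ∧
        ∀ l, l₁ < l → l < r → |A 0 l| ≤ (2 : ℝ) ^ (-(nua κ l * J))) ∧
      ∃ l₁ < r, A 0 l₁ = 0 ∧ (2 : ℝ) ^ (-(nub κ r l₁ * J)) ≤ |A 1 l₁| ∧
        ∀ l, l₁ < l → l < r → |A 0 l| ≤ 2 * (2 : ℝ) ^ (-(nub κ r l * J)) ∧
          |A 1 l| ≤ (2 : ℝ) ^ (-(nub κ r l * J)) := by
  classical
  have hJ : (0 : ℝ) ≤ J := Nat.cast_nonneg J
  obtain ⟨Y, hY⟩ : ∃ Y : ℝ, Y = (2 : ℝ) ^ (κ * J) := ⟨_, rfl⟩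
  have hYi : (2 : ℝ) ^ (-(κ * J)) = Y⁻¹ := by rw [hY, Real.rpow_neg (by norm_num)]
  have hY3 : (2 : ℝ) ^ (-(3 * κ * J)) = Y⁻¹ ^ 3 := by
    rw [← hYi, ← Real.rpow_natCast, ← Real.rpow_mul (by norm_num)]
    congr 1
    push_cast
    ring
  rw [← hY] at h2 hK ⊢
  rw [hYi] at hm
  have hY0 : 0 < Y := by linarith
  -- the last place
  obtain ⟨l₁, hl₁, ⟨i, hi⟩, hlast⟩ := last_p r
    (fun l => ∃ i, (2 : ℝ) ^ (-(nub κ r l * J)) ≤ |K i l|) (by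
    obtain ⟨l, hl, l', hl', h3⟩ := hm
    by_contra hcon
    push Not at hcon
    have hsm : ∀ l < r, ∀ i, |K i l| < Y⁻¹ ^ 3 := fun l hl i => by
      refine (hcon l hl i).trans_le ?_
      rw [← hY3]
      refine Real.rpow_le_rpow_of_exponent_le (by norm_num) (neg_le_neg ?_)
      refine mul_le_mul_of_nonneg_right ?_ hJ
      have h4 := nub_nn hκ r l
      have h5 := tht_nn hκ r
      linarith
    have h4 : |K 0 l * K 1 l' - K 0 l' * K 1 l| ≤ |K 0 l| * |K 1 l'| + |K 0 l'| * |K 1 l| := by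
      refine (abs_sub _ _).trans ?_
      rw [abs_mul, abs_mul]
    have h5 : |K 0 l| * |K 1 l'| ≤ Y⁻¹ ^ 3 * Y :=
      mul_le_mul (hsm l hl 0).le (hK 1 l' hl') (abs_nonneg _) (by positivity)
    have h6 : |K 0 l'| * |K 1 l| ≤ Y⁻¹ ^ 3 * Y :=
      mul_le_mul (hsm l' hl' 0).le (hK 1 l hl) (abs_nonneg _) (by positivity)
    have h10 : Y⁻¹ ^ 3 * Y = Y⁻¹ ^ 2 := by
      field_simp
    have h13 : 2 * Y⁻¹ ≤ 1 := by
      rw [← div_eq_mul_inv, div_le_one hY0]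
      exact h2
    have h12 : 0 < Y⁻¹ := by positivity
    -- the first row is zero or the inequality is strict
    have h14 : |K 0 l| * |K 1 l'| < Y⁻¹ ^ 2 := by
      rw [← h10]
      exact mul_lt_mul' (hsm l hl 0).le ((hsm l' hl' 1).trans_le (by
        have h15 : Y⁻¹ ^ 3 ≤ 1 := pow_le_one₀ h12.le (by linarith)
        linarith)) (abs_nonneg _) (by positivity)
    rw [h10] at h6
    nlinarith)
  have key : ∀ (q p : ℕ → ℝ), (∀ l < r, |q l| ≤ Y) → (∀ l < r, |p l| ≤ Y) →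
      (∃ l < r, ∃ l' < r, Y⁻¹ ≤ |q l * p l' - q l' * p l|) → |q l₁| ≤ |p l₁| →
      (2 : ℝ) ^ (-(nub κ r l₁ * J)) ≤ |p l₁| →
      (∀ l, l₁ < l → l < r → |q l| ≤ (2 : ℝ) ^ (-(nub κ r l * J)) ∧
        |p l| ≤ (2 : ℝ) ^ (-(nub κ r l * J))) →
      ∃ t : ℝ, |t| ≤ 1 ∧ (∀ l < r, |q l - t * p l| ≤ 2 * Y) ∧
      (∃ l₁ < r, (2 : ℝ) ^ (-(nua κ l₁ * J)) ≤ |q l₁ - t * p l₁| ∧
        ∀ l, l₁ < l → l < r → |q l - t * p l| ≤ (2 : ℝ) ^ (-(nua κ l * J))) ∧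
      q l₁ - t * p l₁ = 0 ∧ ∀ l, l₁ < l → l < r →
        |q l - t * p l| ≤ 2 * (2 : ℝ) ^ (-(nub κ r l * J)) := by
    intro q p hq hp hm' h3 h4 h5
    obtain ⟨t, t1, t2, t3, t4⟩ := ech_aux h2 hq hp hm' h3 (lt_of_lt_of_le (by positivity) h4)
    rw [← hY3] at t4
    refine ⟨t, t1, t3, ech1 hκ t4, t2, fun l h6 h7 => ?_⟩
    obtain ⟨h8, h9⟩ := h5 l h6 h7
    refine (abs_sub _ _).trans ?_
    rw [abs_mul]
    have h10 : |t| * |p l| ≤ 1 * (2 : ℝ) ^ (-(nub κ r l * J)) :=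
      mul_le_mul t1 h9 (abs_nonneg _) zero_le_one
    linarith
  have hlast' : ∀ l, l₁ < l → l < r → ∀ i, |K i l| ≤ (2 : ℝ) ^ (-(nub κ r l * J)) :=
    fun l h3 h4 i => by
      have h5 := hlast l h3 h4
      push Not at h5
      exact (h5 i).le
  rcases le_total |K 0 l₁| |K 1 l₁| with h3 | h3
  · -- the second row has the larger entry
    have h4 : (2 : ℝ) ^ (-(nub κ r l₁ * J)) ≤ |K 1 l₁| := by
      fin_cases i
      · exact hi.trans h3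
      · exact hi
    obtain ⟨t, t1, t2, t3, t4, t5⟩ := key (K 0) (K 1) (hK 0) (hK 1) hm h3 h4
      (fun l h5 h6 => ⟨hlast' l h5 h6 0, hlast' l h5 h6 1⟩)
    refine ⟨![fun l => K 0 l - t * K 1 l, K 1], ![fun i => if i = 0 then 1 else -t,
      fun i => if i = 0 then 0 else 1], ?_, ?_, t2, hK 1, t3, l₁, hl₁, t4, h4,
      fun l h5 h6 => ⟨t5 l h5 h6, hlast' l h5 h6 1⟩⟩
    · intro j l
      fin_cases j
      · show K 0 l - t * K 1 l = (if (0 : ℕ) = 0 then 1 else -t) * K 0 l +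
          (if (1 : ℕ) = 0 then 1 else -t) * K 1 l
        simp only [if_true, one_ne_zero, if_false]
        ring
      · show K 1 l = (if (0 : ℕ) = 0 then 0 else 1) * K 0 l +
          (if (1 : ℕ) = 0 then 0 else 1) * K 1 l
        simp only [if_true, one_ne_zero, if_false]
        ring
    · intro j i
      fin_cases j
      · show |(if i = 0 then (1 : ℝ) else -t)| ≤ 1
        split_ifs
        · rw [abs_one]
        · rw [abs_neg]
          exact t1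
      · show |(if i = 0 then (0 : ℝ) else 1)| ≤ 1
        split_ifs
        · rw [abs_zero]
          norm_num
        · rw [abs_one]
  · have h4 : (2 : ℝ) ^ (-(nub κ r l₁ * J)) ≤ |K 0 l₁| := by
      fin_cases i
      · exact hi
      · exact hi.trans h3
    obtain ⟨t, t1, t2, t3, t4, t5⟩ := key (K 1) (K 0) (hK 1) (hK 0) (by
        obtain ⟨l, hl, l', hl', h5⟩ := hm
        refine ⟨l', hl', l, hl, h5.trans (le_of_eq ?_)⟩
        congr 1
        ring) h3 h4 (fun l h5 h6 => ⟨hlast' l h5 h6 1, hlast' l h5 h6 0⟩)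
    refine ⟨![fun l => K 1 l - t * K 0 l, K 0], ![fun i => if i = 0 then -t else 1,
      fun i => if i = 0 then 1 else 0], ?_, ?_, t2, hK 0, t3, l₁, hl₁, t4, h4,
      fun l h5 h6 => ⟨t5 l h5 h6, hlast' l h5 h6 0⟩⟩
    · intro j l
      fin_cases j
      · show K 1 l - t * K 0 l = (if (0 : ℕ) = 0 then -t else 1) * K 0 l +
          (if (1 : ℕ) = 0 then -t else 1) * K 1 l
        simp only [if_true, one_ne_zero, if_false]
        ring
      · show K 0 l = (if (0 : ℕ) = 0 then 1 else 0) * K 0 l +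
          (if (1 : ℕ) = 0 then 1 else 0) * K 1 l
        simp only [if_true, one_ne_zero, if_false]
        ring
    · intro j i
      fin_cases j
      · show |(if i = 0 then -t else (1 : ℝ))| ≤ 1
        split_ifs
        · rw [abs_neg]
          exact t1
        · rw [abs_one]
      · show |(if i = 0 then (1 : ℝ) else 0)| ≤ 1
        split_ifs
        · rw [abs_one]
        · rw [abs_zero]
          norm_num

end Pool.IMN17
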