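import Pool.Agent.H17.IMN.Trn

/-!
# The images of the heights are full: `imK_of : ImKStmt`
-/

set_option autoImplicit false

namespace Pool.IMN17

open Finset Real MvPolynomial
open Pool.Agent.H49.Ent Pool.Agent.H32.Dense Pool.STK Pool.KA Pool.KSAT Pool.K2S Pool.PB Pool.S6C
open Pool.GEN Pool.REX Pool.REX83 Pool.NFT33 Pool.TOP
open Pool.UNJ (ceI)
open Pool.D2F2 (hgp)
open Pool.FUL33 (bgJ wB wJ jw jmul pull bas_abs)
open Pool.FUL17

variable {m R J : ℕ}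

/-- **The data of a closed function.** -/
theorem dn_of {F : Fam m J} {c : ℕ → Fin m} {k r : ℕ} (w : ℝ) {V : Type} (z : PtT F → V)
    (z' : LnT F → V) (G : V → ℕ → MvPolynomial (Option (Fin m)) ℝ)
    (hG : ∀ v, ∀ l < r, (G v l).totalDegree ≤ 1) (hG' : ∀ v, ∀ l < r, DepC c (k + l) (G v l))
    (a : V → Fin R → ℕ → ℝ) : ∃ d : DN c k r R F,
      (∀ ω ω', z' (slam F ⌊w * J⌋₊ ω) = z' (slam F ⌊w * J⌋₊ ω') ↔ d.y w ω = d.y w ω') ∧
      (∀ ω, d.fr (d.y w ω) = G (z' (slam F ⌊w * J⌋₊ ω))) ∧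
      (∀ ω, d.al (d.y w ω) = a (z' (slam F ⌊w * J⌋₊ ω))) ∧
      ∀ ω, z (ptr F J ω) = z' (slam F ⌊w * J⌋₊ ω) → d.z (ptr F J ω) = d.y w ω := by
  classical
  obtain ⟨rep, hrep⟩ : ∃ rep : V → Option F.Ω, rep = fun y =>
    if h : ∃ ω, z' (slam F ⌊w * (J : ℝ)⌋₊ ω) = y then some h.choose else none := ⟨_, rfl⟩
  have hr1 : ∀ ω : F.Ω, ∃ ω' : F.Ω, rep (z' (slam F ⌊w * (J : ℝ)⌋₊ ω)) = some ω' ∧
      z' (slam F ⌊w * (J : ℝ)⌋₊ ω') = z' (slam F ⌊w * (J : ℝ)⌋₊ ω) := by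
    intro ω
    have hex : ∃ ω', z' (slam F ⌊w * (J : ℝ)⌋₊ ω') = z' (slam F ⌊w * (J : ℝ)⌋₊ ω) := ⟨ω, rfl⟩
    refine ⟨hex.choose, ?_, hex.choose_spec⟩
    rw [hrep]
    exact dif_pos hex
  obtain ⟨gb, hgb⟩ : ∃ gb : Option F.Ω → ℕ → MvPolynomial (Option (Fin m)) ℝ, gb = fun o =>
    match o with
    | none => fun _ => 0
    | some ω => G (z' (slam F ⌊w * (J : ℝ)⌋₊ ω)) := ⟨_, rfl⟩
  obtain ⟨ab, hab⟩ : ∃ ab : Option F.Ω → Fin R → ℕ → ℝ, ab = fun o => match o with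
    | none => 0
    | some ω => a (z' (slam F ⌊w * (J : ℝ)⌋₊ ω)) := ⟨_, rfl⟩
  obtain ⟨d, hd⟩ : ∃ d : DN c k r R F, d = ⟨fun y => rep (z y), fun y => rep (z' y), gb, ab, by
      intro y l hl
      rw [hgb]
      rcases y with _ | ω
      · show (0 : MvPolynomial (Option (Fin m)) ℝ).totalDegree ≤ 1
        rw [totalDegree_zero]
        exact Nat.zero_le _
      · exact hG _ l hl, by
      intro y l hl
      rw [hgb]
      rcases y with _ | ω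
      · intro b b' _ _
        show eval b (0 : MvPolynomial (Option (Fin m)) ℝ) = eval b' 0
        rw [map_zero, map_zero]
      · exact hG' _ l hl⟩ := ⟨_, rfl⟩
  have hdy : ∀ ω, d.y w ω = rep (z' (slam F ⌊w * (J : ℝ)⌋₊ ω)) := fun ω => by
    rw [hd]
    rfl
  have hdf : d.fr = gb := by rw [hd]
  have hda : d.al = ab := by rw [hd]
  have hgs : ∀ ω, gb (some ω) = G (z' (slam F ⌊w * (J : ℝ)⌋₊ ω)) := fun ω => by rw [hgb]
  have has : ∀ ω, ab (some ω) = a (z' (slam F ⌊w * (J : ℝ)⌋₊ ω)) := fun ω => by rw [hab]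
  refine ⟨d, fun ω ω' => ⟨fun h => by rw [hdy, hdy, h], fun h => ?_⟩, fun ω => ?_, fun ω => ?_,
    fun ω h => ?_⟩
  · rw [hdy, hdy] at h
    obtain ⟨ω₁, f1, f2⟩ := hr1 ω
    obtain ⟨ω₂, f3, f4⟩ := hr1 ω'
    rw [f1, f3] at h
    rw [← f2, ← f4, Option.some.inj h]
  · rw [hdy]
    obtain ⟨ω₁, f1, f2⟩ := hr1 ω
    rw [f1, hdf, hgs, f2]
  · rw [hdy]
    obtain ⟨ω₁, f1, f2⟩ := hr1 ω
    rw [f1, hda, has, f2]
  · rw [hdy, ← h, hd]

/-- The sizes of the coefficients. -/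
theorem co_le {c : ℕ → Fin m} {k r : ℕ} {s xs : ℕ → ℝ} {x θ κ : ℝ} (hκ : 0 < κ)
    (h2 : 2 ≤ (2 : ℝ) ^ (κ * J)) (hr2 : (r : ℝ) + 1 ≤ (2 : ℝ) ^ (κ * J)) {a : ℕ → ℝ}
    {g : ℕ → MvPolynomial (Option (Fin m)) ℝ}
    (ha : ∀ l < r, |a l| ≤ (2 : ℝ) ^ ((s l + θ + 2 * κ) * J))
    (hg : ∀ l < r, ∀ o, |coeff (Finsupp.single o 1) (g l)| ≤ (2 : ℝ) ^ ((xs l + κ) * J))
    (hs : ∀ l < r, 0 ≤ xs l ∧ s l + xs l ≤ x) (hx : 0 ≤ x + θ) (o : Option (Fin m)) :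
    |coeff (Finsupp.single o 1) (rwP c k r g a)| + 1 ≤ (2 : ℝ) ^ ((x + θ + 8 * κ) * J) := by
  have hJ : (0 : ℝ) ≤ J := Nat.cast_nonneg J
  obtain ⟨y, hy⟩ : ∃ y : ℝ, y = (2 : ℝ) ^ ((x + θ + 4 * κ) * J) := ⟨_, rfl⟩
  have hy1 : 1 ≤ y := by
    rw [hy]
    exact Real.one_le_rpow (by norm_num) (mul_nonneg (by linarith) hJ)
  have h1 := coe_le (c := c) (N := k) (r := r) (fr := g) (a := a) (y := y) (by linarith) (o := o)
    (fun l hl => by
      have h3 := ha l hl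
      have h4 := hg l hl o
      obtain ⟨h5, h6⟩ := hs l hl
      have h7 : (1 : ℝ) ≤ (2 : ℝ) ^ ((xs l + κ) * J) :=
        Real.one_le_rpow (by norm_num) (mul_nonneg (by linarith) hJ)
      have h8 : 1 + |coeff (Finsupp.single o 1) (g l)| ≤
          (2 : ℝ) ^ (κ * J) * (2 : ℝ) ^ ((xs l + κ) * J) := by nlinarith
      refine (mul_le_mul h3 h8 (by positivity) (by positivity)).trans ?_
      rw [← Real.rpow_add (by norm_num), ← Real.rpow_add (by norm_num), hy]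
      refine Real.rpow_le_rpow_of_exponent_le (by norm_num) ?_
      have e : (s l + θ + 2 * κ) * (J : ℝ) + (κ * J + (xs l + κ) * J) =
        (s l + xs l + θ + 4 * κ) * J := by ring
      rw [e]
      exact mul_le_mul_of_nonneg_right (by linarith) hJ)
  calc |coeff (Finsupp.single o 1) (rwP c k r g a)| + 1 ≤ r * y + y := by linarith
    _ = (r + 1) * y := by ring
    _ ≤ (2 : ℝ) ^ (κ * J) * y := mul_le_mul_of_nonneg_right hr2 (by linarith)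
    _ ≤ (2 : ℝ) ^ ((x + θ + 8 * κ) * J) := by
        rw [hy, ← Real.rpow_add (by norm_num)]
        refine Real.rpow_le_rpow_of_exponent_le (by norm_num) ?_
        have : 0 ≤ κ * J := by positivity
        nlinarith

/-- The loss of the transfer. -/
theorem log_tr {k : ℕ} {κ a : ℝ} (hκ : 0 < κ) (ha : 0 ≤ a)
    (hk : (7 : ℝ) + 2 * k ≤ (2 : ℝ) ^ (κ * J)) :
    Real.log (2 * (2 * (2 : ℝ) ^ (a * J) + k * (2 : ℝ) ^ (8 * κ * J) + 1) + 1) ≤
      (a + 9 * κ) * Real.log 2 * J := by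
  have hJ : (0 : ℝ) ≤ J := Nat.cast_nonneg J
  obtain ⟨p, hp⟩ : ∃ p : ℝ, p = (2 : ℝ) ^ (a * J) := ⟨_, rfl⟩
  obtain ⟨q, hq⟩ : ∃ q : ℝ, q = (2 : ℝ) ^ (8 * κ * J) := ⟨_, rfl⟩
  have hp1 : 1 ≤ p := by
    rw [hp]
    exact Real.one_le_rpow (by norm_num) (mul_nonneg ha hJ)
  have hq1 : 1 ≤ q := by
    rw [hq]
    exact Real.one_le_rpow (by norm_num) (by positivity)
  have hk0 : (0 : ℝ) ≤ k := Nat.cast_nonneg k
  have h1 : p ≤ p * q := le_mul_of_one_le_right (by linarith) hq1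
  have h2 : q ≤ p * q := le_mul_of_one_le_left (by linarith) hp1
  have h3 : k * q ≤ k * (p * q) := mul_le_mul_of_nonneg_left h2 hk0
  have h4 : 2 * (2 * p + k * q + 1) + 1 ≤ (2 : ℝ) ^ ((a + 9 * κ) * J) := by
    calc 2 * (2 * p + k * q + 1) + 1 ≤ (7 + 2 * k) * (p * q) := by nlinarith
      _ ≤ (2 : ℝ) ^ (κ * J) * (p * q) := mul_le_mul_of_nonneg_right hk (by positivity)
      _ = (2 : ℝ) ^ ((a + 9 * κ) * J) := by
          rw [hp, hq, ← Real.rpow_add (by norm_num), ← Real.rpow_add (by norm_num)]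
          congr 1
          ring
  rw [← hp, ← hq]
  calc Real.log (2 * (2 * p + k * q + 1) + 1) ≤ Real.log ((2 : ℝ) ^ ((a + 9 * κ) * J)) :=
        Real.log_le_log (by positivity) h4
    _ = (a + 9 * κ) * Real.log 2 * J := by
        rw [Real.log_rpow (by norm_num)]
        ring

/-- The constant. -/
noncomputable def cK (k r : ℕ) : ℝ :=
  2 * (6 * r + 40) + (3 + 6 * r) + ((6 * r + 40) + (r + 1) * (6 * r + 50)) + 8 * (k + 12) + 60

section fin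

variable {S : PCl m} {C₀ : ℝ} {N₀ : ℚ → ℚ → ℝ} {al : ℝ} {g₀ : ℝ → ℝ} {c : ℕ → Fin m} {k r : ℕ}
  {s xs : ℕ → ℝ} {w x κ : ℝ}

/-- **Two images.** -/
theorem im_two (hF : FZX (k + 2)) (hC₀ : 0 ≤ C₀) (htm : TmC S C₀) (hal : 0 < al)
    (hg₀ : ∀ ε : ℝ, 0 < ε → 0 < g₀ ε) (hM : ActM N₀ al g₀)
    (hc : Set.InjOn c (Set.Iio (k + r))) (hr : 0 < r) (i₀ : Fin k) (hB : ActB N₀ S (c i₀))
    (hw0 : 0 ≤ w) (hwx : w ≤ x) (hκ : 0 < κ)
    (hs : ∀ l < r, κ ≤ s l ∧ 0 ≤ xs l ∧ s l + xs l ≤ x) (hful : FulN S c k w κ)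
    (habs : AbsN S c k r s w κ) :
    Bas S (fun J F A =>
    ∀ (V : Type) (z : PtT F → V) (z' : LnT F → V) (G : V → ℕ → MvPolynomial (Option (Fin m)) ℝ),
    FrN F c k r s xs w κ A z z' G → ∀ ka : V → Fin 2 → ℕ → ℝ,
    (∀ ω, A ω → ∀ j, ∀ l < r, |ka (z' (slam F ⌊w * J⌋₊ ω)) j l| ≤ (2 : ℝ) ^ (κ * J)) →
    (∀ ω, A ω → ∃ l < r, ∃ l' < r, (2 : ℝ) ^ (-(κ * J)) ≤
      |ka (z' (slam F ⌊w * J⌋₊ ω)) 0 l * ka (z' (slam F ⌊w * J⌋₊ ω)) 1 l' -
        ka (z' (slam F ⌊w * J⌋₊ ω)) 0 l' * ka (z' (slam F ⌊w * J⌋₊ ω)) 1 l|) →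
    ∀ M : ℝ, M ≤ 1 - x → (2 * M - cK k r * κ) * Real.log 2 * J ≤
      CH (Pool.Agent.H49.Ent.cond F.p A True)
        (fun ω (j : Fin 2) => ⌊imX F c k r s M (G (z' (slam F ⌊w * J⌋₊ ω)))
          (ka (z' (slam F ⌊w * J⌋₊ ω)) j) ω⌋)
        (fun ω => (ceI ((range k).image c) (fun _ => J) (F.x ω),
          (z' (slam F ⌊w * J⌋₊ ω), F.W ω)))) := by
  classical
  have hpos : ∀ (τ : ℝ) (J : ℕ) (F : Fam m J) (A : F.Ω → Prop), S.St τ J F A →
      0 < Pe F.p A := fun τ J F A h => (htm (max τ 1) J F A (lt_max_of_lt_right one_pos)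
        (S.mono (le_max_left _ _) h)).1
  have hpB : Bas S (fun _ F A => 0 < Pe F.p A) :=
    ⟨1, one_pos, 0, fun J _ F A hA => hpos 1 J F A hA⟩
  have hl2 : 0 < Real.log 2 := Real.log_pos one_lt_two
  have hθ40 := tht_nn hκ.le r
  have hk0 : (0 : ℝ) ≤ k := Nat.cast_nonneg k
  have hr0 : (0 : ℝ) ≤ r := Nat.cast_nonneg r
  by_cases hx1 : x + tht κ r + 16 * κ ≤ 1
  swap
  · push Not at hx1
    refine hpB.mono 0 ?_
    intro J _ F A hA V z z' G hFr ka hk1 hk2 M hM'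
    refine le_trans ?_ (CH_nonneg (isLaw_cond F.isLaw hA).nonneg _ _)
    have h1 : 2 * M - cK k r * κ ≤ 0 := by
      have h2 : 2 * (tht κ r + 16 * κ) ≤ cK k r * κ := by
        have e : 2 * (tht κ r + 16 * κ) = (2 * (6 * r + 40) + 32) * κ := by
          unfold tht
          ring
        rw [e]
        refine mul_le_mul_of_nonneg_right ?_ hκ.le
        unfold cK
        nlinarith
      linarith
    have h3 : 0 ≤ Real.log 2 * J := by positivity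
    have := mul_nonpos_of_nonpos_of_nonneg h1 h3
    linarith
  have key := low2 (rr := 1 - x - tht κ r) hF hC₀ htm hal hg₀ hM hc hr i₀ hB hw0 hwx hκ
    (fun l hl => (hs l hl).1) (fun l hl => by
      obtain ⟨-, h1, h2⟩ := hs l hl
      linarith) hx1 (by linarith) hful habs
  obtain ⟨J₀, hJ₀⟩ := ex_pow hκ 2
  obtain ⟨J₁, hJ₁⟩ := ex_pow hκ (r + 1)
  obtain ⟨J₂, hJ₂⟩ := ex_pow hκ (7 + 2 * k)
  refine (key.and hpB).mono (max J₀ (max J₁ J₂)) ?_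
  rintro J hJ F A ⟨h1, hA⟩ V z z' G hFr ka hk1 hk2 M hM'
  have g0 := hJ₀ J ((le_max_left _ _).trans hJ)
  have g1 := hJ₁ J (((le_max_left _ _).trans (le_max_right _ _)).trans hJ)
  have g2 := hJ₂ J (((le_max_right _ _).trans (le_max_right _ _)).trans hJ)
  have hJ0 : (0 : ℝ) ≤ J := Nat.cast_nonneg J
  -- the echelon forms
  have hex : ∀ v : V, ∃ a t : Fin 2 → ℕ → ℝ,
      ((∀ j, ∀ l < r, |ka v j l| ≤ (2 : ℝ) ^ (κ * J)) ∧
        (∃ l < r, ∃ l' < r, (2 : ℝ) ^ (-(κ * J)) ≤ |ka v 0 l * ka v 1 l' - ka v 0 l' * ka v 1 l|)) →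
      (∀ j l, a j l = t j 0 * ka v 0 l + t j 1 * ka v 1 l) ∧
      (∀ j i, |t j i| ≤ 1) ∧ (∀ l < r, |a 0 l| ≤ 2 * (2 : ℝ) ^ (κ * J)) ∧
      (∀ l < r, |a 1 l| ≤ (2 : ℝ) ^ (κ * J)) ∧
      (∃ l₁ < r, (2 : ℝ) ^ (-(nua κ l₁ * J)) ≤ |a 0 l₁| ∧
        ∀ l, l₁ < l → l < r → |a 0 l| ≤ (2 : ℝ) ^ (-(nua κ l * J))) ∧
      ∃ l₁ < r, a 0 l₁ = 0 ∧ (2 : ℝ) ^ (-(nub κ r l₁ * J)) ≤ |a 1 l₁| ∧
        ∀ l, l₁ < l → l < r → |a 0 l| ≤ 2 * (2 : ℝ) ^ (-(nub κ r l * J)) ∧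
          |a 1 l| ≤ (2 : ℝ) ^ (-(nub κ r l * J)) := by
    intro v
    by_cases hv : (∀ j, ∀ l < r, |ka v j l| ≤ (2 : ℝ) ^ (κ * J)) ∧
        (∃ l < r, ∃ l' < r, (2 : ℝ) ^ (-(κ * J)) ≤ |ka v 0 l * ka v 1 l' - ka v 0 l' * ka v 1 l|)
    · obtain ⟨a, t, h2⟩ := ech2 hκ.le g0 hv.1 hv.2
      exact ⟨a, t, fun _ => h2⟩
    · exact ⟨0, 0, fun h => absurd h hv⟩
  choose a t hat using hex
  obtain ⟨θ, hθ⟩ : ∃ θ : Fin 2 → ℝ, θ = ![tht κ r, 0] := ⟨_, rfl⟩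
  have hθ0 : θ 0 = tht κ r := by rw [hθ]; rfl
  have hθ1 : θ 1 = 0 := by rw [hθ]; rfl
  obtain ⟨d, d1, d2, d3, d4⟩ := dn_of (k := k) w z z' G hFr.deg hFr.dep
    (fun v j l => a v j l * (2 : ℝ) ^ ((s l + θ j) * J))
  have hv : ∀ ω, A ω → _ := fun ω hω => hat (z' (slam F ⌊w * J⌋₊ ω)) ⟨hk1 ω hω, hk2 ω hω⟩
  have hdal : ∀ ω j l, d.al (d.y w ω) j l = a (z' (slam F ⌊w * J⌋₊ ω)) j l *
      (2 : ℝ) ^ ((s l + θ j) * J) := fun ω j l => by rw [d3]
  have hpp : ∀ y : ℝ, (0 : ℝ) < (2 : ℝ) ^ y := fun y => Real.rpow_pos_of_pos (by norm_num) y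
  have habs2 : ∀ ω j l, |d.al (d.y w ω) j l| = |a (z' (slam F ⌊w * J⌋₊ ω)) j l| *
      (2 : ℝ) ^ ((s l + θ j) * J) := fun ω j l => by
    rw [hdal, abs_mul, abs_of_pos (hpp _)]
  -- sizes
  have hsz : ∀ ω, A ω → ∀ j, ∀ l < r, |d.al (d.y w ω) j l| ≤
      (2 : ℝ) ^ ((s l + tht κ r + 2 * κ) * J) := by
    intro ω hω j l hl
    obtain ⟨-, -, h2, h3, -, -⟩ := hv ω hω
    have h4 : |a (z' (slam F ⌊w * J⌋₊ ω)) j l| ≤ (2 : ℝ) ^ (2 * κ * J) := by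
      have e : (2 : ℝ) ^ (2 * κ * J) = (2 : ℝ) ^ (κ * J) * (2 : ℝ) ^ (κ * J) := by
        rw [← Real.rpow_add (by norm_num)]
        congr 1
        ring
      rw [e]
      have h5 : (0 : ℝ) < (2 : ℝ) ^ (κ * J) := hpp _
      fin_cases j
      · refine (h2 l hl).trans ?_
        exact mul_le_mul_of_nonneg_right g0 h5.le
      · refine (h3 l hl).trans ?_
        exact le_mul_of_one_le_left h5.le (by linarith)
    rw [habs2]
    refine (mul_le_mul_of_nonneg_right h4 (hpp _).le).trans ?_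
    rw [← Real.rpow_add (by norm_num)]
    refine Real.rpow_le_rpow_of_exponent_le (by norm_num) ?_
    have h6 : θ j ≤ tht κ r := by
      fin_cases j
      · exact hθ0.le
      · show θ 1 ≤ _
        rw [hθ1]
        linarith
    have e : 2 * κ * (J : ℝ) + (s l + θ j) * J = (s l + θ j + 2 * κ) * J := by ring
    rw [e]
    exact mul_le_mul_of_nonneg_right (by linarith) hJ0
  have hcC : DnC s w κ (x + tht κ r + 8 * κ) F d A := by
    refine ⟨fun ω hω => d4 ω (hFr.cls ω hω), fun ω hω l hl => ?_, fun ω hω j o => ?_⟩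
    · rw [d2]
      exact hFr.pos ω hω l hl
    · refine co_le hκ g0 g1 (hsz ω hω j) (fun l hl o => ?_) (fun l hl => (hs l hl).2)
        (by linarith) o
      rw [d2]
      exact hFr.slo ω hω l hl o
  have hDn : Dn2 s w κ (x + tht κ r + 8 * κ) F d A := by
    refine ⟨hcC, fun ω hω l hl => ?_, fun ω hω => ?_, fun ω hω => ?_⟩
    · obtain ⟨-, -, -, h3, -, -⟩ := hv ω hω
      rw [habs2, hθ1]
      refine (mul_le_mul_of_nonneg_right (h3 l hl) (hpp _).le).trans ?_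
      rw [← Real.rpow_add (by norm_num)]
      refine Real.rpow_le_rpow_of_exponent_le (by norm_num) ?_
      have : 0 ≤ κ * J := by positivity
      nlinarith
    · obtain ⟨-, -, -, -, ⟨l₁, hl₁, h3, h4⟩, -⟩ := hv ω hω
      refine ⟨l₁, hl₁, ?_, fun l hl hlr => ?_⟩
      · rw [habs2, hθ0]
        refine le_trans (le_of_eq ?_) (mul_le_mul_of_nonneg_right h3 (hpp _).le)
        rw [← Real.rpow_add (by norm_num)]
        congr 1
        ring
      · rw [habs2, hθ0]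
        refine (mul_le_mul_of_nonneg_right (h4 l hl hlr) (hpp _).le).trans ?_
        rw [← Real.rpow_add (by norm_num)]
        refine Real.rpow_le_rpow_of_exponent_le (by norm_num) ?_
        have : 0 ≤ κ * J := by positivity
        nlinarith
    · obtain ⟨-, -, -, -, -, l₁, hl₁, h3, h4, h5⟩ := hv ω hω
      refine ⟨l₁, hl₁, ?_, ?_, fun l hl hlr => ⟨?_, ?_⟩⟩
      · rw [hdal, h3, zero_mul]
      · rw [habs2, hθ1]
        refine le_trans (le_of_eq ?_) (mul_le_mul_of_nonneg_right h4 (hpp _).le)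
        rw [← Real.rpow_add (by norm_num)]
        congr 1
        ring
      · rw [habs2, hθ0]
        obtain ⟨h6, -⟩ := h5 l hl hlr
        have h7 : |a (z' (slam F ⌊w * J⌋₊ ω)) 0 l| ≤ (2 : ℝ) ^ (κ * J) *
            (2 : ℝ) ^ (-(nub κ r l * J)) :=
          h6.trans (mul_le_mul_of_nonneg_right g0 (hpp _).le)
        refine (mul_le_mul_of_nonneg_right h7 (hpp _).le).trans (le_of_eq ?_)
        rw [← Real.rpow_add (by norm_num), ← Real.rpow_add (by norm_num)]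
        congr 1
        ring
      · rw [habs2, hθ1]
        obtain ⟨-, h6⟩ := h5 l hl hlr
        refine (mul_le_mul_of_nonneg_right h6 (hpp _).le).trans ?_
        rw [← Real.rpow_add (by norm_num)]
        refine Real.rpow_le_rpow_of_exponent_le (by norm_num) ?_
        have : 0 ≤ κ * J := by positivity
        nlinarith
  have h2 := h1 d hDn
  have h3 := tr_le (K := ka) (G := G) (s := s) (θ := tht κ r) (M₀ := 1 - x) (M := M)
    (cx := x + tht κ r + 8 * κ) (b := 8 * κ) hA hc hr d1 (fun ω _ => d2 ω) (by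
      intro ω hω j
      obtain ⟨h4, h5, -⟩ := hv ω hω
      refine ⟨fun i => t (z' (slam F ⌊w * J⌋₊ ω)) j i * (2 : ℝ) ^ ((θ j - tht κ r) * J), ?_,
        fun l hl => ?_⟩
      · rw [Fin.sum_univ_two]
        have h7 : (2 : ℝ) ^ ((θ j - tht κ r) * J) ≤ 1 := by
          refine Real.rpow_le_one_of_one_le_of_nonpos (by norm_num) ?_
          refine mul_nonpos_of_nonpos_of_nonneg ?_ hJ0
          fin_cases j
          · show θ 0 - _ ≤ 0
            rw [hθ0]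
            linarith
          · show θ 1 - _ ≤ 0
            rw [hθ1]
            linarith
        have h8 : ∀ i : ℕ, |t (z' (slam F ⌊w * J⌋₊ ω)) j i * (2 : ℝ) ^ ((θ j - tht κ r) * J)| ≤ 1 := by
          intro i
          rw [abs_mul, abs_of_pos (hpp _)]
          exact mul_le_one₀ (h5 j i) (hpp _).le h7
        exact le_trans (add_le_add (h8 0) (h8 1)) (by norm_num)
      · rw [Fin.sum_univ_two, hdal, h4]
        have e2 : (2 : ℝ) ^ ((s l + θ j) * J) = (2 : ℝ) ^ ((θ j - tht κ r) * J) *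
            (2 : ℝ) ^ ((s l + tht κ r) * J) := by
          rw [← Real.rpow_add (by norm_num)]
          congr 1
          ring
        show _ = (t (z' (slam F ⌊w * J⌋₊ ω)) j 0 * (2 : ℝ) ^ ((θ j - tht κ r) * J) *
          ka (z' (slam F ⌊w * J⌋₊ ω)) 0 l + t (z' (slam F ⌊w * J⌋₊ ω)) j 1 *
          (2 : ℝ) ^ ((θ j - tht κ r) * J) * ka (z' (slam F ⌊w * J⌋₊ ω)) 1 l) *
          (2 : ℝ) ^ ((s l + tht κ r) * J)
        rw [e2]
        ring) hcC.co (by linarith) (by linarith)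
  have h4 := log_tr (J := J) (k := k) (κ := κ) (a := 1 - x - M) hκ (by linarith) g2
  have h5 := h2.trans h3
  rw [Fin.sum_univ_two] at h5
  have e1 : sw2 κ r 0 = nua κ r + 2 * κ - tht κ r := rfl
  have e2 : sw2 κ r 1 = nub κ r r + 2 * κ := rfl
  rw [e1, e2] at h5
  obtain ⟨L, hL⟩ : ∃ L, L = Real.log (2 * (2 * (2 : ℝ) ^ ((1 - x - M) * J) +
    k * (2 : ℝ) ^ (8 * κ * J) + 1) + 1) := ⟨_, rfl⟩
  rw [← hL] at h4 h5
  obtain ⟨E, hE⟩ : ∃ E, E = CH (Pool.Agent.H49.Ent.cond F.p A True)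
        (fun ω (j : Fin 2) => ⌊imX F c k r s M (G (z' (slam F ⌊w * J⌋₊ ω)))
          (ka (z' (slam F ⌊w * J⌋₊ ω)) j) ω⌋)
        (fun ω => (ceI ((range k).image c) (fun _ => J) (F.x ω),
          (z' (slam F ⌊w * J⌋₊ ω), F.W ω))) := ⟨_, rfl⟩
  rw [← hE] at h5 ⊢
  have h6 : (2 * M - cK k r * κ) * Real.log 2 * J ≤
      (1 - x - tht κ r - (nua κ r + 2 * κ - tht κ r) + (1 - x - tht κ r - (nub κ r r + 2 * κ)) -
        (k + 5 * (2 : ℕ) + 2) * (8 * κ) - κ) * Real.log 2 * J -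
        (2 : ℕ) * ((1 - x - M + 9 * κ) * Real.log 2 * J) := by
    have e3 : (1 - x - tht κ r - (nua κ r + 2 * κ - tht κ r) +
        (1 - x - tht κ r - (nub κ r r + 2 * κ)) -
        (k + 5 * (2 : ℕ) + 2) * (8 * κ) - κ) * Real.log 2 * J -
        (2 : ℕ) * ((1 - x - M + 9 * κ) * Real.log 2 * J) =
        (2 * M - (tht κ r + nua κ r + nub κ r r + 4 * κ + (k + 12) * (8 * κ) + 19 * κ)) *
          (Real.log 2 * J) := by
      push_cast
      ring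
    rw [e3, mul_assoc]
    refine mul_le_mul_of_nonneg_right (sub_le_sub_left ?_ _) (by positivity)
    have e4 : tht κ r + nua κ r + nub κ r r + 4 * κ + (k + 12) * (8 * κ) + 19 * κ =
        ((6 * r + 40) + (3 + 6 * r) + ((6 * r + 40) + (r + 1) * (6 * r + 50)) + 4 +
          8 * (k + 12) + 19) * κ := by
      unfold nub tht nua
      ring
    rw [e4]
    refine mul_le_mul_of_nonneg_right ?_ hκ.le
    unfold cK
    linarith
  have h7 : ((2 : ℕ) : ℝ) * L ≤ (2 : ℕ) * ((1 - x - M + 9 * κ) * Real.log 2 * J) :=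
    mul_le_mul_of_nonneg_left h4 (Nat.cast_nonneg _)
  linarith

/-- **One image.** -/
theorem im_one (hF : FZX (k + 1)) (hC₀ : 0 ≤ C₀) (htm : TmC S C₀) (hal : 0 < al)
    (hg₀ : ∀ ε : ℝ, 0 < ε → 0 < g₀ ε) (hM : ActM N₀ al g₀)
    (hc : Set.InjOn c (Set.Iio (k + r))) (hr : 0 < r) (i₀ : Fin k) (hB : ActB N₀ S (c i₀))
    (hw0 : 0 ≤ w) (hwx : w ≤ x) (hκ : 0 < κ)
    (hs : ∀ l < r, κ ≤ s l ∧ 0 ≤ xs l ∧ s l + xs l ≤ x) (hful : FulN S c k w κ)
    (habs : AbsN S c k r s w κ) :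
    Bas S (fun J F A =>
    ∀ (V : Type) (z : PtT F → V) (z' : LnT F → V) (G : V → ℕ → MvPolynomial (Option (Fin m)) ℝ),
    FrN F c k r s xs w κ A z z' G → ∀ ka : V → ℕ → ℝ,
    (∀ ω, A ω → ∀ l < r, |ka (z' (slam F ⌊w * J⌋₊ ω)) l| ≤ (2 : ℝ) ^ (κ * J)) →
    (∀ ω, A ω → ∃ l < r, (2 : ℝ) ^ (-(κ * J)) ≤ |ka (z' (slam F ⌊w * J⌋₊ ω)) l|) →
    ∀ M : ℝ, M ≤ 1 - x → (M - cK k r * κ) * Real.log 2 * J ≤
      CH (Pool.Agent.H49.Ent.cond F.p A True)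
        (fun ω => ⌊imX F c k r s M (G (z' (slam F ⌊w * J⌋₊ ω))) (ka (z' (slam F ⌊w * J⌋₊ ω))) ω⌋)
        (fun ω => (ceI ((range k).image c) (fun _ => J) (F.x ω),
          (z' (slam F ⌊w * J⌋₊ ω), F.W ω)))) := by
  classical
  have hpos : ∀ (τ : ℝ) (J : ℕ) (F : Fam m J) (A : F.Ω → Prop), S.St τ J F A →
      0 < Pe F.p A := fun τ J F A h => (htm (max τ 1) J F A (lt_max_of_lt_right one_pos)
        (S.mono (le_max_left _ _) h)).1
  have hpB : Bas S (fun _ F A => 0 < Pe F.p A) :=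
    ⟨1, one_pos, 0, fun J _ F A hA => hpos 1 J F A hA⟩
  have hl2 : 0 < Real.log 2 := Real.log_pos one_lt_two
  have hk0 : (0 : ℝ) ≤ k := Nat.cast_nonneg k
  have hr0 : (0 : ℝ) ≤ r := Nat.cast_nonneg r
  by_cases hx1 : x + 16 * κ ≤ 1
  swap
  · push Not at hx1
    refine hpB.mono 0 ?_
    intro J _ F A hA V z z' G hFr ka hk1 hk2 M hM'
    refine le_trans ?_ (CH_nonneg (isLaw_cond F.isLaw hA).nonneg _ _)
    have h1 : M - cK k r * κ ≤ 0 := by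
      have h2 : 16 * κ ≤ cK k r * κ := by
        refine mul_le_mul_of_nonneg_right ?_ hκ.le
        unfold cK
        nlinarith
      linarith
    have h3 : 0 ≤ Real.log 2 * J := by positivity
    have := mul_nonpos_of_nonpos_of_nonneg h1 h3
    linarith
  have key := low1 (rr := 1 - x - 0) hF hC₀ htm hal hg₀ hM hc hr i₀ hB hw0 hwx hκ
    (fun l hl => (hs l hl).1) (fun l hl => by
      obtain ⟨-, h1, h2⟩ := hs l hl
      linarith) hx1 (by linarith) hful habs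
  obtain ⟨J₀, hJ₀⟩ := ex_pow hκ 2
  obtain ⟨J₁, hJ₁⟩ := ex_pow hκ (r + 1)
  obtain ⟨J₂, hJ₂⟩ := ex_pow hκ (7 + 2 * k)
  refine (key.and hpB).mono (max J₀ (max J₁ J₂)) ?_
  rintro J hJ F A ⟨h1, hA⟩ V z z' G hFr ka hk1 hk2 M hM'
  have g0 := hJ₀ J ((le_max_left _ _).trans hJ)
  have g1 := hJ₁ J (((le_max_left _ _).trans (le_max_right _ _)).trans hJ)
  have g2 := hJ₂ J (((le_max_right _ _).trans (le_max_right _ _)).trans hJ)
  have hJ0 : (0 : ℝ) ≤ J := Nat.cast_nonneg J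
  have hpp : ∀ y : ℝ, (0 : ℝ) < (2 : ℝ) ^ y := fun y => Real.rpow_pos_of_pos (by norm_num) y
  obtain ⟨d, d1, d2, d3, d4⟩ := dn_of (k := k) w z z' G hFr.deg hFr.dep
    (fun v (_ : Fin 1) l => ka v l * (2 : ℝ) ^ ((s l + 0) * J))
  have hdal : ∀ ω j l, d.al (d.y w ω) j l = ka (z' (slam F ⌊w * J⌋₊ ω)) l *
      (2 : ℝ) ^ ((s l + 0) * J) := fun ω j l => by rw [d3]
  have habs2 : ∀ ω j l, |d.al (d.y w ω) j l| = |ka (z' (slam F ⌊w * J⌋₊ ω)) l| *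
      (2 : ℝ) ^ ((s l + 0) * J) := fun ω j l => by
    rw [hdal, abs_mul, abs_of_pos (hpp _)]
  have hcC : DnC s w κ (x + 0 + 8 * κ) F d A := by
    refine ⟨fun ω hω => d4 ω (hFr.cls ω hω), fun ω hω l hl => ?_, fun ω hω j o => ?_⟩
    · rw [d2]
      exact hFr.pos ω hω l hl
    · refine co_le hκ g0 g1 (fun l hl => ?_) (fun l hl o => ?_) (fun l hl => (hs l hl).2)
        (by linarith) o
      · rw [habs2]
        refine (mul_le_mul_of_nonneg_right (hk1 ω hω l hl) (hpp _).le).trans ?_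
        rw [← Real.rpow_add (by norm_num)]
        refine Real.rpow_le_rpow_of_exponent_le (by norm_num) ?_
        have : 0 ≤ κ * J := by positivity
        nlinarith
      · rw [d2]
        exact hFr.slo ω hω l hl o
  have hDn : Dn1 s w κ (x + 8 * κ) F d A := by
    refine ⟨by rw [add_zero] at hcC; exact hcC, fun ω hω => ?_⟩
    obtain ⟨l₁, hl₁, h3, h4⟩ := ech1 hκ.le (J := J) (r := r)
      (a := ka (z' (slam F ⌊w * J⌋₊ ω))) (by
        obtain ⟨l, hl, h5⟩ := hk2 ω hω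
        refine ⟨l, hl, le_trans ?_ h5⟩
        refine Real.rpow_le_rpow_of_exponent_le (by norm_num) ?_
        have : 0 ≤ κ * J := by positivity
        nlinarith)
    refine ⟨l₁, hl₁, ?_, fun l hl hlr => ?_⟩
    · rw [habs2]
      refine le_trans (le_of_eq ?_) (mul_le_mul_of_nonneg_right h3 (hpp _).le)
      rw [← Real.rpow_add (by norm_num)]
      congr 1
      ring
    · rw [habs2]
      refine (mul_le_mul_of_nonneg_right (h4 l hl hlr) (hpp _).le).trans ?_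
      rw [← Real.rpow_add (by norm_num)]
      refine Real.rpow_le_rpow_of_exponent_le (by norm_num) ?_
      have : 0 ≤ κ * J := by positivity
      nlinarith
  have h2 := h1 d hDn
  have h3 := tr_le (K := fun v (_ : Fin 1) => ka v) (G := G) (s := s) (θ := 0) (M₀ := 1 - x)
    (M := M) (cx := x + 0 + 8 * κ) (b := 8 * κ) hA hc hr d1 (fun ω _ => d2 ω) (by
      intro ω hω j
      refine ⟨fun _ => 1, ?_, fun l hl => ?_⟩
      · rw [Fin.sum_univ_one, abs_one]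
        norm_num
      · rw [Fin.sum_univ_one, hdal, one_mul]) hcC.co (by linarith) (by linarith)
  have h4 := log_tr (J := J) (k := k) (κ := κ) (a := 1 - x - M) hκ (by linarith) g2
  have h5 := h2.trans h3
  rw [Fin.sum_univ_one] at h5
  have e1 : sw1 κ r 0 = nua κ r + 2 * κ := rfl
  rw [e1] at h5
  obtain ⟨L, hL⟩ : ∃ L, L = Real.log (2 * (2 * (2 : ℝ) ^ ((1 - x - M) * J) +
    k * (2 : ℝ) ^ (8 * κ * J) + 1) + 1) := ⟨_, rfl⟩
  rw [← hL] at h4 h5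
  have h8 : CH (Pool.Agent.H49.Ent.cond F.p A True)
        (fun ω (_ : Fin 1) => ⌊imX F c k r s M (G (z' (slam F ⌊w * J⌋₊ ω)))
          (ka (z' (slam F ⌊w * J⌋₊ ω))) ω⌋)
        (fun ω => (ceI ((range k).image c) (fun _ => J) (F.x ω),
          (z' (slam F ⌊w * J⌋₊ ω), F.W ω))) ≤ CH (Pool.Agent.H49.Ent.cond F.p A True)
        (fun ω => ⌊imX F c k r s M (G (z' (slam F ⌊w * J⌋₊ ω)))
          (ka (z' (slam F ⌊w * J⌋₊ ω))) ω⌋)
        (fun ω => (ceI ((range k).image c) (fun _ => J) (F.x ω),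
          (z' (slam F ⌊w * J⌋₊ ω), F.W ω))) := by
    refine CH_mono_left (isLaw_cond F.isLaw hA).nonneg fun ω ω' _ _ e => ?_
    exact funext fun _ => (Prod.ext_iff.1 e).1
  refine le_trans ?_ h8
  obtain ⟨E, hE⟩ : ∃ E, E = CH (Pool.Agent.H49.Ent.cond F.p A True)
        (fun ω (_ : Fin 1) => ⌊imX F c k r s M (G (z' (slam F ⌊w * J⌋₊ ω)))
          (ka (z' (slam F ⌊w * J⌋₊ ω))) ω⌋)
        (fun ω => (ceI ((range k).image c) (fun _ => J) (F.x ω),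
          (z' (slam F ⌊w * J⌋₊ ω), F.W ω))) := ⟨_, rfl⟩
  rw [← hE] at h5 ⊢
  have h6 : (M - cK k r * κ) * Real.log 2 * J ≤
      (1 - x - 0 - (nua κ r + 2 * κ) - (k + 5 * (1 : ℕ) + 2) * (8 * κ) - κ) * Real.log 2 * J -
        (1 : ℕ) * ((1 - x - M + 9 * κ) * Real.log 2 * J) := by
    have e3 : (1 - x - 0 - (nua κ r + 2 * κ) - (k + 5 * (1 : ℕ) + 2) * (8 * κ) - κ) *
          Real.log 2 * J - (1 : ℕ) * ((1 - x - M + 9 * κ) * Real.log 2 * J) =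
        (M - (nua κ r + 2 * κ + (k + 7) * (8 * κ) + 10 * κ)) * (Real.log 2 * J) := by
      push_cast
      ring
    rw [e3, mul_assoc]
    refine mul_le_mul_of_nonneg_right (sub_le_sub_left ?_ _) (by positivity)
    have e4 : nua κ r + 2 * κ + (k + 7) * (8 * κ) + 10 * κ =
        ((3 + 6 * r) + 2 + 8 * (k + 7) + 10) * κ := by
      unfold nua
      ring
    rw [e4]
    refine mul_le_mul_of_nonneg_right ?_ hκ.le
    unfold cK
    nlinarith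
  have h7 : ((1 : ℕ) : ℝ) * L ≤ (1 : ℕ) * ((1 - x - M + 9 * κ) * Real.log 2 * J) :=
    mul_le_mul_of_nonneg_left h4 (Nat.cast_nonneg _)
  linarith

end fin

/-- **The images of the heights are full.** -/
theorem imK_of : ImKStmt := by
  intro k r _ hr
  have hk0 : (0 : ℝ) ≤ k := Nat.cast_nonneg k
  have hr0 : (0 : ℝ) ≤ r := Nat.cast_nonneg r
  refine ⟨cK k r, by unfold cK; nlinarith, ?_⟩
  intro m S C₀ N₀ al g₀ c s xs w x κ i₀ hF1 hF2 hC₀ htm hal hg₀ hM hi₀ hB hc hw0 hwx hκ hs hful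
    habs
  exact ⟨im_one hF1 hC₀ htm hal hg₀ hM hc hr ⟨i₀, hi₀⟩ hB hw0 hwx hκ hs hful habs,
    im_two hF2 hC₀ htm hal hg₀ hM hc hr ⟨i₀, hi₀⟩ hB hw0 hwx hκ hs hful habs⟩

end Pool.IMN17
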