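import Pool.Agent.H17.FUL.Shr1
import Pool.Agent.H4.D2.Hvf

/-!
# The images of the heights of the targets

`FrN`: closed affine labels of the places `k, …, k + r - 1` over the time and the earlier places, of
the precisions `s l` and the slopes `xs l`. `imX`: a combination of the heights in natural units.
`ImN`: one image, and two independent images, with closed coefficients are full, given the exact
positions of the first `k` places, the time and the closed data.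
-/

set_option autoImplicit false

namespace Pool.IMN17

open Finset Real MvPolynomial
open Pool.Agent.H49.Ent Pool.Agent.H32.Dense Pool.STK Pool.KA Pool.KSAT Pool.K2S Pool.PB Pool.S6C
open Pool.GEN Pool.REX Pool.REX83 Pool.NFT33 Pool.TOP
open Pool.UNJ (ceI)
open Pool.D2F2 (hgp)

variable {m J : ℕ}

/-- **Closed affine labels** of the places `k + l`, `l < r`: the precisions are `s l`, the slopes are
at most `2 ^ (xs l J)`; `e`: the errors. -/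
structure FrN (F : Fam m J) (c : ℕ → Fin m) (k r : ℕ) (s xs : ℕ → ℝ) (w e : ℝ) (A : F.Ω → Prop)
    {V : Type} (z : PtT F → V) (z' : LnT F → V) (G : V → ℕ → MvPolynomial (Option (Fin m)) ℝ) :
    Prop where
  cls : ∀ ω, A ω → z (ptr F J ω) = z' (slam F ⌊w * J⌋₊ ω)
  deg : ∀ v, ∀ l < r, (G v l).totalDegree ≤ 1
  dep : ∀ v, ∀ l < r, DepC c (k + l) (G v l)
  pos : ∀ ω, A ω → ∀ l < r,
    |hgp F (c (k + l)) (G (z' (slam F ⌊w * J⌋₊ ω)) l) ω| ≤ (2 : ℝ) ^ (-((s l - e) * J))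
  slo : ∀ ω, A ω → ∀ l < r, ∀ o,
    |coeff (Finsupp.single o 1) (G (z' (slam F ⌊w * J⌋₊ ω)) l)| ≤ (2 : ℝ) ^ ((xs l + e) * J)

/-- **The image** `∑ l < r, a l * 2 ^ ((s l + M) J) * (height of the place k + l)`. -/
noncomputable def imX (F : Fam m J) (c : ℕ → Fin m) (k r : ℕ) (s : ℕ → ℝ) (M : ℝ)
    (G : ℕ → MvPolynomial (Option (Fin m)) ℝ) (a : ℕ → ℝ) (ω : F.Ω) : ℝ :=
  ∑ l ∈ range r, a l * ((2 : ℝ) ^ ((s l + M) * J) * hgp F (c (k + l)) (G l) ω)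

/-- **The images of the heights are full** at the window `w`: for closed coefficients of the size
`2 ^ (κ J)`, one of them at least `2 ^ (-κ J)` (`one`), and for two rows of closed coefficients with
a minor of the size `2 ^ (-κ J)` (`two`), the images have `M` full digits behind natural, given the
exact positions of the places `c i`, `i < k`, the time and the closed data; `κ`: the errors, `κ'`:
the loss. -/
structure ImK {m : ℕ} (S : PCl m) (c : ℕ → Fin m) (k r : ℕ) (s xs : ℕ → ℝ) (w x κ κ' : ℝ) :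
    Prop where
  one : Bas S (fun J F A =>
    ∀ (V : Type) (z : PtT F → V) (z' : LnT F → V) (G : V → ℕ → MvPolynomial (Option (Fin m)) ℝ),
    FrN F c k r s xs w κ A z z' G → ∀ ka : V → ℕ → ℝ,
    (∀ ω, A ω → ∀ l < r, |ka (z' (slam F ⌊w * J⌋₊ ω)) l| ≤ (2 : ℝ) ^ (κ * J)) →
    (∀ ω, A ω → ∃ l < r, (2 : ℝ) ^ (-(κ * J)) ≤ |ka (z' (slam F ⌊w * J⌋₊ ω)) l|) →
    ∀ M : ℝ, M ≤ 1 - x → (M - κ') * Real.log 2 * J ≤
      CH (Pool.Agent.H49.Ent.cond F.p A True)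
        (fun ω => ⌊imX F c k r s M (G (z' (slam F ⌊w * J⌋₊ ω))) (ka (z' (slam F ⌊w * J⌋₊ ω))) ω⌋)
        (fun ω => (ceI ((range k).image c) (fun _ => J) (F.x ω),
          (z' (slam F ⌊w * J⌋₊ ω), F.W ω))))
  two : Bas S (fun J F A =>
    ∀ (V : Type) (z : PtT F → V) (z' : LnT F → V) (G : V → ℕ → MvPolynomial (Option (Fin m)) ℝ),
    FrN F c k r s xs w κ A z z' G → ∀ ka : V → Fin 2 → ℕ → ℝ,
    (∀ ω, A ω → ∀ j, ∀ l < r, |ka (z' (slam F ⌊w * J⌋₊ ω)) j l| ≤ (2 : ℝ) ^ (κ * J)) →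
    (∀ ω, A ω → ∃ l < r, ∃ l' < r, (2 : ℝ) ^ (-(κ * J)) ≤
      |ka (z' (slam F ⌊w * J⌋₊ ω)) 0 l * ka (z' (slam F ⌊w * J⌋₊ ω)) 1 l' -
        ka (z' (slam F ⌊w * J⌋₊ ω)) 0 l' * ka (z' (slam F ⌊w * J⌋₊ ω)) 1 l|) →
    ∀ M : ℝ, M ≤ 1 - x → (2 * M - κ') * Real.log 2 * J ≤
      CH (Pool.Agent.H49.Ent.cond F.p A True)
        (fun ω (j : Fin 2) => ⌊imX F c k r s M (G (z' (slam F ⌊w * J⌋₊ ω)))
          (ka (z' (slam F ⌊w * J⌋₊ ω)) j) ω⌋)
        (fun ω => (ceI ((range k).image c) (fun _ => J) (F.x ω),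
          (z' (slam F ⌊w * J⌋₊ ω), F.W ω))))

/-- **Chain absences** near the window `w`: the place `k + l` has no closed label over the earlier
places of a precision greater than `s l + κ`. -/
def AbsN {m : ℕ} (S : PCl m) (c : ℕ → Fin m) (k r : ℕ) (s : ℕ → ℝ) (w κ : ℝ) : Prop :=
  ∀ l < r, ∀ μ : ℝ, κ < μ → s l + μ ≤ 1 → ∃ v₀ : ℝ, w < v₀ ∧ v₀ ≤ 1 ∧ ∀ K, Bas S (fun J F A =>
    ¬ Pool.TOP.LbR 0 F ((range (k + l)).image c) (c (k + l)) K ⌊v₀ * J⌋₊ ⌊(s l + μ) * J⌋₊ A)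

/-- **The places before `k` are full** near the window `w`. -/
def FulN {m : ℕ} (S : PCl m) (c : ℕ → Fin m) (k : ℕ) (w κ : ℝ) : Prop :=
  ∃ w₂ u : ℝ, w < w₂ ∧ w₂ ≤ u ∧ u ≤ w + κ ∧ u < 1 ∧ Ful S ((range k).image c) w₂ u

/-- **The statement** `imK_of`: the loss is `C κ`, where `C` depends on the numbers of the places. -/
def ImKStmt : Prop := ∀ k r : ℕ, 1 ≤ k → 1 ≤ r → ∃ C : ℝ, 1 ≤ C ∧ ∀ {m : ℕ} {S : PCl m} {C₀ : ℝ}
  {N₀ : ℚ → ℚ → ℝ} {al : ℝ} {g₀ : ℝ → ℝ} {c : ℕ → Fin m} {s xs : ℕ → ℝ} {w x κ : ℝ} {i₀ : ℕ},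
  FZX (k + 1) → FZX (k + 2) → 0 ≤ C₀ → TmC S C₀ → 0 < al → (∀ ε : ℝ, 0 < ε → 0 < g₀ ε) →
  ActM N₀ al g₀ → i₀ < k → ActB N₀ S (c i₀) → Set.InjOn c (Set.Iio (k + r)) →
  0 ≤ w → w ≤ x → 0 < κ → (∀ l < r, κ ≤ s l ∧ 0 ≤ xs l ∧ s l + xs l ≤ x) →
  FulN S c k w κ → AbsN S c k r s w κ → ImK S c k r s xs w x κ (C * κ)

end Pool.IMN17
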