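import Pool.Agent.H17.IMN.Sub5
import Pool.Agent.H17.IMN.S
import Pool.Agent.H17.FUL.Shr1

/-!
# The images of a class: all data

`low2`, `low1`: the entropies of the straight images for all data and all events.
-/

set_option autoImplicit false

namespace Pool.IMN17

open Finset Real MvPolynomial
open Pool.Agent.H49.Ent Pool.Agent.H32.Dense Pool.STK Pool.KA Pool.KSAT Pool.K2S Pool.PB Pool.S6C
open Pool.GEN Pool.REX Pool.REX83 Pool.NFT33 Pool.TOP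
open Pool.UNJ (ceI)
open Pool.D2F2 (hgp)
open Pool.OWN72 (bas_low)
open Pool.FUL33 (bgJ wB wJ jw jmul pull bas_abs)
open Pool.FUL17

variable {m N J : ℕ}

/-- One window for the absences. -/
theorem abs_v {S : PCl m} {c : ℕ → Fin m} {k r : ℕ} {s : ℕ → ℝ} {w κ : ℝ} (hκ : 0 < κ)
    (hw1 : w < 1) (hs : ∀ l < r, s l + 2 * κ ≤ 1) (h : AbsN S c k r s w κ) :
    ∃ v₀ : ℝ, w < v₀ ∧ v₀ ≤ 1 ∧ ∀ l < r, ∀ K, Bas S (fun J F A =>
      ¬ LbR 0 F ((range (k + l)).image c) (c (k + l)) K ⌊v₀ * J⌋₊ ⌊(s l + 2 * κ) * J⌋₊ A) := by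
  classical
  have key : ∀ n ≤ r, ∃ v₀ : ℝ, w < v₀ ∧ v₀ ≤ 1 ∧ ∀ l < n, ∀ K, Bas S (fun J F A =>
      ¬ LbR 0 F ((range (k + l)).image c) (c (k + l)) K ⌊v₀ * J⌋₊ ⌊(s l + 2 * κ) * J⌋₊ A) := by
    intro n
    induction n with
    | zero => exact fun _ => ⟨1, hw1, le_rfl, fun l hl => absurd hl (Nat.not_lt_zero l)⟩
    | succ n ih =>
      intro hn
      obtain ⟨a, ha, ha1, hb⟩ := ih (by omega)
      obtain ⟨b, hb0, hb1, hc⟩ := h n hn (2 * κ) (by linarith) (hs n hn)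
      refine ⟨min a b, lt_min ha hb0, (min_le_left _ _).trans ha1, fun l hl K => ?_⟩
      rcases Nat.lt_succ_iff_lt_or_eq.1 hl with h1 | h1
      · refine (hb l h1 K).mono 0 fun J _ F A g1 g2 => g1 (lbr_win ?_ ?_ g2)
        · exact Nat.floor_le_floor (mul_le_mul_of_nonneg_right (min_le_left _ _)
            (Nat.cast_nonneg J))
        · exact Nat.floor_le_of_le (mul_le_of_le_one_left (Nat.cast_nonneg J) ha1)
      · rw [h1]
        refine (hc K).mono 0 fun J _ F A g1 g2 => g1 (lbr_win ?_ ?_ g2)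
        · exact Nat.floor_le_floor (mul_le_mul_of_nonneg_right (min_le_right _ _)
            (Nat.cast_nonneg J))
        · exact Nat.floor_le_of_le (mul_le_of_le_one_left (Nat.cast_nonneg J) hb1)
  exact key r le_rfl

/-- **Two images, all data.** -/
theorem low2 (hF : FZX (N + 2)) {S : PCl m} {C₀ : ℝ} (hC₀ : 0 ≤ C₀) (htm : TmC S C₀)
    {N₀ : ℚ → ℚ → ℝ} {al : ℝ} {g₀ : ℝ → ℝ} (hal : 0 < al)
    (hg₀ : ∀ ε : ℝ, 0 < ε → 0 < g₀ ε) (hM : ActM N₀ al g₀) {c : ℕ → Fin m} {r : ℕ}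
    (hc : Set.InjOn c (Set.Iio (N + r))) (hr : 0 < r) (i₀ : Fin N) (hB : ActB N₀ S (c i₀))
    {s : ℕ → ℝ} {w x κ rr : ℝ} (hw0 : 0 ≤ w) (hwx : w ≤ x) (hκ : 0 < κ)
    (hs : ∀ l < r, κ ≤ s l) (hsx : ∀ l < r, s l ≤ x) (hx1 : x + tht κ r + 16 * κ ≤ 1)
    (hrr : rr ≤ 1 - (x + tht κ r)) (hful : FulN S c N w κ) (habs : AbsN S c N r s w κ) :
    Bas S (fun J F A => ∀ d : DN c N r 2 F, Dn2 s w κ (x + tht κ r + 8 * κ) F d A →
        (∑ j, (rr - sw2 κ r j) - (N + 5 * (2 : ℕ) + 2) * (8 * κ) - κ) * Real.log 2 * J ≤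
        CH (Pool.Agent.H49.Ent.cond F.p A True)
          (fun ω (j : Fin 2) => ⌊(2 : ℝ) ^ ⌊rr * J⌋₊ *
            imR (fun _ => c N) (tgE c N r) (d.sr.ka (d.sr.y w ω)) (F.x ω) j⌋)
          (fun ω => (ceI (univ.image fun i : Fin N => c i) (fun _ => J) (F.x ω),
            (d.sr.y w ω, F.W ω)))) := by
  classical
  have hpos : ∀ (τ : ℝ) (J : ℕ) (F : Fam m J) (A : F.Ω → Prop), S.St τ J F A →
      0 < Pe F.p A := fun τ J F A h => (htm (max τ 1) J F A (lt_max_of_lt_right one_pos)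
        (S.mono (le_max_left _ _) h)).1
  have hl2 : 0 < Real.log 2 := Real.log_pos one_lt_two
  have hθ40 := tht_nn hκ.le r
  obtain ⟨v₀, hv₀, hv1, habs'⟩ := abs_v hκ (by linarith) (fun l hl => by
    have := hsx l hl
    linarith) habs
  obtain ⟨w₂, u, hw₂, hwu, hu, hu1, hfl⟩ := hful
  have key := bas_low (S := S) hpos (Δ := fun _ F => DN c N r 2 F)
    (fun J F d A => Dn2 s w κ (x + tht κ r + 8 * κ) F d A)
    (fun J F d A B h hB => h.sub hB)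
    (fun J F d ω (j : Fin 2) => ⌊(2 : ℝ) ^ ⌊rr * (J : ℝ)⌋₊ *
      imR (fun _ => c N) (tgE c N r) (d.sr.ka (d.sr.y w ω)) (F.x ω) j⌋)
    (fun J F d ω => (ceI (univ.image fun i : Fin N => c i) (fun _ => J) (F.x ω),
      (d.sr.y w ω, F.W ω)))
    (fun J _ _ => (∑ j, (rr - sw2 κ r j) - (N + 5 * (2 : ℕ) + 2) * (8 * κ)) * Real.log 2 * J)
    (C := (∑ j, (rr - sw2 κ r j) - (N + 5 * (2 : ℕ) + 2) * (8 * κ)) * Real.log 2)
    (δ := κ * Real.log 2) (fun _ _ _ => le_rfl) (by positivity) (by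
      intro S' hS' hsub d hd
      obtain ⟨S₁, h1, h2, h3⟩ := sub2 hF hS'
        (fun τ J F A h => hpos τ J F A (hsub τ J F A h)) hC₀
        (fun τ J F A h1 h2 => htm τ J F A h1 (hsub τ J F A h2)) hal hg₀ hM hc hr i₀
        (fun a b h1 h2 h3 h h4 => Bas.sub hsub (hB a b h1 h2 h3 h h4)) hw0 hwx hκ hs hx1 hrr
        hw₂ hwu hu hu1 (fun ρ hρ => Bas.sub hsub (hfl ρ hρ)) hv₀ hv1
        (fun l hl K => Bas.sub hsub (habs' l hl K)) hd
      refine ⟨S₁, h1, h2, h3.mono 0 fun J _ F A h4 => le_trans ?_ h4⟩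
      have : 0 ≤ κ * Real.log 2 / 4 * J := by positivity
      linarith)
  refine key.mono 0 fun J _ F A h d hd => ?_
  have h1 := h d hd
  refine le_trans (le_of_eq ?_) h1
  ring

/-- **One image, all data.** -/
theorem low1 (hF : FZX (N + 1)) {S : PCl m} {C₀ : ℝ} (hC₀ : 0 ≤ C₀) (htm : TmC S C₀)
    {N₀ : ℚ → ℚ → ℝ} {al : ℝ} {g₀ : ℝ → ℝ} (hal : 0 < al)
    (hg₀ : ∀ ε : ℝ, 0 < ε → 0 < g₀ ε) (hM : ActM N₀ al g₀) {c : ℕ → Fin m} {r : ℕ}
    (hc : Set.InjOn c (Set.Iio (N + r))) (hr : 0 < r) (i₀ : Fin N) (hB : ActB N₀ S (c i₀))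
    {s : ℕ → ℝ} {w x κ rr : ℝ} (hw0 : 0 ≤ w) (hwx : w ≤ x) (hκ : 0 < κ)
    (hs : ∀ l < r, κ ≤ s l) (hsx : ∀ l < r, s l ≤ x) (hx1 : x + 16 * κ ≤ 1)
    (hrr : rr ≤ 1 - x) (hful : FulN S c N w κ) (habs : AbsN S c N r s w κ) :
    Bas S (fun J F A => ∀ d : DN c N r 1 F, Dn1 s w κ (x + 8 * κ) F d A →
        (∑ j, (rr - sw1 κ r j) - (N + 5 * (1 : ℕ) + 2) * (8 * κ) - κ) * Real.log 2 * J ≤
        CH (Pool.Agent.H49.Ent.cond F.p A True)
          (fun ω (j : Fin 1) => ⌊(2 : ℝ) ^ ⌊rr * J⌋₊ *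
            imR (fun _ => c N) (tgE c N r) (d.sr.ka (d.sr.y w ω)) (F.x ω) j⌋)
          (fun ω => (ceI (univ.image fun i : Fin N => c i) (fun _ => J) (F.x ω),
            (d.sr.y w ω, F.W ω)))) := by
  classical
  have hpos : ∀ (τ : ℝ) (J : ℕ) (F : Fam m J) (A : F.Ω → Prop), S.St τ J F A →
      0 < Pe F.p A := fun τ J F A h => (htm (max τ 1) J F A (lt_max_of_lt_right one_pos)
        (S.mono (le_max_left _ _) h)).1
  have hl2 : 0 < Real.log 2 := Real.log_pos one_lt_two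
  obtain ⟨v₀, hv₀, hv1, habs'⟩ := abs_v hκ (by linarith) (fun l hl => by
    have := hsx l hl
    linarith) habs
  obtain ⟨w₂, u, hw₂, hwu, hu, hu1, hfl⟩ := hful
  have key := bas_low (S := S) hpos (Δ := fun _ F => DN c N r 1 F)
    (fun J F d A => Dn1 s w κ (x + 8 * κ) F d A)
    (fun J F d A B h hB => h.sub hB)
    (fun J F d ω (j : Fin 1) => ⌊(2 : ℝ) ^ ⌊rr * (J : ℝ)⌋₊ *
      imR (fun _ => c N) (tgE c N r) (d.sr.ka (d.sr.y w ω)) (F.x ω) j⌋)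
    (fun J F d ω => (ceI (univ.image fun i : Fin N => c i) (fun _ => J) (F.x ω),
      (d.sr.y w ω, F.W ω)))
    (fun J _ _ => (∑ j, (rr - sw1 κ r j) - (N + 5 * (1 : ℕ) + 2) * (8 * κ)) * Real.log 2 * J)
    (C := (∑ j, (rr - sw1 κ r j) - (N + 5 * (1 : ℕ) + 2) * (8 * κ)) * Real.log 2)
    (δ := κ * Real.log 2) (fun _ _ _ => le_rfl) (by positivity) (by
      intro S' hS' hsub d hd
      obtain ⟨S₁, h1, h2, h3⟩ := sub1 hF hS'
        (fun τ J F A h => hpos τ J F A (hsub τ J F A h)) hC₀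
        (fun τ J F A h1 h2 => htm τ J F A h1 (hsub τ J F A h2)) hal hg₀ hM hc hr i₀
        (fun a b h1 h2 h3 h h4 => Bas.sub hsub (hB a b h1 h2 h3 h h4)) hw0 hwx hκ hs hx1 hrr
        hw₂ hwu hu hu1 (fun ρ hρ => Bas.sub hsub (hfl ρ hρ)) hv₀ hv1
        (fun l hl K => Bas.sub hsub (habs' l hl K)) hd
      refine ⟨S₁, h1, h2, h3.mono 0 fun J _ F A h4 => le_trans ?_ h4⟩
      have : 0 ≤ κ * Real.log 2 / 4 * J := by positivity
      linarith)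
  refine key.mono 0 fun J _ F A h d hd => ?_
  have h1 := h d hd
  refine le_trans (le_of_eq ?_) h1
  ring

end Pool.IMN17
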