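import Pool.Agent.H17.IMN.Cnv
import Pool.Agent.H91.LA.Own
import Pool.Agent.H91.T4.Af0

/-!
# The natural labels of the images

`natL`: if the combination of the heights and the combination of their velocities are small, the
affine function of the base is a closed label of the image in the window.
-/

set_option autoImplicit false

namespace Pool.IMN17

open Finset Real MvPolynomial
open Pool.Agent.H49.Ent Pool.Agent.H32.Dense Pool.STK Pool.KA Pool.KSAT Pool.K2S Pool.PB Pool.S6C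
open Pool.GEN Pool.REX Pool.REX83 Pool.NFT33 Pool.TOP
open Pool.GRD (LbP)
open Pool.D2F2 (hgp)
open Pool.LA91 (ojet jet lp)
open Pool.FUL33 (st_fac bgJ wB wJ jw jmul pull bas_abs)
open Pool.FUL17

variable {m N R J : ℕ}

/-! ### Affine polynomials -/

/-- The affine polynomial with the coefficients `g`. -/
noncomputable def lnP {σ : Type} [Fintype σ] (g : σ → ℝ) (g0 : ℝ) : MvPolynomial σ ℝ :=
  C g0 + ∑ o, C (g o) * X o

section ln

variable {σ : Type} [Fintype σ] (g : σ → ℝ) (g0 : ℝ)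

theorem eval_lnP (b : σ → ℝ) : eval b (lnP g g0) = g0 + ∑ o, g o * b o := by
  unfold lnP
  rw [map_add, eval_C, map_sum]
  congr 1
  exact Finset.sum_congr rfl fun o _ => by rw [map_mul, eval_C, eval_X]

theorem deg_lnP : (lnP g g0).totalDegree ≤ 1 := by
  unfold lnP
  refine (totalDegree_add _ _).trans (max_le (by rw [totalDegree_C]; exact Nat.zero_le _) ?_)
  refine totalDegree_finsetSum_le fun o _ => ?_
  refine (totalDegree_mul _ _).trans ?_
  rw [totalDegree_C, totalDegree_X]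

theorem pd_lnP (o : σ) : pderiv o (lnP g g0) = C (g o) := by
  classical
  unfold lnP
  rw [map_add, pderiv_C, zero_add, map_sum, Finset.sum_eq_single o]
  · rw [pderiv_C_mul, pderiv_X_self, mul_one]
  · intro p _ hp
    rw [pderiv_C_mul, pderiv_X_of_ne hp, mul_zero]
  · intro ho
    exact absurd (mem_univ o) ho

end ln

/-- The linear part of an affine function. -/
theorem jet1_eq {H : MvPolynomial (Option (Fin m)) ℝ} (h : H.totalDegree ≤ 1)
    (b v : Option (Fin m) → ℝ) : jet 1 H b v = eval v H - eval 0 H := by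
  have hl : ∀ t : ℝ, eval (fun o => b o + t * v o) H = eval b H + t * (eval v H - eval 0 H) := by
    intro t
    rw [Pool.FVL91.eval_one h, Pool.FVL91.eval_one h b, Pool.FVL91.eval_one h v,
      Pool.FVL91.eval_one h 0]
    have e1 : ∑ o, coeff (Finsupp.single o 1) H * (0 : Option (Fin m) → ℝ) o = 0 := by
      simp
    have e2 : ∑ o, coeff (Finsupp.single o 1) H * (b o + t * v o) =
        ∑ o, coeff (Finsupp.single o 1) H * b o + t * ∑ o, coeff (Finsupp.single o 1) H * v o := by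
      rw [Finset.mul_sum, ← Finset.sum_add_distrib]
      exact Finset.sum_congr rfl fun o _ => by ring
    rw [e1, e2]
    ring
  have e : aeval (lp b v) H = Polynomial.C (eval b H) +
      Polynomial.C (eval v H - eval 0 H) * Polynomial.X := by
    refine Polynomial.funext fun t => ?_
    rw [Pool.LA91.eval_alp, hl]
    simp only [Polynomial.eval_add, Polynomial.eval_mul, Polynomial.eval_C, Polynomial.eval_X]
    ring
  unfold jet
  rw [e]
  simp

theorem ojet1_eq {F : Fam m J} {k : Fin m} {G : MvPolynomial (Option (Fin m)) ℝ}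
    (h : G.totalDegree ≤ 1) (ω : F.Ω) :
    ojet F k 1 G ω = F.d ω k - (eval (bd F ω) G - eval 0 G) := by
  unfold ojet
  have h1 : (X (some k) - G : MvPolynomial (Option (Fin m)) ℝ).totalDegree ≤ 1 :=
    (totalDegree_sub _ _).trans (max_le (by rw [totalDegree_X]) h)
  rw [jet1_eq h1, map_sub, map_sub, eval_X, eval_X]
  show F.d ω k - eval (bd F ω) G - (0 - eval 0 G) = _
  ring

section nt

variable {F : Fam m J} {v : Vz m} {φ : Fin N → Fin m} {n : Fin R → Fin m} {E : Finset (Fin m)}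
  {M : ℕ → ℕ} {ka : ∀ (J : ℕ) (F : Fam m J), v.κ J F → Fin R → Fin m → ℝ} {q : ℕ}
  {A : F.Ω → Prop} {c : ℕ → Fin m} {r : ℕ}
  {fr : ∀ (J : ℕ) (F : Fam m J), v.κ J F → ℕ → MvPolynomial (Option (Fin m)) ℝ}
  {al : ∀ (J : ℕ) (F : Fam m J), v.κ J F → Fin R → ℕ → ℝ}
  {ga : ∀ (J : ℕ) (F : Fam m J), v.κ J F → Fin R → MvPolynomial (Option (Fin m)) ℝ}
  {g0 : ∀ (J : ℕ) (F : Fam m J), v.κ J F → Fin R → ℝ}
  {gc : ∀ (J : ℕ) (F : Fam m J), v.κ J F → Fin R → Option (Fin N) → ℝ}

/-- The coefficients of the natural label. -/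
noncomputable def ncf (M : ℕ) (g : Option (Fin N) → ℝ) : Option (Fin (N + R)) → ℝ
  | none => g none / 2 ^ M
  | some i => Fin.addCases (motive := fun _ => ℝ) (fun i => g (some i) / 2 ^ M) (fun _ => 0) i

theorem ncf_base {M : ℕ} {g : Option (Fin N) → ℝ} (i : Fin N) :
    ncf (R := R) M g (some (Fin.castAdd R i)) = g (some i) / 2 ^ M := by
  unfold ncf
  exact Fin.addCases_left (motive := fun _ => ℝ) i

theorem ncf_im {M : ℕ} {g : Option (Fin N) → ℝ} (j : Fin R) :
    ncf (R := R) M g (some (Fin.natAdd N j)) = 0 := by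
  unfold ncf
  exact Fin.addCases_right (motive := fun _ => ℝ) j

theorem sum_ncf {M : ℕ} {g : Option (Fin N) → ℝ} (b : Option (Fin (N + R)) → ℝ) :
    ∑ o, ncf M g o * b o = 1 / 2 ^ M * (g none * b none +
      ∑ i, g (some i) * b (some (Fin.castAdd R i))) := by
  rw [Fintype.sum_option, Fin.sum_univ_add]
  have e1 : ∑ j : Fin R, ncf M g (some (Fin.natAdd N j)) * b (some (Fin.natAdd N j)) = 0 :=
    Finset.sum_eq_zero fun j _ => by rw [ncf_im, zero_mul]
  have e2 : ∑ i : Fin N, ncf M g (some (Fin.castAdd R i)) * b (some (Fin.castAdd R i)) =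
      1 / 2 ^ M * ∑ i, g (some i) * b (some (Fin.castAdd R i)) := by
    rw [Finset.mul_sum]
    exact Finset.sum_congr rfl fun i _ => by
      rw [ncf_base]
      ring
  have e3 : ncf (R := R) M g none = g none / 2 ^ M := rfl
  rw [e1, e2, e3]
  ring

/-- **The natural label of an image.** -/
theorem natL (h : StR F v E (ka J F) (M J) q A)
    (hI : ImR c N r n E (fr J F) (al J F) (ga J F) (ka J F))
    (haff : ∀ y j (b : Option (Fin m) → ℝ), eval b (ga J F y j) = g0 J F y j +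
      (gc J F y j none * b none + ∑ i, gc J F y j (some i) * b (some (φ i))))
    {B : F.Ω → Prop} (hB : Sub B A) (j : Fin R) {w' P' e' ρ' : ℕ}
    (hp : ∀ ω, B ω → 2 ^ v.B J / 2 ^ M J * |∑ l ∈ range r, al J F (v.y J F ω) j l *
      hgp F (c (N + l)) (fr J F (v.y J F ω) l) ω| ≤ 1 / 2 ^ P')
    (hv : ∀ ω, B ω → 1 / 2 ^ M J * |∑ l ∈ range r, al J F (v.y J F ω) j l *
      ojet F (c (N + l)) 1 (fr J F (v.y J F ω) l) ω| ≤ 2 ^ w' / 2 ^ P')
    (hg : ∀ ω, B ω → ∀ o, |gc J F (v.y J F ω) j o| ≤ 2 ^ M J) :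
    Lb (winI v (nwR v φ n E M ka) F) (univ.image (Fin.castAdd R)) (Fin.natAdd N j) 1 e'
      (J - v.B J) w' ρ' P' B := by
  classical
  obtain ⟨Gn, hGn⟩ : ∃ Gn : (v.win F).ζ → MvPolynomial (Option (Fin (N + R))) ℝ, Gn = fun y =>
    lnP (ncf (M J) (gc J F y.1 j)) (1 / 2 ^ M J * (2 ^ v.B J * g0 J F y.1 j +
      (gc J F y.1 j none * (y.2.1.1 : ℝ) + ∑ i, gc J F y.1 j (some i) * (y.2.1.2 (φ i) : ℝ)) -
      imR n E (ka J F y.1) (fun l => (y.2.1.2 l : ℝ)) j)) := ⟨_, rfl⟩
  refine ⟨(v.win F).ζ, fun p => p.2.2, fun s => s.2.1, Gn, ⟨fun y => ?_, fun y b b' hn hb => ?_,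
    fun ω _ => rfl, fun ω hω => ?_, fun ω hω => ?_, fun ω hω b _ o => ?_⟩⟩
  · rw [hGn]
    exact deg_lnP _ _
  · rw [hGn]
    show eval b (lnP _ _) = eval b' (lnP _ _)
    rw [eval_lnP, eval_lnP, sum_ncf, sum_ncf, hn]
    congr 3
    exact Finset.sum_congr rfl fun i _ => by
      rw [hb _ (mem_image_of_mem _ (mem_univ i))]
  · -- the position
    have hA := hB ω hω
    have h1 := hI.rel (v.y J F ω) j (bt F ω)
    have e0 : (fun i => bt F ω (some i)) = F.x ω := rfl
    rw [e0, haff] at h1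
    have e1 : ∀ i : Fin N, bt (winI v (nwR v φ n E M ka) F) ω (some (Fin.castAdd R i)) =
        2 ^ v.B J * F.x ω (φ i) - (fl (v.B J) (F.x1 (v.B J) ω) (φ i) : ℝ) := fun i => by
      show (winI v (nwR v φ n E M ka) F).x ω (Fin.castAdd R i) = _
      rw [h.xb hA, win_x]
    have e2 : bt (winI v (nwR v φ n E M ka) F) ω none = 2 ^ v.B J * bt F ω none -
        (((v.win F).Z ω).2.1.1 : ℝ) := win_tt v F ω
    rw [StR.xim h hA, hGn]
    show |1 / 2 ^ M J * (2 ^ v.B J * imR n E (ka J F (v.y J F ω)) (F.x ω) j -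
        imR n E (ka J F (v.y J F ω)) (fun l => (fl (v.B J) (F.x1 (v.B J) ω) l : ℝ)) j) -
      eval (bt (winI v (nwR v φ n E M ka) F) ω) (lnP (ncf (M J) (gc J F (v.y J F ω) j))
        (1 / 2 ^ M J * (2 ^ v.B J * g0 J F (v.y J F ω) j +
      (gc J F (v.y J F ω) j none * (((v.win F).Z ω).2.1.1 : ℝ) +
        ∑ i, gc J F (v.y J F ω) j (some i) * (fl (v.B J) (F.x1 (v.B J) ω) (φ i) : ℝ)) -
      imR n E (ka J F (v.y J F ω)) (fun l => (fl (v.B J) (F.x1 (v.B J) ω) l : ℝ)) j)))| ≤ _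
    rw [eval_lnP, sum_ncf, h1, e2]
    have e3 : ∑ i, gc J F (v.y J F ω) j (some i) *
        bt (winI v (nwR v φ n E M ka) F) ω (some (Fin.castAdd R i)) =
        2 ^ v.B J * ∑ i, gc J F (v.y J F ω) j (some i) * F.x ω (φ i) -
          ∑ i, gc J F (v.y J F ω) j (some i) * (fl (v.B J) (F.x1 (v.B J) ω) (φ i) : ℝ) := by
      rw [Finset.mul_sum, ← Finset.sum_sub_distrib]
      exact Finset.sum_congr rfl fun i _ => by
        rw [e1]
        ring
    have e4 : ∑ i, gc J F (v.y J F ω) j (some i) * bt F ω (some (φ i)) =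
        ∑ i, gc J F (v.y J F ω) j (some i) * F.x ω (φ i) := rfl
    have e5 : ∑ l ∈ range r, al J F (v.y J F ω) j l * (bt F ω (some (c (N + l))) -
        eval (bt F ω) (fr J F (v.y J F ω) l)) = ∑ l ∈ range r, al J F (v.y J F ω) j l *
        hgp F (c (N + l)) (fr J F (v.y J F ω) l) ω := rfl
    rw [e3, e4, e5]
    have h2 := hp ω hω
    obtain ⟨Y, hY⟩ : ∃ Y, Y = ∑ l ∈ range r, al J F (v.y J F ω) j l *
      hgp F (c (N + l)) (fr J F (v.y J F ω) l) ω := ⟨_, rfl⟩
    rw [← hY] at h2 ⊢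
    have p2 : (0 : ℝ) < 2 ^ v.B J / 2 ^ M J := by positivity
    rw [← abs_of_pos p2, ← abs_mul] at h2
    refine le_trans (le_of_eq ?_) h2
    congr 1
    ring
  · -- the velocity
    have hA := hB ω hω
    have h1 := hI.rel (v.y J F ω) j (bd F ω)
    have h2 := hI.rel (v.y J F ω) j 0
    have e0 : (fun i => bd F ω (some i)) = F.d ω := rfl
    have e0' : imR n E (ka J F (v.y J F ω)) (fun i => (0 : Option (Fin m) → ℝ) (some i)) j = 0 := by
      unfold imR
      simp
    rw [e0, haff] at h1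
    rw [e0', haff] at h2
    have e1 : ∀ i : Fin N, bd (winI v (nwR v φ n E M ka) F) ω (some (Fin.castAdd R i)) =
        F.d ω (φ i) := fun i => by
      show (winI v (nwR v φ n E M ka) F).d ω (Fin.castAdd R i) = _
      rw [h.db hA]
    have e2 : bd (winI v (nwR v φ n E M ka) F) ω none = 1 := rfl
    have e3 : (winI v (nwR v φ n E M ka) F).d ω (Fin.natAdd N j) = 1 / 2 ^ M J *
        imR n E (ka J F (v.y J F ω)) (F.d ω) j := by
      rw [h.d hA, linR_im]
      unfold imR
      rw [mul_sub, Finset.mul_sum]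
      congr 1
      exact Finset.sum_congr rfl fun l _ => by ring
    have e4 : ∑ o, bd (winI v (nwR v φ n E M ka) F) ω o *
        eval (bt (winI v (nwR v φ n E M ka) F) ω) (pderiv o (Gn ((v.win F).Z ω))) =
        1 / 2 ^ M J * (gc J F (v.y J F ω) j none * 1 +
          ∑ i, gc J F (v.y J F ω) j (some i) * F.d ω (φ i)) := by
      have e5 : ∀ o, bd (winI v (nwR v φ n E M ka) F) ω o *
          eval (bt (winI v (nwR v φ n E M ka) F) ω) (pderiv o (Gn ((v.win F).Z ω))) =
          ncf (M J) (gc J F (v.y J F ω) j) o * bd (winI v (nwR v φ n E M ka) F) ω o := by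
        intro o
        rw [hGn]
        show _ * eval _ (pderiv o (lnP (ncf (M J) (gc J F (v.y J F ω) j)) _)) = _
        rw [pd_lnP, eval_C, mul_comm]
      rw [Finset.sum_congr rfl fun o _ => e5 o, sum_ncf, e2]
      congr 2
      exact Finset.sum_congr rfl fun i _ => by rw [e1]
    show |(winI v (nwR v φ n E M ka) F).d ω (Fin.natAdd N j) -
      ∑ o, bd (winI v (nwR v φ n E M ka) F) ω o *
        eval (bt (winI v (nwR v φ n E M ka) F) ω) (pderiv o (Gn ((v.win F).Z ω)))| ≤ _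
    rw [e4, e3, h1]
    have e6 : ∑ l ∈ range r, al J F (v.y J F ω) j l * (bd F ω (some (c (N + l))) -
        eval (bd F ω) (fr J F (v.y J F ω) l)) = ∑ l ∈ range r, al J F (v.y J F ω) j l *
        ojet F (c (N + l)) 1 (fr J F (v.y J F ω) l) ω + ∑ l ∈ range r, al J F (v.y J F ω) j l *
        ((0 : Option (Fin m) → ℝ) (some (c (N + l))) -
          eval (0 : Option (Fin m) → ℝ) (fr J F (v.y J F ω) l)) := by
      rw [← Finset.sum_add_distrib]
      refine Finset.sum_congr rfl fun l hl => ?_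
      rw [ojet1_eq (hI.dfr _ l (mem_range.1 hl))]
      show al J F (v.y J F ω) j l * (F.d ω (c (N + l)) - _) = _
      show _ = _ + al J F (v.y J F ω) j l * (0 - _)
      ring
    rw [e6]
    have h3 := hv ω hω
    obtain ⟨Y, hY⟩ : ∃ Y, Y = ∑ l ∈ range r, al J F (v.y J F ω) j l *
      ojet F (c (N + l)) 1 (fr J F (v.y J F ω) l) ω := ⟨_, rfl⟩
    rw [← hY] at h3 ⊢
    obtain ⟨Y₀, hY₀⟩ : ∃ Y₀, Y₀ = ∑ l ∈ range r, al J F (v.y J F ω) j l *
        ((0 : Option (Fin m) → ℝ) (some (c (N + l))) -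
          eval (0 : Option (Fin m) → ℝ) (fr J F (v.y J F ω) l)) := ⟨_, rfl⟩
    rw [← hY₀] at h2 ⊢
    have e7 : (0 : Option (Fin m) → ℝ) none = 0 := rfl
    have e8 : ∑ i, gc J F (v.y J F ω) j (some i) * (0 : Option (Fin m) → ℝ) (some (φ i)) = 0 :=
      Finset.sum_eq_zero fun i _ => by
        show _ * (0 : ℝ) = 0
        rw [mul_zero]
    rw [e7, e8, mul_zero, add_zero, add_zero] at h2
    have e9 : bd F ω none = 1 := rfl
    have e10 : ∑ i, gc J F (v.y J F ω) j (some i) * bd F ω (some (φ i)) =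
        ∑ i, gc J F (v.y J F ω) j (some i) * F.d ω (φ i) := rfl
    rw [e9, e10]
    have p2 : (0 : ℝ) < 1 / 2 ^ M J := by positivity
    rw [← abs_of_pos p2, ← abs_mul] at h3
    refine le_trans (le_of_eq ?_) h3
    congr 1
    linear_combination (-(1 / 2 ^ M J : ℝ)) * h2
  · rw [hGn]
    show |eval b (pderiv o (lnP _ _))| ≤ _
    rw [pd_lnP, eval_C]
    have h2 : (1 : ℝ) ≤ 2 ^ e' := one_le_pow₀ (by norm_num)
    have h3 : ∀ a : ℝ, |a| ≤ 2 ^ M J → |a / 2 ^ M J| ≤ 2 ^ e' := fun a ha => by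
      rw [abs_div, abs_of_pos (by positivity : (0 : ℝ) < 2 ^ M J)]
      refine le_trans ?_ h2
      rw [div_le_one (by positivity)]
      exact ha
    rcases o with _ | i
    · exact h3 _ (hg ω hω _)
    · refine Fin.addCases (fun i => ?_) (fun j' => ?_) i
      · rw [ncf_base]
        exact h3 _ (hg ω hω _)
      · rw [ncf_im, abs_zero]
        positivity

end nt

end Pool.IMN17
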