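import Pool.Agent.H17.IMN.S

/-!
# Numbers of the closed labels of a class of images, general form

`num_le`, `num_ge`: bounds of the numbers from labels in the windows. `order3`: the greedy order of
two images, if the number of the second one over the base is greater than the number of the first
one. `coreg`: the entropy of the images from a bound of the numbers of the greedy order.
-/

set_option autoImplicit false

namespace Pool.IMN17

open Finset Real MvPolynomial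
open Pool.Agent.H49.Ent Pool.Agent.H32.Dense Pool.STK Pool.KA Pool.KSAT Pool.K2S Pool.PB Pool.S6C
open Pool.GEN Pool.REX Pool.REX83 Pool.NFT33 Pool.TOP
open Pool.GRW (bas_part)
open Pool.FUL33 (st_fac bgJ wB wJ jw jmul pull bas_abs)
open Pool.FUL17

variable {m N R J : ℕ}

section

variable {n' : ℕ} {S : PCl m} {v : Vz m} {f : Nw v n'} {T : PCl n'}
  {L : Finset (Fin n') → Fin n' → ℝ → ℝ → ℝ}

/-- **Upper bounds of the numbers.** -/
theorem num_le (hS : (S.sl (slI v f T)).Ne) (hL : LamW T L) {I : Finset (Fin n')} {k : Fin n'}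
    {w' w'' e P r : ℝ} (hw' : w' < w'') (hw0 : 0 < w'') (hw1 : w'' ≤ 1) (he : 0 < e)
    (hno : ∀ K, Bas S (fun J F A => ¬ Lb (winI v f F) I k K ⌊e * ((J - v.B J : ℕ) : ℝ)⌋₊
      (J - v.B J) ⌊w'' * ((J - v.B J : ℕ) : ℝ)⌋₊ ⌊(r + e) * ((J - v.B J : ℕ) : ℝ)⌋₊
      ⌊(P - e) * ((J - v.B J : ℕ) : ℝ)⌋₊ A)) : L I k w' r ≤ P := by
  by_contra hcon
  push Not at hcon
  obtain ⟨K, hK⟩ := hL.att I k w' w'' r e hw0 hw1 hw' he
  have h2 := pull (S := S) (v := v) (f := f) hK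
  have hsub : ∀ (τ : ℝ) (J : ℕ) (F : Fam m J) (A : F.Ω → Prop),
    (S.sl (slI v f T)).St τ J F A → S.St τ J F A := fun _ _ _ _ h => h.1
  refine bas_abs hS (h2.and (Bas.sub hsub (hno K))) ⟨0, fun J _ F A h3 => ?_⟩
  obtain ⟨⟨V, z, z', G, h4⟩, h5⟩ := h3
  exact h5 ⟨V, z, z', G, h4.mono (Finset.Subset.refl _) le_rfl le_rfl le_rfl
    (Nat.floor_le_floor (mul_le_mul_of_nonneg_right (by linarith) (Nat.cast_nonneg _)))⟩

/-- **Lower bounds of the numbers.** -/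
theorem num_ge (hS : (S.sl (slI v f T)).Ne) (hL : LamW T L) {I : Finset (Fin n')} {k : Fin n'}
    {w' σ r : ℝ} (hσ : σ ≤ 1) (hy : ∀ d : ℝ, 0 < d → w' + d ≤ 1 → ∃ K : ℕ, Bas S (fun J F A =>
      ∃ B : F.Ω → Prop, Sub B A ∧ Pe F.p A ≤ 2 * Pe F.p B ∧
      Lb (winI v f F) I k K ⌊d * ((J - v.B J : ℕ) : ℝ)⌋₊ (J - v.B J)
        ⌊(w' + d) * ((J - v.B J : ℕ) : ℝ)⌋₊ ⌊(r + d) * ((J - v.B J : ℕ) : ℝ)⌋₊
        ⌊σ * ((J - v.B J : ℕ) : ℝ)⌋₊ B)) : σ ≤ L I k w' r := by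
  by_contra hcon
  push Not at hcon
  obtain ⟨d, hd, hd1, h1⟩ := hL.abs I k w' r σ hcon hσ
  obtain ⟨K, hK⟩ := hy d hd hd1
  have h2 := pull (S := S) (v := v) (f := f) (h1 d le_rfl K)
  have hsub : ∀ (τ : ℝ) (J : ℕ) (F : Fam m J) (A : F.Ω → Prop),
    (S.sl (slI v f T)).St τ J F A → S.St τ J F A := fun _ _ _ _ h => h.1
  refine bas_abs hS ((bas_part h2 (c := 2) (by norm_num)).and (Bas.sub hsub hK))
    ⟨0, fun J _ F A h3 => ?_⟩
  obtain ⟨h4, B, hB, hPB, h5⟩ := h3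
  exact h4 B hB hPB h5

end

/-- **Two images**: the number of the second one over the base is greater than the number of the
first one. -/
theorem order3 {L : Finset (Fin (N + 2)) → Fin (N + 2) → ℝ → ℝ → ℝ}
    {ε : Fin (N + 2) → Fin (N + 2)} (hε : Function.Bijective ε)
    {w' δ σ σ₁ P₀ P₁ : ℝ} (hg : Vgr L ε w') (hwδ : w' ≤ δ) (hδσ : δ < σ)
    (h1 : ∀ (I : Finset (Fin (N + 2))) (i : Fin N) (r : ℝ), (∀ j : Fin 2, Fin.natAdd N j ∉ I) →
      Fin.castAdd 2 i ∉ I → r ≤ δ → L I (Fin.castAdd 2 i) w' r ≤ δ)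
    (h2 : ∀ (I : Finset (Fin (N + 2))) (j : Fin 2) (r : ℝ), σ ≤ L I (Fin.natAdd N j) w' r)
    (h3 : ∀ (I : Finset (Fin (N + 2))) (r : ℝ), (∀ j : Fin 2, Fin.natAdd N j ∉ I) →
      L I (Fin.natAdd N 0) w' r ≤ P₀)
    (h4 : ∀ (I : Finset (Fin (N + 2))) (r : ℝ), Fin.natAdd N 1 ∉ I → r ≤ P₀ →
      L I (Fin.natAdd N 1) w' r ≤ P₁)
    (h5 : ∀ (I : Finset (Fin (N + 2))) (r : ℝ), (∀ i : Fin N, Fin.castAdd 2 i ∈ I) →
      σ₁ ≤ L I (Fin.natAdd N 1) w' r) (h6 : P₀ < σ₁) :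
    N * (1 - δ) + ((1 - P₀) + (1 - P₁)) ≤ ∑ j : Fin (N + 2), (1 - vs L ε w' (j + 1)) := by
  classical
  have key := base_first hε hg hwδ hδσ h1 h2
  -- the places of the images
  have himg : ∀ j : Fin 2, ∀ k : Fin (N + 2), ε k = Fin.natAdd N j → N ≤ (k : ℕ) := by
    intro j k hk
    by_contra hc
    obtain ⟨a, ha⟩ := (key N le_rfl).2 k (not_le.1 hc)
    exact base_ne a j (ha.symm.trans hk)
  obtain ⟨pN, hpN⟩ : ∃ pN : Fin (N + 2), (pN : ℕ) = N := ⟨⟨N, by omega⟩, rfl⟩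
  obtain ⟨pM, hpM⟩ : ∃ pM : Fin (N + 2), (pM : ℕ) = N + 1 := ⟨⟨N + 1, by omega⟩, rfl⟩
  have hno : ∀ j : Fin 2, Fin.natAdd N j ∉ (Finset.Iio pN).image ε := by
    intro j hc
    obtain ⟨i, hi, he⟩ := mem_image.1 hc
    have hi1 : i < pN := mem_Iio.1 hi
    have hi2 : (i : ℕ) < (pN : ℕ) := hi1
    have := himg j i he
    omega
  have v1 : vs L ε w' (N + 1) ≤ P₀ := by
    obtain ⟨k, hk⟩ := hε.2 (Fin.natAdd N 0)
    have hk' := himg 0 k hk
    have hjk : pN ≤ k := by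
      rw [Fin.le_def]
      omega
    have h5 := hg pN k hjk
    unfold vn at h5
    rw [hk, hpN] at h5
    exact h5.trans (h3 _ _ hno)
  -- the first `N` places are the base
  obtain ⟨S, hS⟩ : ∃ S : Finset (Fin (N + 2)), S = univ.filter
    (fun l : Fin (N + 2) => (l : ℕ) < N) := ⟨_, rfl⟩
  have hSc : S.card = N := by
    have e1 : S = univ.image (Fin.castAdd 2 : Fin N → Fin (N + 2)) := by
      rw [hS]
      ext l
      rw [mem_filter, mem_image]
      constructor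
      · rintro ⟨-, hl⟩
        exact ⟨⟨l, hl⟩, mem_univ _, Fin.ext rfl⟩
      · rintro ⟨i, -, rfl⟩
        exact ⟨mem_univ _, by rw [Fin.val_castAdd]; exact i.2⟩
    rw [e1, Finset.card_image_of_injective _ (Fin.castAdd_injective N 2), Finset.card_univ,
      Fintype.card_fin]
  have hSsub : S.image ε ⊆ univ.image (Fin.castAdd 2 : Fin N → Fin (N + 2)) := by
    intro q hq
    obtain ⟨l, hl, rfl⟩ := mem_image.1 hq
    rw [hS] at hl
    obtain ⟨a, ha⟩ := (key N le_rfl).2 l (mem_filter.1 hl).2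
    rw [ha]
    exact mem_image_of_mem _ (mem_univ _)
  have hSe : S.image ε = univ.image (Fin.castAdd 2 : Fin N → Fin (N + 2)) := by
    refine Finset.eq_of_subset_of_card_le hSsub ?_
    rw [Finset.card_image_of_injective _ hε.1, hSc,
      Finset.card_image_of_injective _ (Fin.castAdd_injective N 2), Finset.card_univ,
      Fintype.card_fin]
  have hbI : ∀ i : Fin N, Fin.castAdd 2 i ∈ (Finset.Iio pN).image ε := by
    intro i
    have h7 : Fin.castAdd 2 i ∈ S.image ε := by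
      rw [hSe]
      exact mem_image_of_mem _ (mem_univ _)
    obtain ⟨l, hl, he⟩ := mem_image.1 h7
    rw [hS] at hl
    have h9 := (mem_filter.1 hl).2
    refine mem_image.2 ⟨l, mem_Iio.2 ?_, he⟩
    rw [Fin.lt_def, hpN]
    exact h9
  -- the place `N` is the first image
  have hεN : ε pN = Fin.natAdd N 0 := by
    have h7 := vs_succ L ε w' pN
    unfold vn at h7
    rw [hpN] at h7
    obtain ⟨a, ha⟩ : ∃ a, a = ε pN := ⟨_, rfl⟩
    rw [← ha] at h7 ⊢
    have haI : a ∉ (Finset.Iio pN).image ε := by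
      rw [ha]
      intro hc
      obtain ⟨i, hi, he⟩ := mem_image.1 hc
      have hi' : i < pN := mem_Iio.1 hi
      rw [hε.1 he] at hi'
      exact lt_irrefl _ hi'
    revert h7 haI
    clear ha
    refine Fin.addCases (fun i _ haI => absurd (hbI i) haI) (fun j h7 _ => ?_) a
    by_cases hj : j = 0
    · rw [hj]
    · have hj1 : j = 1 := by omega
      rw [hj1] at h7
      have h8 := h5 ((Finset.Iio pN).image ε) (vs L ε w' N) hbI
      linarith
  have v2 : vs L ε w' (N + 1 + 1) ≤ P₁ := by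
    have h7 := vs_succ L ε w' pM
    unfold vn at h7
    rw [hpM] at h7
    rw [h7]
    have hεM : ε pM = Fin.natAdd N 1 := by
      obtain ⟨a, ha⟩ : ∃ a, a = ε pM := ⟨_, rfl⟩
      have hne : pM ≠ pN := fun hc => by
        have := congrArg Fin.val hc
        omega
      rw [← ha]
      revert ha
      refine Fin.addCases (fun i ha => ?_) (fun j ha => ?_) a
      · exfalso
        have h8 := hbI i
        obtain ⟨l, hl, he⟩ := mem_image.1 h8
        have hl' : l < pN := mem_Iio.1 hl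
        rw [ha] at he
        have h9 := hε.1 he
        rw [h9, Fin.lt_def, hpM, hpN] at hl'
        omega
      · by_cases hj : j = 0
        · exfalso
          rw [hj, ← hεN] at ha
          exact hne (hε.1 ha).symm
        · have hj1 : j = 1 := by omega
          rw [hj1]
    rw [hεM]
    refine h4 _ _ (fun hc => ?_) v1
    obtain ⟨i, hi, he⟩ := mem_image.1 hc
    rw [← hεM] at he
    have hi' : i < pM := mem_Iio.1 hi
    rw [hε.1 he] at hi'
    exact lt_irrefl _ hi'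
  rw [Fin.sum_univ_castSucc, Fin.sum_univ_castSucc]
  have s1 : (N : ℝ) * (1 - δ) ≤ ∑ i : Fin N,
      (1 - vs L ε w' (((i.castSucc.castSucc : Fin (N + 2)) : ℕ) + 1)) := by
    have e1 : (N : ℝ) * (1 - δ) = ∑ _i : Fin N, (1 - δ) := by
      rw [Finset.sum_const, Finset.card_univ, Fintype.card_fin, nsmul_eq_mul]
    rw [e1]
    refine Finset.sum_le_sum fun i _ => ?_
    have h5 := (key (i + 1) (by omega)).1
    have e2 : ((i.castSucc.castSucc : Fin (N + 2)) : ℕ) = i := rfl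
    rw [e2]
    linarith
  have e3 : (((Fin.last N).castSucc : Fin (N + 2)) : ℕ) = N := rfl
  have e4 : ((Fin.last (N + 1) : Fin (N + 2)) : ℕ) = N + 1 := rfl
  rw [e3, e4]
  linarith

/-- **The entropy of the digits of the straight images**, in a subclass, from a bound of the numbers
of the greedy order. -/
theorem coreg (hF : FZX (N + R)) {S : PCl m} (hS : S.Ne)
    (hpos : ∀ (τ : ℝ) (J : ℕ) (F : Fam m J) (A : F.Ω → Prop), S.St τ J F A → 0 < Pe F.p A)
    {C₀ : ℝ} (hC₀ : 0 ≤ C₀) (htm : TmC S C₀) {N₀ : ℚ → ℚ → ℝ} {al : ℝ} {g₀ : ℝ → ℝ} (hal : 0 < al)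
    (hg₀ : ∀ ε : ℝ, 0 < ε → 0 < g₀ ε) (hM : ActM N₀ al g₀) {v : Vz m} {φ : Fin N → Fin m}
    (i₀ : Fin N) (hB : ActB N₀ S (φ i₀)) {n : Fin R → Fin m}
    {E : Finset (Fin m)} {M q : ℕ → ℕ}
    {ka : ∀ (J : ℕ) (F : Fam m J), v.κ J F → Fin R → Fin m → ℝ}
    (hst : Bas S (fun J F A => StR F v E (ka J F) (M J) (q J) A))
    {w₃ b ρ : ℝ} (hw₃ : 0 < w₃) (hw₃1 : w₃ ≤ 1)
    (hnum : ∀ (T : PCl (N + R)) (L : Finset (Fin (N + R)) → Fin (N + R) → ℝ → ℝ → ℝ),
      (S.sl (slI v (nwR v φ n E M ka) T)).Ne → LamW T L → ∀ (w' : ℝ)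
      (ε : Fin (N + R) → Fin (N + R)), 0 < w' → w' < w₃ → Function.Bijective ε → Vgr L ε w' →
      b ≤ ∑ j : Fin (N + R), (1 - vs L ε w' (j + 1))) (hρ : 0 < ρ) :
    ∃ S₁ : PCl m, S₁.Ne ∧ (∀ (τ : ℝ) (J : ℕ) (F : Fam m J) (A : F.Ω → Prop),
      S₁.St τ J F A → S.St τ J F A) ∧ Bas S₁ (fun J F A => ∃ ε : Fin (N + R) → Fin (N + R),
      (b - ρ) * Real.log 2 * ((J - v.B J : ℕ) : ℝ) ≤
        CH (Pool.Agent.H49.Ent.cond F.p A True)
          (fun ω (j : Fin (N + R)) => (winI v (nwR v φ n E M ka) F).X (J - v.B J) ω (ε j))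
          (fun ω => ((), (winI v (nwR v φ n E M ka) F).W ω))) := by
  classical
  have hb0 := v.b0
  have hb1 := v.b1
  have hc : 0 < 1 - v.b := by linarith
  have hposC : PosC S := fun τ J F A _ h => hpos τ J F A h
  obtain ⟨T, L, hT, hTs, hL⟩ := lamw (WyI S v (nwR v φ n E M ka)) (wyi_ne hS)
  have hS₁ : (S.sl (slI v (nwR v φ n E M ka) T)).Ne := slI_ne v (nwR v φ n E M ka) hT hTs
  have hTpos : ∀ (τ : ℝ) (J : ℕ) (F : Fam (N + R) J) (A : F.Ω → Prop), T.St τ J F A →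
      0 < Pe F.p A := fun τ J F A h => wyi_pos hpos τ J F A (hTs τ J F A h)
  have hTposB : Bas T (fun _ F A => 0 < Pe F.p A) :=
    ⟨1, one_pos, 0, fun J _ F A hA => hTpos 1 J F A hA⟩
  have hC' : 0 ≤ C₀ * (1 / (1 - v.b)) := by positivity
  have htm' : TmC T (C₀ * (1 / (1 - v.b))) := fun τ J F A h1 h2 =>
    wyi_tmC hC₀ htm τ J F A h1 (hTs τ J F A h2)
  have hact0 := act_st (φ := φ) (n := n) hposC hal.le i₀ hst
  have hact : ActB (NZR S (φ i₀) (al + 1) v.b) T (Fin.castAdd R i₀) := fun x y h1 h2 h3 h h4 =>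
    Bas.sub hTs (hact0 x y h1 h2 h3 h h4)
  have hMr := hM.real hposC hal.le hB hb0 hb1
  have hg' : ∀ ε : ℝ, 0 < ε → 0 < (fun ε : ℝ => min (g₀ (ε / 2)) 1) ε := fun ε hε =>
    lt_min (hg₀ _ (half_pos hε)) one_pos
  obtain ⟨D, hDc, hD⟩ := wv_cover hL (φ := fun i : Fin (N + R) => i) (κ := Fin.castAdd R i₀)
    (fun w h0 h1 => hL.act hT hal (hMr.q hg') hact hTposB h0 h1)
  obtain ⟨w', hw'D, hw'0, hw'1⟩ := (hDc.dense_compl ℝ).exists_between hw₃
  obtain ⟨σp, hWv, hσ0⟩ := hD w' hw'0 (by linarith) hw'D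
  obtain ⟨-, -, hg, hct⟩ := hWv
  have hεb : Function.Bijective ((fun i : Fin (N + R) => i) ∘ σp) := σp.bijective
  have hord := hnum T L hS₁ hL w' _ hw'0 hw'1 hεb hg
  have hex := vst_exa hF hT hC' htm' hL hal hg' hMr hTposB hεb.1 (fun j hj => by
    have h1 : ((fun i : Fin (N + R) => i) ∘ σp) j = Fin.castAdd R i₀ := hσ0 j hj
    rw [h1]
    exact hact) hw'0 (by linarith) hg hct hρ
  refine ⟨_, hS₁, fun _ _ _ _ h => h.1, (pull (S := S) (v := v)
    (f := nwR v φ n E M ka) hex).mono 0 fun J _ F A h => ?_⟩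
  refine ⟨(fun i : Fin (N + R) => i) ∘ σp, le_trans ?_
    (h Unit (fun _ => ()) (fun _ => ()) fun _ _ => rfl)⟩
  refine mul_le_mul_of_nonneg_right (mul_le_mul_of_nonneg_right (by linarith)
    (Real.log_pos one_lt_two).le) (Nat.cast_nonneg _)

end Pool.IMN17
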