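import Pool.Agent.H17.IMN.Dat

/-!
# From the numbers of the images to the entropy of the images

`ful_subA`: as `ful_sub_of`, all losses in units of the family.
-/

set_option autoImplicit false

namespace Pool.IMN17

open Finset Real MvPolynomial
open Pool.Agent.H49.Ent Pool.Agent.H32.Dense Pool.STK Pool.KA Pool.KSAT Pool.K2S Pool.PB Pool.S6C
open Pool.GEN Pool.REX Pool.REX83 Pool.NFT33 Pool.TOP
open Pool.UNJ (ceI)
open Pool.GRD (LbP)
open Pool.GRW (bas_part)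
open Pool.FUL33 (st_fac bgJ wB wJ jw jmul pull bas_abs)
open Pool.FUL17

variable {m N R J : ℕ}

/-- **From the entropy of the images in the window to the family.** -/
theorem ful_subA {S : PCl m}
    (hpos : ∀ (τ : ℝ) (J : ℕ) (F : Fam m J) (A : F.Ω → Prop), S.St τ J F A → 0 < Pe F.p A)
    {φ : Fin N → Fin m} {n : Fin R → Fin m}
    {E : Finset (Fin m)} {w x r η : ℝ} {s : Fin R → ℝ} (hw0 : 0 ≤ w) (hw1 : w < 1)
    (hx : 0 ≤ x) (hr : r ≤ 1 - x)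
    (hη : 0 < η) {d : ∀ (J : ℕ) (F : Fam m J), SR R F}
    (hd : ∀ (τ : ℝ) (J : ℕ) (F : Fam m J) (A : F.Ω → Prop), S.St τ J F A →
      VR E w (x + η) J F (d J F) A)
    (hcore : ∀ (M q : ℕ → ℕ) (P : Fin R → ℝ),
      (M = fun J : ℕ => ⌈(x + η + η) * (J : ℝ)⌉₊ + (m + 1)) →
      (q = fun J : ℕ => ⌊η * (J : ℝ)⌋₊) →
      (P = fun j => (s j + x + 4 * η - w) / (1 - w) + η / (1 - w) / 16) →
      Bas S (fun J F A => StR F (vzR w hw0 hw1 d) E (d J F).ka (M J) (q J) A) →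
      ∃ S₁ : PCl m, S₁.Ne ∧ (∀ (τ : ℝ) (J : ℕ) (F : Fam m J) (A : F.Ω → Prop),
      S₁.St τ J F A → S.St τ J F A) ∧ Bas S₁ (fun J F A => ∃ ε : Fin (N + R) → Fin (N + R),
      ((N * (1 - η / (1 - w) / 2) + ∑ j, (1 - P j)) - η / (1 - w)) *
        Real.log 2 * ((J - (vzR w hw0 hw1 d).B J : ℕ) : ℝ) ≤
        CH (Pool.Agent.H49.Ent.cond F.p A True)
          (fun ω (j : Fin (N + R)) => (winI (vzR w hw0 hw1 d) (nwR (vzR w hw0 hw1 d) φ n E
            M (fun J F => (d J F).ka)) F).X (J - (vzR w hw0 hw1 d).B J) ω (ε j))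
          (fun ω => ((), (winI (vzR w hw0 hw1 d) (nwR (vzR w hw0 hw1 d) φ n E
            M (fun J F => (d J F).ka)) F).W ω)))) :
    ∃ S₁ : PCl m, S₁.Ne ∧ (∀ (τ : ℝ) (J : ℕ) (F : Fam m J) (A : F.Ω → Prop),
      S₁.St τ J F A → S.St τ J F A) ∧ Bas S₁ (fun J F A =>
        (∑ j, (r - s j) - (N + 5 * R + 2) * η) * Real.log 2 * J ≤
        CH (Pool.Agent.H49.Ent.cond F.p A True)
          (fun ω (j : Fin R) => ⌊(2 : ℝ) ^ ⌊r * J⌋₊ *
            imR n E ((d J F).ka ((d J F).y w ω)) (F.x ω) j⌋)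
          (fun ω => (ceI (univ.image φ) (fun _ => J) (F.x ω), ((d J F).y w ω, F.W ω)))) := by
  classical
  obtain ⟨v, hv⟩ : ∃ v : Vz m, v = vzR w hw0 hw1 d := ⟨_, rfl⟩
  have hvb : v.b = w := by rw [hv]; rfl
  obtain ⟨c, hc⟩ : ∃ c, c = x + η := ⟨_, rfl⟩
  have hc0 : 0 ≤ c := by rw [hc]; linarith
  obtain ⟨M, hMd⟩ : ∃ M : ℕ → ℕ, M = fun J : ℕ => ⌈(c + η) * (J : ℝ)⌉₊ + (m + 1) :=
    ⟨_, rfl⟩
  obtain ⟨q, hqd⟩ : ∃ q : ℕ → ℕ, q = fun J : ℕ => ⌊η * (J : ℝ)⌋₊ := ⟨_, rfl⟩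
  subst hv
  have hst : Bas S (fun J F A => StR F (vzR w hw0 hw1 d) E (d J F).ka (M J) (q J) A) := by
    refine ⟨1, one_pos, 0, fun J _ F A hA => ?_⟩
    rw [hMd, hqd]
    refine vr_st hw0 hw1 hc0 hη.le ?_
    rw [hc]
    exact hd 1 J F A hA
  have hw1' : 0 < 1 - w := by linarith
  obtain ⟨P, hP⟩ : ∃ P : Fin R → ℝ, P = fun j =>
    (s j + x + 4 * η - w) / (1 - w) + η / (1 - w) / 16 := ⟨_, rfl⟩
  have hPe : ∀ j, (1 - P j) * (1 - w) = (1 - x - 4 * η) - s j - η / 16 := fun j => by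
    rw [hP]
    field_simp
    ring
  have hMd' : M = fun J : ℕ => ⌈(x + η + η) * (J : ℝ)⌉₊ + (m + 1) := by rw [hMd, hc]
  obtain ⟨S₁, hS₁, hsub, hb⟩ := hcore M q P hMd' hqd hP hst
  refine ⟨S₁, hS₁, hsub, ?_⟩
  have hpB : Bas S₁ (fun _ F A => 0 < Pe F.p A) :=
    ⟨1, one_pos, 0, fun J _ F A hA => hpos 1 J F A (hsub 1 J F A hA)⟩
  have hl2 : 0 < Real.log 2 := Real.log_pos one_lt_two
  have hl1 : Real.log 2 ≤ 1 := by
    have := Real.log_two_lt_d9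
    linarith
  obtain ⟨a, ha⟩ : ∃ a : ℝ, a = ∑ j, (1 - P j) - N * (η / (1 - w) / 2) - η / (1 - w) :=
    ⟨_, rfl⟩
  obtain ⟨Cn, hCn⟩ : ∃ Cn : ℝ, Cn = |a| + N * Real.log 11 + R * Real.log 7 := ⟨_, rfl⟩
  obtain ⟨J₁, hJ₁⟩ := bgJ (a := η / 2 * Real.log 2) (by positivity) Cn
  refine ((hb.and (Bas.sub hsub hst)).and hpB).mono J₁ ?_
  rintro J hJ F A ⟨⟨⟨ε, h1⟩, h2⟩, hA⟩
  have g1 := hJ₁ J hJ
  have hJ0 : (0 : ℝ) ≤ J := Nat.cast_nonneg J
  have hR0 : (0 : ℝ) ≤ R := Nat.cast_nonneg R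
  have hq := isLaw_cond F.isLaw hA
  obtain ⟨X, hX⟩ : ∃ X, X = CH (Pool.Agent.H49.Ent.cond F.p A True)
    (fun ω (j : Fin R) => ⌊(2 : ℝ) ^ ⌊r * (J : ℝ)⌋₊ *
      imR n E ((d J F).ka ((d J F).y w ω)) (F.x ω) j⌋)
    (fun ω => (ceI (univ.image φ) (fun _ => J) (F.x ω), ((d J F).y w ω, F.W ω))) := ⟨_, rfl⟩
  have h3 : (N * (1 - η / (1 - w) / 2) + ∑ j, (1 - P j) - η / (1 - w)) * Real.log 2 *
      ((J - (vzR w hw0 hw1 d).B J : ℕ) : ℝ) ≤
      N * (((J - (vzR w hw0 hw1 d).B J : ℕ) : ℝ) * Real.log 2 + Real.log 11) +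
      R * Real.log (2 * (2 ^ J / (2 ^ M J * 2 ^ ⌊r * (J : ℝ)⌋₊) + 1) + 1) + X := by
    rw [hX]
    have h4 := StR.ext (v := vzR w hw0 hw1 d) (φ := φ) (n := n) (E := E) (M := M) (q := q J)
      (ka := fun J F => (d J F).ka) h2 hA (S := Unit) (fun _ => ()) h1 ⌊r * (J : ℝ)⌋₊
    have h5 : CH (Pool.Agent.H49.Ent.cond F.p A True)
        (fun ω (j : Fin R) => ⌊(2 : ℝ) ^ ⌊r * (J : ℝ)⌋₊ *
          imR n E ((d J F).ka ((vzR w hw0 hw1 d).y J F ω)) (F.x ω) j⌋)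
        (fun ω => (ceI (univ.image φ) (fun _ => J) (F.x ω), ((vzR w hw0 hw1 d).y J F ω,
          F.W ω))) = CH (Pool.Agent.H49.Ent.cond F.p A True)
        (fun ω (j : Fin R) => ⌊(2 : ℝ) ^ ⌊r * (J : ℝ)⌋₊ *
          imR n E ((d J F).ka ((d J F).y w ω)) (F.x ω) j⌋)
        (fun ω => (ceI (univ.image φ) (fun _ => J) (F.x ω), ((d J F).y w ω, F.W ω))) := rfl
    rw [← h5]
    exact h4
  rw [← hX]
  -- the rounding
  have k1 : R * Real.log (2 * (2 ^ J / (2 ^ M J * 2 ^ ⌊r * (J : ℝ)⌋₊) + 1) + 1) ≤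
      R * ((1 - x - r) * J * Real.log 2 + Real.log 7) := by
    refine mul_le_mul_of_nonneg_left ?_ hR0
    have hR := Nat.lt_floor_add_one (r * (J : ℝ))
    have hMJ : x * (J : ℝ) ≤ M J := by
      rw [hMd]
      have h4 := Nat.le_ceil ((c + η) * (J : ℝ))
      have h5 : x * (J : ℝ) ≤ (c + η) * J := mul_le_mul_of_nonneg_right (by linarith) hJ0
      have h6 : (0 : ℝ) ≤ m := Nat.cast_nonneg m
      push_cast
      linarith
    have h1' : (1 : ℝ) ≤ (2 : ℝ) ^ ((1 - x - r) * J) :=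
      Real.one_le_rpow (by norm_num) (mul_nonneg (by linarith) hJ0)
    have h4 : (2 : ℝ) ^ J / (2 ^ M J * 2 ^ ⌊r * (J : ℝ)⌋₊) ≤ 2 * (2 : ℝ) ^ ((1 - x - r) * J) := by
      have e3 : (2 : ℝ) ^ J / (2 ^ M J * 2 ^ ⌊r * (J : ℝ)⌋₊) =
          (2 : ℝ) ^ ((J : ℝ) - ((M J : ℝ) + (⌊r * (J : ℝ)⌋₊ : ℝ))) := by
        rw [Real.rpow_sub (by norm_num), Real.rpow_add (by norm_num), Real.rpow_natCast,
          Real.rpow_natCast, Real.rpow_natCast]
      have e4 : 2 * (2 : ℝ) ^ ((1 - x - r) * J) = (2 : ℝ) ^ (1 + (1 - x - r) * J) := by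
        rw [Real.rpow_add (by norm_num), Real.rpow_one]
      rw [e3, e4]
      refine Real.rpow_le_rpow_of_exponent_le (by norm_num) ?_
      have : (1 - x - r) * (J : ℝ) = J - x * J - r * J := by ring
      linarith
    have h5 : 2 * (2 ^ J / (2 ^ M J * 2 ^ ⌊r * (J : ℝ)⌋₊) + 1) + 1 ≤
        7 * (2 : ℝ) ^ ((1 - x - r) * J) := by linarith
    refine (Real.log_le_log (by positivity) h5).trans (le_of_eq ?_)
    rw [Real.log_mul (by norm_num) (by positivity), Real.log_rpow (by norm_num)]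
    ring
  obtain ⟨J', hJ'⟩ : ∃ J' : ℝ, J' = ((J - (vzR w hw0 hw1 d).B J : ℕ) : ℝ) := ⟨_, rfl⟩
  have hm := jmul (vzR w hw0 hw1 d) a J
  rw [hvb] at hm
  rw [← hJ'] at h3 hm
  obtain ⟨sP, hsP⟩ : ∃ sP, sP = ∑ j, (1 - P j) := ⟨_, rfl⟩
  obtain ⟨sS, hsS⟩ : ∃ sS, sS = ∑ j, s j := ⟨_, rfl⟩
  have hsr : ∑ j, (r - s j) = R * r - sS := by
    rw [Finset.sum_sub_distrib, Finset.sum_const, Finset.card_univ, Fintype.card_fin,
      nsmul_eq_mul, hsS]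
  rw [← hsP] at h3 ha
  rw [hsr]
  have k2 : (N * (1 - η / (1 - w) / 2) + sP - η / (1 - w)) * Real.log 2 * J' - N * (J' * Real.log 2 +
      Real.log 11) = a * J' * Real.log 2 - N * Real.log 11 := by
    rw [ha]
    ring
  have k3 : (a * (1 - w) * J - |a|) * Real.log 2 ≤ a * J' * Real.log 2 :=
    mul_le_mul_of_nonneg_right hm hl2.le
  have kp : sP * (1 - w) = R * (1 - x - 4 * η) - sS - R * (η / 16) := by
    rw [hsP, Finset.sum_mul, Finset.sum_congr rfl fun j _ => hPe j, Finset.sum_sub_distrib,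
      Finset.sum_sub_distrib, Finset.sum_const, Finset.sum_const, Finset.card_univ,
      Fintype.card_fin, nsmul_eq_mul, nsmul_eq_mul, hsS]
  have k4 : a * (1 - w) = R * (1 - x - 4 * η) - sS - (R * (η / 16) + N * (η / 2) + η) := by
    have e5 : a * (1 - w) = sP * (1 - w) - (N * (η / (1 - w) / 2) + η / (1 - w)) * (1 - w) := by
      rw [ha]
      ring
    have e5' : (N * (η / (1 - w) / 2) + η / (1 - w)) * (1 - w) = N * (η / 2) + η := by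
      field_simp
    rw [e5, kp, e5']
    ring
  have hNη : 0 ≤ (N : ℝ) * η := by positivity
  have hRη : 0 ≤ (R : ℝ) * η := by positivity
  have k6 : (R * (1 - x) - sS - (N + 5 * R + 2) * η + η / 2) * (J : ℝ) ≤ a * (1 - w) * J := by
    refine mul_le_mul_of_nonneg_right ?_ hJ0
    rw [k4]
    linarith
  have k7 := mul_le_mul_of_nonneg_right k6 hl2.le
  have k8 : |a| * Real.log 2 ≤ |a| := mul_le_of_le_one_right (abs_nonneg a) hl1
  have e6 : (R * (1 - x) - sS - (N + 5 * R + 2) * η + η / 2) * (J : ℝ) * Real.log 2 =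
    (R * r - sS - (N + 5 * R + 2) * η) * Real.log 2 * J + R * ((1 - x - r) * J * Real.log 2) +
      η / 2 * Real.log 2 * J := by ring
  have e7 : (a * (1 - w) * J - |a|) * Real.log 2 = a * (1 - w) * J * Real.log 2 -
    |a| * Real.log 2 := by ring
  have e8 : R * ((1 - x - r) * J * Real.log 2 + Real.log 7) =
    R * ((1 - x - r) * J * Real.log 2) + R * Real.log 7 := by ring
  linarith

end Pool.IMN17
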