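import Pool.Agent.H17.IMN.Sub

/-!
# The data of the images of a class

`DN`: a closed function, affine labels and rows. `vel_half`: the velocities of the heights are natural
on one half of an event.
-/

set_option autoImplicit false

namespace Pool.IMN17

open Finset Real MvPolynomial
open Pool.Agent.H49.Ent Pool.Agent.H32.Dense Pool.STK Pool.KA Pool.KSAT Pool.K2S Pool.PB Pool.S6C
open Pool.GEN Pool.REX Pool.REX83 Pool.NFT33 Pool.TOP
open Pool.GRD (LbP)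
open Pool.BFL (Pb)
open Pool.D2F2 (hgp)
open Pool.LA91 (ojet own_cls Pb_cond)
open Pool.FUL33 (st_fac bgJ wB wJ jw jmul pull bas_abs)
open Pool.FUL17

variable {m N R J : ℕ}

/-- Finitely many exceptional events. -/
theorem pe_un {Ω : Type} [Fintype Ω] {p : Ω → ℝ} (hp : IsLaw p) (A : Ω → Prop) (n : ℕ)
    (E : ℕ → Ω → Prop) {ε : ℝ} (h : ∀ i < n, Pe p (fun ω => A ω ∧ E i ω) ≤ ε) :
    Pe p (fun ω => A ω ∧ ∃ i < n, E i ω) ≤ n * ε := by
  classical
  induction n with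
  | zero =>
    have : Pe p (fun ω => A ω ∧ ∃ i < 0, E i ω) = 0 := by
      rw [Pe_eq]
      refine Finset.sum_eq_zero fun ω _ => if_neg ?_
      rintro ⟨-, i, hi, -⟩
      omega
    rw [this]
    simp
  | succ n ih =>
    have h1 := ih fun i hi => h i (by omega)
    have h2 := h n (by omega)
    have h3 := Pe_or hp (A := fun ω => A ω ∧ ∃ i < n + 1, E i ω)
      (B₀ := fun ω => A ω ∧ ∃ i < n, E i ω) (B₁ := fun ω => A ω ∧ E n ω) (by
        rintro ω ⟨hA, i, hi, hE⟩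
        rcases Nat.lt_succ_iff_lt_or_eq.1 hi with h4 | h4
        · exact Or.inl ⟨hA, i, h4, hE⟩
        · rw [h4] at hE
          exact Or.inr ⟨hA, hE⟩)
    push_cast
    linarith

/-- **A closed function, affine labels and rows.** -/
structure DN (c : ℕ → Fin m) (N r R : ℕ) (F : Fam m J) : Type where
  z : PtT F → Option F.Ω
  z' : LnT F → Option F.Ω
  fr : Option F.Ω → ℕ → MvPolynomial (Option (Fin m)) ℝ
  al : Option F.Ω → Fin R → ℕ → ℝ
  dfr : ∀ y, ∀ l < r, (fr y l).totalDegree ≤ 1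
  pfr : ∀ y, ∀ l < r, DepC c (N + l) (fr y l)

instance {c : ℕ → Fin m} {r : ℕ} (F : Fam m J) : Nonempty (DN c N r R F) :=
  ⟨⟨fun _ => none, fun _ => none, fun _ _ => 0, fun _ _ _ => 0, fun _ _ _ => by
    rw [totalDegree_zero]
    exact Nat.zero_le _, fun _ _ _ b b' _ _ => by rw [map_zero, map_zero]⟩⟩

section dn

variable {c : ℕ → Fin m} {r : ℕ}

/-- The value of the closed function. -/
noncomputable def DN.y {F : Fam m J} (d : DN c N r R F) (w : ℝ) (ω : F.Ω) : Option F.Ω :=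
  d.z' (slam F ⌊w * J⌋₊ ω)

/-- The slopes of the straight images. -/
noncomputable def DN.sr {F : Fam m J} (d : DN c N r R F) : SR R F :=
  ⟨d.z, d.z', fun y => kaD c N r (d.fr y) (d.al y)⟩

/-- **The conditions for the data**, the part for all images: `cx`: the size of the coefficients. -/
structure DnC (s : ℕ → ℝ) (w e cx : ℝ) (F : Fam m J) (d : DN c N r R F) (A : F.Ω → Prop) :
    Prop where
  cls : ∀ ω, A ω → d.z (ptr F J ω) = d.y w ω
  pos : ∀ ω, A ω → ∀ l < r,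
    |hgp F (c (N + l)) (d.fr (d.y w ω) l) ω| ≤ (2 : ℝ) ^ (-((s l - e) * J))
  co : ∀ ω, A ω → ∀ j o, |coeff (Finsupp.single o 1) (rwP c N r (d.fr (d.y w ω))
    (d.al (d.y w ω) j))| + 1 ≤ (2 : ℝ) ^ (cx * J)

theorem DnC.sub {s : ℕ → ℝ} {w e cx : ℝ} {F : Fam m J} {d : DN c N r R F} {A B : F.Ω → Prop}
    (h : DnC s w e cx F d A) (hB : Sub B A) : DnC s w e cx F d B :=
  ⟨fun ω hω => h.cls ω (hB ω hω), fun ω hω => h.pos ω (hB ω hω), fun ω hω => h.co ω (hB ω hω)⟩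

theorem DnC.vr {s : ℕ → ℝ} {w e cx : ℝ} {F : Fam m J} {d : DN c N r R F} {A : F.Ω → Prop}
    (h : DnC s w e cx F d A) : VR (tgE c N r) w cx J F d.sr A := by
  refine ⟨fun ω hω => h.cls ω hω, fun ω hω j l _ => ?_⟩
  refine le_trans ?_ (h.co ω hω j (some l))
  show |kaD c N r (d.fr (d.y w ω)) (d.al (d.y w ω)) j l| ≤ _
  unfold kaD
  refine (abs_sub _ _).trans ?_
  rw [add_comm]
  refine add_le_add_right ?_ _
  split_ifs
  · rw [abs_one]
  · rw [abs_zero]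
    norm_num

/-- **The velocities of the heights are natural on one half of the event.** -/
theorem vel_half {S : PCl m} {C₀ : ℝ} (htm : TmC S C₀) (hr : 0 < r) {s : ℕ → ℝ} {w e cx : ℝ}
    (hw0 : 0 ≤ w) (hw1 : w < 1) (hs : ∀ l < r, e ≤ s l)
    {d : ∀ (J : ℕ) (F : Fam m J), DN c N r R F}
    (hd : Bas S (fun J F A => DnC s w e cx F (d J F) A)) {ε : ℝ} (hε : 0 < ε) :
    Bas S (fun J F A => ∃ B : F.Ω → Prop, Sub B A ∧ Pe F.p A ≤ 2 * Pe F.p B ∧
      ∀ ω, B ω → ∀ l < r, |ojet F (c (N + l)) 1 ((d J F).fr ((d J F).y w ω) l) ω| ≤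
        (2 : ℝ) ^ ((w + ε + e - s l) * J)) := by
  classical
  have hr0 : (0 : ℝ) < r := by exact_mod_cast hr
  have hown := bas_lt fun l (_ : l < r) => own_cls htm ((range (N + l)).image c) (c (N + l)) 1 1
    hw0 hw1 (η := 1 / (2 * r)) (by positivity) (half_pos hε)
  obtain ⟨J₁, hJ₁⟩ := bgJ (half_pos hε) 1
  have hpos := Pool.GRW.tmc_bas htm one_pos
  refine ((hown.and hd).and hpos).mono J₁ ?_
  rintro J hJ F A ⟨⟨h1, h2⟩, hA, -⟩
  have g1 := hJ₁ J hJ
  have hJ0 : (0 : ℝ) ≤ J := Nat.cast_nonneg J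
  obtain ⟨E, hE⟩ : ∃ E : ℕ → F.Ω → Prop, E = fun l ω =>
    ¬ |ojet F (c (N + l)) 1 ((d J F).fr ((d J F).y w ω) l) ω| ≤
      2 ^ ((ε / 2 + (1 : ℕ) * w) * J) * (1 / 2 ^ ⌊(s l - e) * J⌋₊) := ⟨_, rfl⟩
  have h3 : ∀ l < r, Pe F.p (fun ω => A ω ∧ E l ω) ≤ 1 / (2 * r) * Pe F.p A := by
    intro l hl
    have h4 := h1 l hl ⌊(s l - e) * J⌋₊ (Option F.Ω) (d J F).z (d J F).z'
      (fun y => (d J F).fr y l) ⟨fun y => (d J F).dfr y l hl, fun y b b' hn hb =>
        (d J F).pfr y l hl b b' hn fun i hi => hb (c i) (mem_image_of_mem _ (mem_range.2 hi)),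
        fun ω hω => h2.cls ω hω, fun ω hω => ?_⟩
    · rw [Pb_cond hA, div_le_iff₀ hA] at h4
      rw [hE]
      exact h4
    · refine (h2.pos ω hω l hl).trans ?_
      have h5 : (⌊(s l - e) * (J : ℝ)⌋₊ : ℝ) ≤ (s l - e) * J :=
        Nat.floor_le (mul_nonneg (by linarith [hs l hl]) hJ0)
      rw [Real.rpow_neg (by norm_num), one_div]
      exact inv_anti₀ (by positivity) (np_le h5)
  have h4 := pe_un F.isLaw A r E h3
  have e1 : (r : ℝ) * (1 / (2 * r) * Pe F.p A) = 1 / 2 * Pe F.p A := by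
    field_simp
  rw [e1] at h4
  refine ⟨fun ω => A ω ∧ ¬ ∃ i < r, E i ω, fun ω hω => hω.1, ?_, fun ω hω l hl => ?_⟩
  · have h5 := Pe_or F.isLaw (A := A) (B₀ := fun ω => A ω ∧ ∃ i < r, E i ω)
      (B₁ := fun ω => A ω ∧ ¬ ∃ i < r, E i ω) (fun ω hω => by
        by_cases h : ∃ i < r, E i ω
        · exact Or.inl ⟨hω, h⟩
        · exact Or.inr ⟨hω, h⟩)
    linarith
  · have h5 := hω.2
    push Not at h5
    have h6 := h5 l hl
    rw [hE] at h6
    have h7 := not_not.1 h6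
    refine h7.trans ?_
    have h8 := Nat.lt_floor_add_one ((s l - e) * (J : ℝ))
    have e2 : (2 : ℝ) ^ ((ε / 2 + (1 : ℕ) * w) * J) * (1 / 2 ^ ⌊(s l - e) * J⌋₊) =
        (2 : ℝ) ^ ((ε / 2 + (1 : ℕ) * w) * J - (⌊(s l - e) * J⌋₊ : ℝ)) := by
      rw [Real.rpow_sub (by norm_num) (_ : ℝ) (_ : ℝ), Real.rpow_natCast]
      ring
    rw [e2]
    refine p_le ?_
    have e3 : (ε / 2 + (1 : ℕ) * w) * (J : ℝ) = ε / 2 * J + w * J := by
      rw [Nat.cast_one]
      ring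
    have e4 : (w + ε + e - s l) * (J : ℝ) = w * J + ε / 2 * J + ε / 2 * J - (s l - e) * J := by
      ring
    linarith

end dn

end Pool.IMN17
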