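import Pool.Agent.H17.IMN.Sub2

/-!
# The images of a class

`sub2`: two images in echelon form, the entropy in a subclass. `sub1`: one image.
-/

set_option autoImplicit false

namespace Pool.IMN17

open Finset Real MvPolynomial
open Pool.Agent.H49.Ent Pool.Agent.H32.Dense Pool.STK Pool.KA Pool.KSAT Pool.K2S Pool.PB Pool.S6C
open Pool.GEN Pool.REX Pool.REX83 Pool.NFT33 Pool.TOP
open Pool.UNJ (ceI)
open Pool.D2F2 (hgp)
open Pool.LA91 (ojet)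
open Pool.FUL33 (st_fac bgJ wB wJ jw jmul pull bas_abs)
open Pool.FUL17

variable {m N R J : ℕ}

/-! ### The thresholds -/

/-- The thresholds of the first row. -/
noncomputable def nua (κ : ℝ) (l : ℕ) : ℝ := (3 + 6 * l) * κ

/-- The change of units of the first row. -/
noncomputable def tht (κ : ℝ) (r : ℕ) : ℝ := (6 * r + 40) * κ

/-- The thresholds of the pair. -/
noncomputable def nub (κ : ℝ) (r l : ℕ) : ℝ := tht κ r + (l + 1) * (tht κ r + 10 * κ)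

theorem nua_mono {κ : ℝ} (hκ : 0 ≤ κ) {l l' : ℕ} (h : l ≤ l') : nua κ l ≤ nua κ l' := by
  have h1 : (l : ℝ) ≤ l' := by exact_mod_cast h
  unfold nua
  exact mul_le_mul_of_nonneg_right (by linarith) hκ

theorem nua_lt {κ : ℝ} (hκ : 0 ≤ κ) {l l' : ℕ} (h : l < l') : nua κ l + 6 * κ ≤ nua κ l' := by
  have h1 : (l : ℝ) + 1 ≤ l' := by exact_mod_cast h
  unfold nua
  nlinarith

theorem tht_nn {κ : ℝ} (hκ : 0 ≤ κ) (r : ℕ) : 40 * κ ≤ tht κ r := by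
  unfold tht
  have : (0 : ℝ) ≤ r := Nat.cast_nonneg r
  nlinarith

theorem nua_tht {κ : ℝ} (r : ℕ) : nua κ r + 37 * κ = tht κ r := by
  unfold nua tht
  ring

theorem nub_mono {κ : ℝ} (hκ : 0 ≤ κ) {r l l' : ℕ} (h : l ≤ l') : nub κ r l ≤ nub κ r l' := by
  have h1 : (l : ℝ) ≤ l' := by exact_mod_cast h
  have h2 := tht_nn hκ r
  unfold nub
  have := mul_le_mul_of_nonneg_right (show (l : ℝ) + 1 ≤ l' + 1 by linarith)
    (show 0 ≤ tht κ r + 10 * κ by linarith)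
  linarith

theorem nub_succ {κ : ℝ} (r l : ℕ) : nub κ r (l + 1) = nub κ r l + (tht κ r + 10 * κ) := by
  unfold nub
  push_cast
  ring

theorem nub_nn {κ : ℝ} (hκ : 0 ≤ κ) (r l : ℕ) : tht κ r ≤ nub κ r l := by
  have h2 := tht_nn hκ r
  unfold nub
  have : 0 ≤ ((l : ℝ) + 1) * (tht κ r + 10 * κ) := mul_nonneg (by positivity) (by linarith)
  linarith

/-- **The conditions for the data of two images.** -/
structure Dn2 {c : ℕ → Fin m} {r : ℕ} (s : ℕ → ℝ) (w κ cx : ℝ) (F : Fam m J) (d : DN c N r 2 F)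
    (A : F.Ω → Prop) : Prop where
  c : DnC s w κ cx F d A
  sz : ∀ ω, A ω → ∀ l < r, |d.al (d.y w ω) 1 l| ≤ (2 : ℝ) ^ ((s l + 2 * κ) * J)
  ra : ∀ ω, A ω → ∃ l₁ < r, (2 : ℝ) ^ ((s l₁ + tht κ r - nua κ l₁) * J) ≤ |d.al (d.y w ω) 0 l₁| ∧
    ∀ l, l₁ < l → l < r →
      |d.al (d.y w ω) 0 l| ≤ (2 : ℝ) ^ ((s l + tht κ r - nua κ l + κ) * J)
  rb : ∀ ω, A ω → ∃ l₁ < r, d.al (d.y w ω) 0 l₁ = 0 ∧
    (2 : ℝ) ^ ((s l₁ - nub κ r l₁) * J) ≤ |d.al (d.y w ω) 1 l₁| ∧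
    ∀ l, l₁ < l → l < r →
      |d.al (d.y w ω) 0 l| ≤ (2 : ℝ) ^ ((s l + tht κ r - nub κ r l + κ) * J) ∧
      |d.al (d.y w ω) 1 l| ≤ (2 : ℝ) ^ ((s l - nub κ r l + κ) * J)

theorem Dn2.sub {c : ℕ → Fin m} {r : ℕ} {s : ℕ → ℝ} {w κ cx : ℝ} {F : Fam m J}
    {d : DN c N r 2 F} {A B : F.Ω → Prop} (h : Dn2 s w κ cx F d A) (hB : Sub B A) :
    Dn2 s w κ cx F d B :=
  ⟨h.c.sub hB, fun ω hω => h.sz ω (hB ω hω), fun ω hω => h.ra ω (hB ω hω),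
    fun ω hω => h.rb ω (hB ω hω)⟩

/-- The numbers of the two images. -/
noncomputable def sw2 (κ : ℝ) (r : ℕ) : Fin 2 → ℝ :=
  ![nua κ r + 2 * κ - tht κ r, nub κ r r + 2 * κ]

section num

variable {S : PCl m} {v : Vz m} {φ : Fin N → Fin m} {n : Fin 2 → Fin m} {E : Finset (Fin m)}
  {M q : ℕ → ℕ}
  {ka : ∀ (J : ℕ) (F : Fam m J), v.κ J F → Fin 2 → Fin m → ℝ} {T : PCl (N + 2)}
  {L : Finset (Fin (N + 2)) → Fin (N + 2) → ℝ → ℝ → ℝ} {c : ℕ → Fin m} {r : ℕ}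
  {fr : ∀ (J : ℕ) (F : Fam m J), v.κ J F → ℕ → MvPolynomial (Option (Fin m)) ℝ}
  {al : ∀ (J : ℕ) (F : Fam m J), v.κ J F → Fin 2 → ℕ → ℝ}
  {ga : ∀ (J : ℕ) (F : Fam m J), v.κ J F → Fin 2 → MvPolynomial (Option (Fin m)) ℝ}
  {g0 : ∀ (J : ℕ) (F : Fam m J), v.κ J F → Fin 2 → ℝ}
  {gc : ∀ (J : ℕ) (F : Fam m J), v.κ J F → Fin 2 → Option (Fin N) → ℝ}
  {s : ℕ → ℝ}

/-- **The numbers of the greedy order**, two images. -/
theorem num2 (hS : (S.sl (slI v (nwR v φ n E M ka) T)).Ne) (hL : LamW T L)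
    (hposB : Bas S (fun _ F A => 0 < Pe F.p A))
    (hst : Bas S (fun J F A => StR F v E (ka J F) (M J) (q J) A))
    (hI : ∀ (J : ℕ) (F : Fam m J), ImR c N r n E (fr J F) (al J F) (ga J F) (ka J F))
    (haff : ∀ (J : ℕ) (F : Fam m J) y j (b : Option (Fin m) → ℝ), eval b (ga J F y j) =
      g0 J F y j + (gc J F y j none * b none + ∑ i, gc J F y j (some i) * b (some (φ i))))
    (hφ : ∀ i : Fin N, φ i = c i) (hφi : Function.Injective φ) (hr : 0 < r)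
    {x κ θ ζ P₀ P₁ w₂ u v₀ w₃ w' : ℝ}
    (hht : Bas S (fun J F A => HtS F v c N r s κ (fr J F) A))
    (hra : Bas S (fun J F A => RwA F v r s (nua κ) θ κ (fun y => al J F y 0) A))
    (hrb : Bas S (fun J F A => RwB F v r s (nub κ r) θ κ (fun y => al J F y) A))
    (hal : Bas S (fun J F A => ∀ ω, A ω → ∀ l < r,
      |al J F (v.y J F ω) 1 l| ≤ (2 : ℝ) ^ ((s l + 2 * κ) * J)))
    (hgc : Bas S (fun J F A => ∀ ω, A ω → ∀ o, |gc J F (v.y J F ω) 1 o| ≤ 2 ^ M J))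
    (hvel : ∀ ε : ℝ, 0 < ε → Bas S (fun J F A => ∃ B : F.Ω → Prop, Sub B A ∧
      Pe F.p A ≤ 2 * Pe F.p B ∧ ∀ ω, B ω → ∀ l < r,
        |ojet F (c (N + l)) 1 (fr J F (v.y J F ω) l) ω| ≤ (2 : ℝ) ^ ((v.b + ε + κ - s l) * J)))
    (habs : ∀ l < r, ∀ K, Bas S (fun J F A =>
      ¬ LbR 0 F ((range (N + l)).image c) (c (N + l)) K ⌊v₀ * J⌋₊ ⌊(s l + 2 * κ) * J⌋₊ A))
    (hful : Ful S (univ.image φ) w₂ u)
    (hκ : 0 < κ) (hθ : θ = tht κ r) (hs : ∀ l < r, κ ≤ s l)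
    (hx1 : x + θ + 16 * κ ≤ 1) (hwx : v.b ≤ x) (hζ0 : 0 < ζ) (hζ1 : ζ ≤ 1)
    (hζe : ζ * (1 - v.b) = 8 * κ) (hwu : w₂ ≤ u) (hu : u ≤ v.b + κ) (hu1 : u < 1)
    (hv1 : v₀ ≤ 1) (hw₃0 : 0 < w₃) (hw₃ζ : w₃ ≤ ζ / 2) (hw₃2 : v.b + w₃ * (1 - v.b) < w₂)
    (hw₃0 : v.b + w₃ * (1 - v.b) < v₀)
    (hP0 : (P₀ - ζ / 16) * (1 - v.b) = nua κ r + 2 * κ - θ + (x + θ) + 4 * (8 * κ) - v.b)
    (hP1 : (P₁ - ζ / 16) * (1 - v.b) = nub κ r r + 2 * κ + (x + θ) + 4 * (8 * κ) - v.b)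
    (hm0 : ∀ J : ℕ, (x + θ + 16 * κ) * J ≤ M J)
    (hm1 : ∀ J : ℕ, (M J : ℝ) ≤ (x + θ + 16 * κ) * J + (m + 2))
    (hqJ : ∃ J₀ : ℕ, ∀ J ≥ J₀, ⌊3 * ζ / 4 * ((J - v.B J : ℕ) : ℝ)⌋₊ ≤ q J)
    (hw'0 : 0 < w') (hw'1 : w' < w₃) {ε : Fin (N + 2) → Fin (N + 2)}
    (hεb : Function.Bijective ε) (hg : Vgr L ε w') :
    N * (1 - ζ / 2) + ((1 - P₀) + (1 - P₁)) ≤ ∑ j : Fin (N + 2), (1 - vs L ε w' (j + 1)) := by
  have hb0 := v.b0
  have hb1 := v.b1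
  have hw1' : 0 < 1 - v.b := by linarith
  have hθ40 : 40 * κ ≤ θ := by rw [hθ]; exact tht_nn hκ.le r
  have hnt : nua κ r + 37 * κ = θ := by rw [hθ]; exact nua_tht r
  have hn0 : 0 ≤ nua κ r := by
    unfold nua
    positivity
  have hP0' : P₀ * (1 - v.b) = nua κ r + 2 * κ + x + 32 * κ - v.b + κ / 2 := by
    have e1 : P₀ * (1 - v.b) = (P₀ - ζ / 16) * (1 - v.b) + ζ * (1 - v.b) / 16 := by ring
    rw [e1, hP0, hζe]
    ring
  have hP00 : 0 ≤ P₀ := by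
    by_contra hcon
    push Not at hcon
    have := mul_neg_of_neg_of_pos hcon hw1'
    linarith
  obtain ⟨σ₁, hσ₁⟩ : ∃ σ₁, σ₁ = (x + θ + 16 * κ - v.b - 4 * κ) / (1 - v.b) := ⟨_, rfl⟩
  have hσ₁e : σ₁ * (1 - v.b) = x + θ + 16 * κ - v.b - 4 * κ := by
    rw [hσ₁]
    field_simp
  have hσ₁0 : 0 ≤ σ₁ := by
    rw [hσ₁]
    exact div_nonneg (by linarith) hw1'.le
  have hσ₁1 : σ₁ ≤ 1 := by
    rw [hσ₁, div_le_one hw1']
    linarith
  have hPσ : P₀ < σ₁ := by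
    refine lt_of_mul_lt_mul_right ?_ hw1'.le
    rw [hP0', hσ₁e]
    linarith
  have h1 : ∀ (I : Finset (Fin (N + 2))) (i : Fin N) (ρ : ℝ),
      (∀ j : Fin 2, Fin.natAdd N j ∉ I) → Fin.castAdd 2 i ∉ I → ρ ≤ ζ / 2 →
      L I (Fin.castAdd 2 i) w' ρ ≤ ζ / 2 := fun I i ρ hI' hi hρ =>
    base_le hS hL hposB hst hφi hw₃2 hwu hu1 hful hw'1 (by linarith) (by linarith)
      (show 0 < ζ / 16 by linarith) (by linarith) (by linarith) (by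
        have : ζ / 2 * (1 - v.b) = 4 * κ := by
          have : ζ / 2 * (1 - v.b) = ζ * (1 - v.b) / 2 := by ring
          rw [this, hζe]
          ring
        rw [this]
        linarith) (by linarith) hI' hi
  have h2 : ∀ (I : Finset (Fin (N + 2))) (j : Fin 2) (ρ : ℝ),
      3 * ζ / 4 ≤ L I (Fin.natAdd N j) w' ρ := fun I j ρ =>
    im_ge0 hS hL hst (by linarith) hqJ j I w' ρ
  have h3 : ∀ (I : Finset (Fin (N + 2))) (ρ : ℝ), (∀ j : Fin 2, Fin.natAdd N j ∉ I) →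
      L I (Fin.natAdd N 0) w' ρ ≤ P₀ := fun I ρ hI' =>
    im_leA (g := κ) (e := κ) (θ := θ) (s := s) (ν := nua κ) (νm := nua κ r) (C := m + 2)
      (μ := 2 * κ) (m₀ := x + θ + 16 * κ) hS hL hst hI hφ hr 0 hht hra habs hw₃0 hv1 hw'1
      (by linarith) (by linarith) hm1 (fun l hl => by have := hs l hl; linarith)
      (show 0 < ζ / 16 by linarith) hκ
      (fun l hl => nua_mono hκ.le hl.le) (fun l l' hl _ => by
        have := nua_lt hκ.le hl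
        linarith) (by
        have : θ + v.b + (P₀ - ζ / 16) * (1 - v.b) = θ + v.b + (nua κ r + 2 * κ - θ + (x + θ) +
          4 * (8 * κ) - v.b) := by rw [hP0]
        linarith) hI'
  have h4 : ∀ (I : Finset (Fin (N + 2))) (ρ : ℝ), Fin.natAdd N 1 ∉ I → ρ ≤ P₀ →
      L I (Fin.natAdd N 1) w' ρ ≤ P₁ := fun I ρ hI' hρ =>
    (hL.mono I I _ w' w' ρ P₀ (Finset.Subset.refl _) le_rfl hρ).trans
      (im_leB (g := κ) (e := κ) (θ := θ) (s := s) (ν := nub κ r) (νm := nub κ r r) (C := m + 2)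
      (μ := 2 * κ) (m₀ := x + θ + 16 * κ) hS hL hst hI hφ hr hht hrb habs hw₃0 hv1 hw'1
      (by linarith) (by linarith) hm0 hm1 (fun l hl => by have := hs l hl; linarith)
      (by linarith) (by linarith) (show 0 < ζ / 16 by linarith) hκ hκ.le
      (fun l hl => nub_mono hκ.le hl.le) (fun l l' hl => nub_mono hκ.le hl) (fun l => by
        rw [nub_succ, ← hθ]
        have : ζ / 16 * (1 - v.b) = κ / 2 := by
          have : ζ / 16 * (1 - v.b) = ζ * (1 - v.b) / 16 := by ring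
          rw [this, hζe]
          ring
        rw [this]
        linarith) hP00 (by
        have h5 : (P₀ + ζ / 16) * (1 - v.b) = P₀ * (1 - v.b) + ζ * (1 - v.b) / 16 := by ring
        rw [h5, hP0', hζe]
        have h6 := nub_succ (κ := κ) r 0
        have h7 := nub_nn hκ.le r 0
        rw [← hθ] at h6 h7
        have h8 : nub κ r 1 = nub κ r (0 + 1) := rfl
        rw [h8, h6]
        linarith) (by
        have : v.b + (P₁ - ζ / 16) * (1 - v.b) = v.b + (nub κ r r + 2 * κ + (x + θ) +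
          4 * (8 * κ) - v.b) := by rw [hP1]
        linarith) hI')
  have h5 : ∀ (I : Finset (Fin (N + 2))) (ρ : ℝ), (∀ i : Fin N, Fin.castAdd 2 i ∈ I) →
      σ₁ ≤ L I (Fin.natAdd N 1) w' ρ := fun I ρ hI' =>
    im_geN (e := κ) (e₂ := 2 * κ) (s := s) (m₀ := x + θ + 16 * κ) (r := r) hS hL hst hI haff 1
      hht hal hgc hvel hm0 hw'0.le hσ₁0 hσ₁1 (by rw [hσ₁e]; linarith) I hI'
  exact order3 hεb hg (by linarith) (by linarith) h1 h2 h3 h4 h5 hPσ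

end num

end Pool.IMN17
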