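import Pool.Agent.H17.IMN.Sub3

/-!
# The images of a class: the entropies in a subclass

`sub2`: two images in echelon form. `sub1`: one image.
-/

set_option autoImplicit false

namespace Pool.IMN17

open Finset Real MvPolynomial
open Pool.Agent.H49.Ent Pool.Agent.H32.Dense Pool.STK Pool.KA Pool.KSAT Pool.K2S Pool.PB Pool.S6C
open Pool.GEN Pool.REX Pool.REX83 Pool.NFT33 Pool.TOP
open Pool.UNJ (ceI)
open Pool.D2F2 (hgp)
open Pool.LA91 (ojet)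
open Pool.FUL33 (st_fac bgJ wB wJ jw jmul pull bas_abs)
open Pool.FUL17

variable {m N R J : ℕ}

theorem img_phi (c : ℕ → Fin m) (N : ℕ) : (univ.image fun i : Fin N => c i) = (range N).image c := by
  ext a
  rw [mem_image, mem_image]
  constructor
  · rintro ⟨i, -, rfl⟩
    exact ⟨i, mem_range.2 i.2, rfl⟩
  · rintro ⟨i, hi, rfl⟩
    exact ⟨⟨i, mem_range.1 hi⟩, mem_univ _, rfl⟩

/-- The base coefficients are small. -/
theorem DnC.gc {c : ℕ → Fin m} {r : ℕ} {s : ℕ → ℝ} {w e cx : ℝ} {F : Fam m J}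
    {d : DN c N r R F} {A : F.Ω → Prop} (h : DnC s w e cx F d A) {M : ℕ} (hM : cx * J ≤ M)
    {ω : F.Ω} (hω : A ω) (j : Fin R) (o : Option (Fin N)) :
    |gcD c N r (d.fr (d.y w ω)) (d.al (d.y w ω)) j o| ≤ 2 ^ M := by
  have h1 : ∀ o', |coeff (Finsupp.single o' 1) (rwP c N r (d.fr (d.y w ω))
      (d.al (d.y w ω) j))| ≤ 2 ^ M := fun o' => by
    have h2 := h.co ω hω j o'
    have h3 := np_ge hM
    linarith
  rcases o with _ | i
  · show |-coeff (Finsupp.single none 1) _| ≤ _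
    rw [abs_neg]
    exact h1 _
  · show |-coeff (Finsupp.single (some (c i)) 1) _| ≤ _
    rw [abs_neg]
    exact h1 _

/-- **Two images in echelon form.** -/
theorem sub2 (hF : FZX (N + 2)) {S : PCl m} (hS : S.Ne)
    (hpos : ∀ (τ : ℝ) (J : ℕ) (F : Fam m J) (A : F.Ω → Prop), S.St τ J F A → 0 < Pe F.p A)
    {C₀ : ℝ} (hC₀ : 0 ≤ C₀) (htm : TmC S C₀) {N₀ : ℚ → ℚ → ℝ} {al : ℝ} {g₀ : ℝ → ℝ} (hal : 0 < al)
    (hg₀ : ∀ ε : ℝ, 0 < ε → 0 < g₀ ε) (hM : ActM N₀ al g₀) {c : ℕ → Fin m} {r : ℕ}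
    (hc : Set.InjOn c (Set.Iio (N + r))) (hr : 0 < r) (i₀ : Fin N) (hB : ActB N₀ S (c i₀))
    {s : ℕ → ℝ} {w x κ rr : ℝ} (hw0 : 0 ≤ w) (hwx : w ≤ x) (hκ : 0 < κ)
    (hs : ∀ l < r, κ ≤ s l) (hx1 : x + tht κ r + 16 * κ ≤ 1) (hrr : rr ≤ 1 - (x + tht κ r))
    {w₂ u v₀ : ℝ} (hw₂ : w < w₂) (hwu : w₂ ≤ u) (hu : u ≤ w + κ) (hu1 : u < 1)
    (hful : Ful S ((range N).image c) w₂ u) (hv₀ : w < v₀) (hv1 : v₀ ≤ 1)
    (habs : ∀ l < r, ∀ K, Bas S (fun J F A =>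
      ¬ LbR 0 F ((range (N + l)).image c) (c (N + l)) K ⌊v₀ * J⌋₊ ⌊(s l + 2 * κ) * J⌋₊ A))
    {d : ∀ (J : ℕ) (F : Fam m J), DN c N r 2 F}
    (hd : ∀ (τ : ℝ) (J : ℕ) (F : Fam m J) (A : F.Ω → Prop), S.St τ J F A →
      Dn2 s w κ (x + tht κ r + 8 * κ) F (d J F) A) :
    ∃ S₁ : PCl m, S₁.Ne ∧ (∀ (τ : ℝ) (J : ℕ) (F : Fam m J) (A : F.Ω → Prop),
      S₁.St τ J F A → S.St τ J F A) ∧ Bas S₁ (fun J F A =>
        (∑ j, (rr - sw2 κ r j) - (N + 5 * (2 : ℕ) + 2) * (8 * κ)) * Real.log 2 * J ≤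
        CH (Pool.Agent.H49.Ent.cond F.p A True)
          (fun ω (j : Fin 2) => ⌊(2 : ℝ) ^ ⌊rr * J⌋₊ *
            imR (fun _ => c N) (tgE c N r) ((d J F).sr.ka ((d J F).sr.y w ω)) (F.x ω) j⌋)
          (fun ω => (ceI (univ.image fun i : Fin N => c i) (fun _ => J) (F.x ω),
            ((d J F).sr.y w ω, F.W ω)))) := by
  classical
  have hθ40 := tht_nn hκ.le r
  have hw1 : w < 1 := by linarith
  have hw1' : 0 < 1 - w := by linarith
  have hφi : Function.Injective (fun i : Fin N => c i) := fun i j h => Fin.ext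
    (hc (show (i : ℕ) < N + r by have := i.2; omega) (show (j : ℕ) < N + r by have := j.2; omega) h)
  have hposB : Bas S (fun _ F A => 0 < Pe F.p A) :=
    ⟨1, one_pos, 0, fun J _ F A hA => hpos 1 J F A hA⟩
  have hdB : Bas S (fun J F A => Dn2 s w κ (x + tht κ r + 8 * κ) F (d J F) A) :=
    ⟨1, one_pos, 0, fun J _ F A hA => hd 1 J F A hA⟩
  refine ful_subA (N := N) (R := 2) (S := S) (φ := fun i : Fin N => c i) (n := fun _ => c N)
    (E := tgE c N r) (x := x + tht κ r) (s := sw2 κ r) (d := fun J F => (d J F).sr) hpos hw0 hw1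
    (by linarith) hrr (by linarith) (fun τ J F A hA => (hd τ J F A hA).c.vr) ?_
  intro M q P hMd hqd hP hst
  obtain ⟨ζ, hζ⟩ : ∃ ζ, ζ = 8 * κ / (1 - w) := ⟨_, rfl⟩
  have hζ0 : 0 < ζ := by rw [hζ]; positivity
  have hζ1 : ζ ≤ 1 := by
    rw [hζ, div_le_one hw1']
    linarith
  have hζe : ζ * (1 - w) = 8 * κ := by
    rw [hζ]
    field_simp
  rw [← hζ] at hP ⊢
  have hP0 : (P 0 - ζ / 16) * (1 - w) = nua κ r + 2 * κ - tht κ r + (x + tht κ r) +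
      4 * (8 * κ) - w := by
    rw [hP]
    have : sw2 κ r 0 = nua κ r + 2 * κ - tht κ r := rfl
    show ((sw2 κ r 0 + (x + tht κ r) + 4 * (8 * κ) - w) / (1 - w) + ζ / 16 - ζ / 16) * (1 - w) = _
    rw [this]
    field_simp
    ring
  have hP1 : (P 1 - ζ / 16) * (1 - w) = nub κ r r + 2 * κ + (x + tht κ r) + 4 * (8 * κ) - w := by
    rw [hP]
    have : sw2 κ r 1 = nub κ r r + 2 * κ := rfl
    show ((sw2 κ r 1 + (x + tht κ r) + 4 * (8 * κ) - w) / (1 - w) + ζ / 16 - ζ / 16) * (1 - w) = _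
    rw [this]
    field_simp
    ring
  have hm0 : ∀ J : ℕ, (x + tht κ r + 16 * κ) * J ≤ M J := fun J => by
    rw [hMd]
    have h1 := Nat.le_ceil ((x + tht κ r + 8 * κ + 8 * κ) * (J : ℝ))
    have h2 : (0 : ℝ) ≤ m := Nat.cast_nonneg m
    push_cast
    have e1 : (x + tht κ r + 16 * κ) * (J : ℝ) = (x + tht κ r + 8 * κ + 8 * κ) * (J : ℝ) := by ring
    linarith
  have hm1 : ∀ J : ℕ, (M J : ℝ) ≤ (x + tht κ r + 16 * κ) * J + (m + 2) := fun J => by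
    rw [hMd]
    have h1 := Nat.ceil_lt_add_one (mul_nonneg (show (0 : ℝ) ≤ x + tht κ r + 8 * κ + 8 * κ by
      linarith) (Nat.cast_nonneg J))
    push_cast
    have e1 : (x + tht κ r + 16 * κ) * (J : ℝ) = (x + tht κ r + 8 * κ + 8 * κ) * (J : ℝ) := by ring
    linarith
  obtain ⟨w₃, hw₃⟩ : ∃ w₃, w₃ = min (min ((w₂ - w) / 2) ((v₀ - w) / 2)) (ζ / 2) := ⟨_, rfl⟩
  have a0 : 0 < w₃ := by
    rw [hw₃]
    exact lt_min (lt_min (by linarith) (by linarith)) (by linarith)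
  have a1 : w₃ ≤ (w₂ - w) / 2 := by
    rw [hw₃]
    exact (min_le_left _ _).trans (min_le_left _ _)
  have a2 : w₃ ≤ (v₀ - w) / 2 := by
    rw [hw₃]
    exact (min_le_left _ _).trans (min_le_right _ _)
  have a3 : w₃ ≤ ζ / 2 := by
    rw [hw₃]
    exact min_le_right _ _
  have a4 : w₃ * (1 - w) ≤ w₃ := by
    calc w₃ * (1 - w) ≤ w₃ * 1 := mul_le_mul_of_nonneg_left (by linarith) a0.le
      _ = w₃ := mul_one _
  obtain ⟨J₀, hJ₀⟩ := bgJ (a := 2 * κ) (by linarith) 1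
  have hqJ : ∃ J₀ : ℕ, ∀ J ≥ J₀, ⌊3 * ζ / 4 *
      ((J - (vzR w hw0 hw1 fun J F => (d J F).sr).B J : ℕ) : ℝ)⌋₊ ≤ q J := by
    refine ⟨J₀, fun J hJ => ?_⟩
    have g1 := hJ₀ J hJ
    obtain ⟨j1, j2⟩ := jw (vzR w hw0 hw1 fun J F => (d J F).sr) J
    have j2' : ((J - (vzR w hw0 hw1 fun J F => (d J F).sr).B J : ℕ) : ℝ) ≤ (1 - w) * J + 1 := j2
    rw [hqd]
    refine Nat.floor_le_floor ?_
    have h1 := mul_le_mul_of_nonneg_left j2' (show 0 ≤ 3 * ζ / 4 by linarith)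
    have h2 : 3 * ζ / 4 * ((1 - w) * J + 1) = 3 / 4 * (ζ * (1 - w)) * J + 3 * ζ / 4 := by ring
    rw [h2, hζe] at h1
    linarith
  refine coreg hF hS hpos hC₀ htm hal hg₀ hM (v := vzR w hw0 hw1 fun J F => (d J F).sr)
    (φ := fun i : Fin N => c i) i₀ hB (n := fun _ => c N) (E := tgE c N r)
    (ka := fun J F => (d J F).sr.ka) (M := M) (q := q) hst (w₃ := w₃)
    (b := N * (1 - ζ / 2) + ∑ j, (1 - P j)) a0 (by linarith) ?_ hζ0
  intro T L hS₁ hL w' ε hw'0 hw'1 hεb hg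
  rw [Fin.sum_univ_two]
  have hI : ∀ (J : ℕ) (F : Fam m J), ImR c N r (fun _ : Fin 2 => c N) (tgE c N r) (d J F).fr
      (d J F).al (fun y => gaD c N r ((d J F).fr y) ((d J F).al y)) (d J F).sr.ka :=
    fun J F => imr_of hc hr (d J F).dfr (d J F).pfr
  exact num2 (v := vzR w hw0 hw1 fun J F => (d J F).sr) (φ := fun i : Fin N => c i)
    (n := fun _ => c N) (E := tgE c N r) (ka := fun J F => (d J F).sr.ka)
    (fr := fun J F => (d J F).fr) (al := fun J F => (d J F).al)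
    (ga := fun J F y => gaD c N r ((d J F).fr y) ((d J F).al y))
    (g0 := fun J F y => g0D c N r ((d J F).fr y) ((d J F).al y))
    (gc := fun J F y => gcD c N r ((d J F).fr y) ((d J F).al y))
    hS₁ hL hposB hst hI (fun J F y j b => eval_gaD j b) (fun i => rfl) hφi hr
    (hdB.mono 0 fun J _ F A h => h.c.pos) (hdB.mono 0 fun J _ F A h => h.ra)
    (hdB.mono 0 fun J _ F A h => h.rb) (hdB.mono 0 fun J _ F A h => h.sz)
    (hdB.mono 0 fun J _ F A h ω hω o => h.c.gc (by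
      refine le_trans (mul_le_mul_of_nonneg_right ?_ (Nat.cast_nonneg J)) (hm0 J)
      linarith) hω 1 o)
    (fun ε hε => vel_half htm hr hw0 hw1 hs (hdB.mono 0 fun J _ F A h => h.c) hε) habs
    (by rw [img_phi]; exact hful) hκ rfl hs hx1 hwx hζ0 hζ1 hζe hwu hu hu1 hv1 a0 a3
    (show w + w₃ * (1 - w) < w₂ by linarith) (show w + w₃ * (1 - w) < v₀ by linarith) hP0 hP1
    hm0 hm1 hqJ hw'0 hw'1 hεb hg

end Pool.IMN17
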