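import Pool.Agent.H17.IMN.Sub4

/-!
# One image of a class

`num1`: the numbers of the greedy order. `sub1`: the entropy in a subclass.
-/

set_option autoImplicit false

namespace Pool.IMN17

open Finset Real MvPolynomial
open Pool.Agent.H49.Ent Pool.Agent.H32.Dense Pool.STK Pool.KA Pool.KSAT Pool.K2S Pool.PB Pool.S6C
open Pool.GEN Pool.REX Pool.REX83 Pool.NFT33 Pool.TOP
open Pool.UNJ (ceI)
open Pool.D2F2 (hgp)
open Pool.LA91 (ojet)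
open Pool.FUL33 (st_fac bgJ wB wJ jw jmul pull bas_abs)
open Pool.FUL17

variable {m N R J : ℕ}

/-- **The conditions for the data of one image.** -/
structure Dn1 {c : ℕ → Fin m} {r : ℕ} (s : ℕ → ℝ) (w κ cx : ℝ) (F : Fam m J) (d : DN c N r 1 F)
    (A : F.Ω → Prop) : Prop where
  c : DnC s w κ cx F d A
  ra : ∀ ω, A ω → ∃ l₁ < r, (2 : ℝ) ^ ((s l₁ + 0 - nua κ l₁) * J) ≤ |d.al (d.y w ω) 0 l₁| ∧
    ∀ l, l₁ < l → l < r → |d.al (d.y w ω) 0 l| ≤ (2 : ℝ) ^ ((s l + 0 - nua κ l + κ) * J)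

theorem Dn1.sub {c : ℕ → Fin m} {r : ℕ} {s : ℕ → ℝ} {w κ cx : ℝ} {F : Fam m J}
    {d : DN c N r 1 F} {A B : F.Ω → Prop} (h : Dn1 s w κ cx F d A) (hB : Sub B A) :
    Dn1 s w κ cx F d B :=
  ⟨h.c.sub hB, fun ω hω => h.ra ω (hB ω hω)⟩

section num

variable {S : PCl m} {v : Vz m} {φ : Fin N → Fin m} {n : Fin 1 → Fin m} {E : Finset (Fin m)}
  {M q : ℕ → ℕ}
  {ka : ∀ (J : ℕ) (F : Fam m J), v.κ J F → Fin 1 → Fin m → ℝ} {T : PCl (N + 1)}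
  {L : Finset (Fin (N + 1)) → Fin (N + 1) → ℝ → ℝ → ℝ} {c : ℕ → Fin m} {r : ℕ}
  {fr : ∀ (J : ℕ) (F : Fam m J), v.κ J F → ℕ → MvPolynomial (Option (Fin m)) ℝ}
  {al : ∀ (J : ℕ) (F : Fam m J), v.κ J F → Fin 1 → ℕ → ℝ}
  {ga : ∀ (J : ℕ) (F : Fam m J), v.κ J F → Fin 1 → MvPolynomial (Option (Fin m)) ℝ}
  {s : ℕ → ℝ}

/-- **The numbers of the greedy order**, one image. -/
theorem num1 (hS : (S.sl (slI v (nwR v φ n E M ka) T)).Ne) (hL : LamW T L)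
    (hposB : Bas S (fun _ F A => 0 < Pe F.p A))
    (hst : Bas S (fun J F A => StR F v E (ka J F) (M J) (q J) A))
    (hI : ∀ (J : ℕ) (F : Fam m J), ImR c N r n E (fr J F) (al J F) (ga J F) (ka J F))
    (hφ : ∀ i : Fin N, φ i = c i) (hφi : Function.Injective φ) (hr : 0 < r)
    {x κ ζ w₂ u v₀ w₃ w' : ℝ} {P : Fin 1 → ℝ}
    (hht : Bas S (fun J F A => HtS F v c N r s κ (fr J F) A))
    (hra : Bas S (fun J F A => RwA F v r s (nua κ) 0 κ (fun y => al J F y 0) A))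
    (habs : ∀ l < r, ∀ K, Bas S (fun J F A =>
      ¬ LbR 0 F ((range (N + l)).image c) (c (N + l)) K ⌊v₀ * J⌋₊ ⌊(s l + 2 * κ) * J⌋₊ A))
    (hful : Ful S (univ.image φ) w₂ u)
    (hκ : 0 < κ) (hs : ∀ l < r, κ ≤ s l) (hζ0 : 0 < ζ) (hζ1 : ζ ≤ 1)
    (hζe : ζ * (1 - v.b) = 8 * κ) (hwu : w₂ ≤ u) (hu : u ≤ v.b + κ) (hu1 : u < 1)
    (hv1 : v₀ ≤ 1) (hw₃0 : 0 < w₃) (hw₃ζ : w₃ ≤ ζ / 2) (hw₃2 : v.b + w₃ * (1 - v.b) < w₂)
    (hw₃v : v.b + w₃ * (1 - v.b) < v₀)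
    (hP0 : (P 0 - ζ / 16) * (1 - v.b) = nua κ r + 2 * κ + x + 4 * (8 * κ) - v.b)
    (hm1 : ∀ J : ℕ, (M J : ℝ) ≤ (x + 16 * κ) * J + (m + 2))
    (hqJ : ∃ J₀ : ℕ, ∀ J ≥ J₀, ⌊3 * ζ / 4 * ((J - v.B J : ℕ) : ℝ)⌋₊ ≤ q J)
    (hw'0 : 0 < w') (hw'1 : w' < w₃) {ε : Fin (N + 1) → Fin (N + 1)}
    (hεb : Function.Bijective ε) (hg : Vgr L ε w') :
    N * (1 - ζ / 2) + ∑ j, (1 - P j) ≤ ∑ j : Fin (N + 1), (1 - vs L ε w' (j + 1)) := by
  have hb0 := v.b0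
  have hb1 := v.b1
  have hw1' : 0 < 1 - v.b := by linarith
  have h1 : ∀ (I : Finset (Fin (N + 1))) (i : Fin N) (ρ : ℝ),
      (∀ j : Fin 1, Fin.natAdd N j ∉ I) → Fin.castAdd 1 i ∉ I → ρ ≤ ζ / 2 →
      L I (Fin.castAdd 1 i) w' ρ ≤ ζ / 2 := fun I i ρ hI' hi hρ =>
    base_le hS hL hposB hst hφi hw₃2 hwu hu1 hful hw'1 (by linarith) (by linarith)
      (show 0 < ζ / 16 by linarith) (by linarith) (by linarith) (by
        have : ζ / 2 * (1 - v.b) = 4 * κ := by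
          have : ζ / 2 * (1 - v.b) = ζ * (1 - v.b) / 2 := by ring
          rw [this, hζe]
          ring
        rw [this]
        linarith) (by linarith) hI' hi
  have h2 : ∀ (I : Finset (Fin (N + 1))) (j : Fin 1) (ρ : ℝ),
      3 * ζ / 4 ≤ L I (Fin.natAdd N j) w' ρ := fun I j ρ =>
    im_ge0 hS hL hst (by linarith) hqJ j I w' ρ
  have h3 : ∀ (I : Finset (Fin (N + 1))) (j : Fin 1) (ρ : ℝ), Fin.natAdd N j ∉ I →
      L I (Fin.natAdd N j) w' ρ ≤ P j := fun I j ρ hI' => by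
    have hj : j = 0 := Subsingleton.elim _ _
    subst hj
    refine im_leA (g := κ) (e := κ) (θ := 0) (s := s) (ν := nua κ) (νm := nua κ r) (C := m + 2)
      (μ := 2 * κ) (m₀ := x + 16 * κ) hS hL hst hI hφ hr 0 hht hra habs hw₃v hv1 hw'1
      (by linarith) (by linarith) hm1 (fun l hl => by have := hs l hl; linarith)
      (show 0 < ζ / 16 by linarith) hκ
      (fun l hl => nua_mono hκ.le hl.le) (fun l l' hl _ => by
        have := nua_lt hκ.le hl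
        linarith) (by
        have : 0 + v.b + (P 0 - ζ / 16) * (1 - v.b) = 0 + v.b + (nua κ r + 2 * κ + x +
          4 * (8 * κ) - v.b) := by rw [hP0]
        linarith) fun j' => by
          have : j' = 0 := Subsingleton.elim _ _
          rw [this]
          exact hI'
  exact order hεb hg (by linarith) (by linarith) h1 h2 h3

end num

/-- The number of the image. -/
noncomputable def sw1 (κ : ℝ) (r : ℕ) : Fin 1 → ℝ := fun _ => nua κ r + 2 * κ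

/-- **One image.** -/
theorem sub1 (hF : FZX (N + 1)) {S : PCl m} (hS : S.Ne)
    (hpos : ∀ (τ : ℝ) (J : ℕ) (F : Fam m J) (A : F.Ω → Prop), S.St τ J F A → 0 < Pe F.p A)
    {C₀ : ℝ} (hC₀ : 0 ≤ C₀) (htm : TmC S C₀) {N₀ : ℚ → ℚ → ℝ} {al : ℝ} {g₀ : ℝ → ℝ} (hal : 0 < al)
    (hg₀ : ∀ ε : ℝ, 0 < ε → 0 < g₀ ε) (hM : ActM N₀ al g₀) {c : ℕ → Fin m} {r : ℕ}
    (hc : Set.InjOn c (Set.Iio (N + r))) (hr : 0 < r) (i₀ : Fin N) (hB : ActB N₀ S (c i₀))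
    {s : ℕ → ℝ} {w x κ rr : ℝ} (hw0 : 0 ≤ w) (hwx : w ≤ x) (hκ : 0 < κ)
    (hs : ∀ l < r, κ ≤ s l) (hx1 : x + 16 * κ ≤ 1) (hrr : rr ≤ 1 - x)
    {w₂ u v₀ : ℝ} (hw₂ : w < w₂) (hwu : w₂ ≤ u) (hu : u ≤ w + κ) (hu1 : u < 1)
    (hful : Ful S ((range N).image c) w₂ u) (hv₀ : w < v₀) (hv1 : v₀ ≤ 1)
    (habs : ∀ l < r, ∀ K, Bas S (fun J F A =>
      ¬ LbR 0 F ((range (N + l)).image c) (c (N + l)) K ⌊v₀ * J⌋₊ ⌊(s l + 2 * κ) * J⌋₊ A))
    {d : ∀ (J : ℕ) (F : Fam m J), DN c N r 1 F}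
    (hd : ∀ (τ : ℝ) (J : ℕ) (F : Fam m J) (A : F.Ω → Prop), S.St τ J F A →
      Dn1 s w κ (x + 8 * κ) F (d J F) A) :
    ∃ S₁ : PCl m, S₁.Ne ∧ (∀ (τ : ℝ) (J : ℕ) (F : Fam m J) (A : F.Ω → Prop),
      S₁.St τ J F A → S.St τ J F A) ∧ Bas S₁ (fun J F A =>
        (∑ j, (rr - sw1 κ r j) - (N + 5 * (1 : ℕ) + 2) * (8 * κ)) * Real.log 2 * J ≤
        CH (Pool.Agent.H49.Ent.cond F.p A True)
          (fun ω (j : Fin 1) => ⌊(2 : ℝ) ^ ⌊rr * J⌋₊ *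
            imR (fun _ => c N) (tgE c N r) ((d J F).sr.ka ((d J F).sr.y w ω)) (F.x ω) j⌋)
          (fun ω => (ceI (univ.image fun i : Fin N => c i) (fun _ => J) (F.x ω),
            ((d J F).sr.y w ω, F.W ω)))) := by
  classical
  have hθ40 := tht_nn hκ.le r
  have hw1 : w < 1 := by linarith
  have hw1' : 0 < 1 - w := by linarith
  have hφi : Function.Injective (fun i : Fin N => c i) := fun i j h => Fin.ext
    (hc (show (i : ℕ) < N + r by have := i.2; omega) (show (j : ℕ) < N + r by have := j.2; omega) h)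
  have hposB : Bas S (fun _ F A => 0 < Pe F.p A) :=
    ⟨1, one_pos, 0, fun J _ F A hA => hpos 1 J F A hA⟩
  have hdB : Bas S (fun J F A => Dn1 s w κ (x + 8 * κ) F (d J F) A) :=
    ⟨1, one_pos, 0, fun J _ F A hA => hd 1 J F A hA⟩
  refine ful_subA (N := N) (R := 1) (S := S) (φ := fun i : Fin N => c i) (n := fun _ => c N)
    (E := tgE c N r) (x := x) (s := sw1 κ r) (d := fun J F => (d J F).sr) hpos hw0 hw1
    (by linarith) hrr (by linarith) (fun τ J F A hA => (hd τ J F A hA).c.vr) ?_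
  intro M q P hMd hqd hP hst
  obtain ⟨ζ, hζ⟩ : ∃ ζ, ζ = 8 * κ / (1 - w) := ⟨_, rfl⟩
  have hζ0 : 0 < ζ := by rw [hζ]; positivity
  have hζ1 : ζ ≤ 1 := by
    rw [hζ, div_le_one hw1']
    linarith
  have hζe : ζ * (1 - w) = 8 * κ := by
    rw [hζ]
    field_simp
  rw [← hζ] at hP ⊢
  have hP0 : (P 0 - ζ / 16) * (1 - w) = nua κ r + 2 * κ + x + 4 * (8 * κ) - w := by
    rw [hP]
    have : sw1 κ r 0 = nua κ r + 2 * κ := rfl
    show ((sw1 κ r 0 + x + 4 * (8 * κ) - w) / (1 - w) + ζ / 16 - ζ / 16) * (1 - w) = _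
    rw [this]
    field_simp
    ring
  have hm0 : ∀ J : ℕ, (x + 16 * κ) * J ≤ M J := fun J => by
    rw [hMd]
    have h1 := Nat.le_ceil ((x + 8 * κ + 8 * κ) * (J : ℝ))
    have h2 : (0 : ℝ) ≤ m := Nat.cast_nonneg m
    push_cast
    have e1 : (x + 16 * κ) * (J : ℝ) = (x + 8 * κ + 8 * κ) * (J : ℝ) := by ring
    linarith
  have hm1 : ∀ J : ℕ, (M J : ℝ) ≤ (x + 16 * κ) * J + (m + 2) := fun J => by
    rw [hMd]
    have h1 := Nat.ceil_lt_add_one (mul_nonneg (show (0 : ℝ) ≤ x + 8 * κ + 8 * κ by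
      linarith) (Nat.cast_nonneg J))
    push_cast
    have e1 : (x + 16 * κ) * (J : ℝ) = (x + 8 * κ + 8 * κ) * (J : ℝ) := by ring
    linarith
  obtain ⟨w₃, hw₃⟩ : ∃ w₃, w₃ = min (min ((w₂ - w) / 2) ((v₀ - w) / 2)) (ζ / 2) := ⟨_, rfl⟩
  have a0 : 0 < w₃ := by
    rw [hw₃]
    exact lt_min (lt_min (by linarith) (by linarith)) (by linarith)
  have a1 : w₃ ≤ (w₂ - w) / 2 := by
    rw [hw₃]
    exact (min_le_left _ _).trans (min_le_left _ _)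
  have a2 : w₃ ≤ (v₀ - w) / 2 := by
    rw [hw₃]
    exact (min_le_left _ _).trans (min_le_right _ _)
  have a3 : w₃ ≤ ζ / 2 := by
    rw [hw₃]
    exact min_le_right _ _
  have a4 : w₃ * (1 - w) ≤ w₃ := by
    calc w₃ * (1 - w) ≤ w₃ * 1 := mul_le_mul_of_nonneg_left (by linarith) a0.le
      _ = w₃ := mul_one _
  obtain ⟨J₀, hJ₀⟩ := bgJ (a := 2 * κ) (by linarith) 1
  have hqJ : ∃ J₀ : ℕ, ∀ J ≥ J₀, ⌊3 * ζ / 4 *
      ((J - (vzR w hw0 hw1 fun J F => (d J F).sr).B J : ℕ) : ℝ)⌋₊ ≤ q J := by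
    refine ⟨J₀, fun J hJ => ?_⟩
    have g1 := hJ₀ J hJ
    obtain ⟨j1, j2⟩ := jw (vzR w hw0 hw1 fun J F => (d J F).sr) J
    have j2' : ((J - (vzR w hw0 hw1 fun J F => (d J F).sr).B J : ℕ) : ℝ) ≤ (1 - w) * J + 1 := j2
    rw [hqd]
    refine Nat.floor_le_floor ?_
    have h1 := mul_le_mul_of_nonneg_left j2' (show 0 ≤ 3 * ζ / 4 by linarith)
    have h2 : 3 * ζ / 4 * ((1 - w) * J + 1) = 3 / 4 * (ζ * (1 - w)) * J + 3 * ζ / 4 := by ring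
    rw [h2, hζe] at h1
    linarith
  refine coreg hF hS hpos hC₀ htm hal hg₀ hM (v := vzR w hw0 hw1 fun J F => (d J F).sr)
    (φ := fun i : Fin N => c i) i₀ hB (n := fun _ => c N) (E := tgE c N r)
    (ka := fun J F => (d J F).sr.ka) (M := M) (q := q) hst (w₃ := w₃)
    (b := N * (1 - ζ / 2) + ∑ j, (1 - P j)) a0 (by linarith) ?_ hζ0
  intro T L hS₁ hL w' ε hw'0 hw'1 hεb hg
  have hI : ∀ (J : ℕ) (F : Fam m J), ImR c N r (fun _ : Fin 1 => c N) (tgE c N r) (d J F).fr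
      (d J F).al (fun y => gaD c N r ((d J F).fr y) ((d J F).al y)) (d J F).sr.ka :=
    fun J F => imr_of hc hr (d J F).dfr (d J F).pfr
  exact num1 (v := vzR w hw0 hw1 fun J F => (d J F).sr) (φ := fun i : Fin N => c i)
    (n := fun _ => c N) (E := tgE c N r) (ka := fun J F => (d J F).sr.ka)
    (fr := fun J F => (d J F).fr) (al := fun J F => (d J F).al)
    (ga := fun J F y => gaD c N r ((d J F).fr y) ((d J F).al y))
    hS₁ hL hposB hst hI (fun i => rfl) hφi hr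
    (hdB.mono 0 fun J _ F A h => h.c.pos) (hdB.mono 0 fun J _ F A h => h.ra) habs
    (by rw [img_phi]; exact hful) hκ hs hζ0 hζ1 hζe hwu hu hu1 hv1 a0 a3
    (show w + w₃ * (1 - w) < w₂ by linarith) (show w + w₃ * (1 - w) < v₀ by linarith) hP0
    hm1 hqJ hw'0 hw'1 hεb hg

end Pool.IMN17
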