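import Pool.Agent.H17.IMN.Ech
import Pool.Agent.H17.IMN.Low

/-!
# From the straight images to the images of the heights
-/

set_option autoImplicit false

namespace Pool.IMN17

open Finset Real MvPolynomial
open Pool.Agent.H49.Ent Pool.Agent.H32.Dense Pool.STK Pool.KA Pool.KSAT Pool.K2S Pool.PB Pool.S6C
open Pool.GEN Pool.REX Pool.REX83 Pool.NFT33 Pool.TOP
open Pool.UNJ (ceI)
open Pool.D2F2 (hgp)
open Pool.EXW (abs_floor_sub)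
open Pool.FUL33 (bgJ wB wJ jw jmul pull bas_abs)
open Pool.FUL17

variable {m N R J : ℕ}

/-- The straight image of a row at a point. -/
theorem imr_eq {F : Fam m J} {c : ℕ → Fin m} {r : ℕ} (hc : Set.InjOn c (Set.Iio (N + r)))
    (hr : 0 < r) (d : DN c N r R F) (y : Option F.Ω) (j : Fin R) (ω : F.Ω) :
    imR (fun _ : Fin R => c N) (tgE c N r) (d.sr.ka y) (F.x ω) j =
      ∑ l ∈ range r, d.al y j l * hgp F (c (N + l)) (d.fr y l) ω +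
        (g0D c N r (d.fr y) (d.al y) j + (gcD c N r (d.fr y) (d.al y) j none * F.t ω +
          ∑ i : Fin N, gcD c N r (d.fr y) (d.al y) j (some i) * F.x ω (c i))) := by
  have h := rel_of (al := d.al y) hc hr (d.dfr y) (d.pfr y) j (Pool.GEN.bt F ω)
  rw [eval_gaD] at h
  exact h

/-- The image of the heights and the straight image of the row. -/
theorem sum_imX {F : Fam m J} {c : ℕ → Fin m} {r : ℕ} {s : ℕ → ℝ} {M θ : ℝ}
    {G : ℕ → MvPolynomial (Option (Fin m)) ℝ} {K : Fin R → ℕ → ℝ} {a : ℕ → ℝ} {t : Fin R → ℝ}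
    (ha : ∀ l < r, a l = (∑ i, t i * K i l) * (2 : ℝ) ^ ((s l + θ) * J)) (ω : F.Ω) :
    ∑ l ∈ range r, a l * hgp F (c (N + l)) (G l) ω =
      ∑ i, t i * ((2 : ℝ) ^ ((θ - M) * J) * imX F c N r s M G (K i) ω) := by
  unfold imX
  have e1 : ∀ i, t i * ((2 : ℝ) ^ ((θ - M) * J) * ∑ l ∈ range r, K i l *
      ((2 : ℝ) ^ ((s l + M) * J) * hgp F (c (N + l)) (G l) ω)) = ∑ l ∈ range r, t i * K i l *
      ((2 : ℝ) ^ ((s l + θ) * J) * hgp F (c (N + l)) (G l) ω) := by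
    intro i
    rw [Finset.mul_sum, Finset.mul_sum]
    refine Finset.sum_congr rfl fun l _ => ?_
    have e2 : (2 : ℝ) ^ ((s l + θ) * J) = (2 : ℝ) ^ ((θ - M) * J) * (2 : ℝ) ^ ((s l + M) * J) := by
      rw [← Real.rpow_add (by norm_num)]
      congr 1
      ring
    rw [e2]
    ring
  rw [Finset.sum_congr rfl fun i _ => e1 i, Finset.sum_comm]
  refine Finset.sum_congr rfl fun l hl => ?_
  rw [ha l (mem_range.1 hl), Finset.sum_mul, Finset.sum_mul]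
  refine Finset.sum_congr rfl fun i _ => by ring

/-- **The transfer of the entropies.** -/
theorem tr_le {F : Fam m J} {A : F.Ω → Prop} (hA : 0 < Pe F.p A) {V : Type} {z' : LnT F → V}
    {G : V → ℕ → MvPolynomial (Option (Fin m)) ℝ} {c : ℕ → Fin m} {r : ℕ} {s : ℕ → ℝ}
    {w θ M₀ M cx b : ℝ} {K : V → Fin R → ℕ → ℝ} {d : DN c N r R F}
    (hc : Set.InjOn c (Set.Iio (N + r))) (hr : 0 < r)
    (hy : ∀ ω ω', z' (slam F ⌊w * J⌋₊ ω) = z' (slam F ⌊w * J⌋₊ ω') ↔ d.y w ω = d.y w ω')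
    (hfr : ∀ ω, A ω → d.fr (d.y w ω) = G (z' (slam F ⌊w * J⌋₊ ω)))
    (hal : ∀ ω, A ω → ∀ j, ∃ t : Fin R → ℝ, ∑ i, |t i| ≤ 2 ∧ ∀ l < r,
      d.al (d.y w ω) j l = (∑ i, t i * K (z' (slam F ⌊w * J⌋₊ ω)) i l) *
        (2 : ℝ) ^ ((s l + θ) * J))
    (hco : ∀ ω, A ω → ∀ j o, |coeff (Finsupp.single o 1) (rwP c N r (d.fr (d.y w ω))
      (d.al (d.y w ω) j))| + 1 ≤ (2 : ℝ) ^ (cx * J))
    (hM0 : 0 ≤ M₀ - θ) (hb : cx + (M₀ - θ) ≤ 1 + b) :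
    CH (Pool.Agent.H49.Ent.cond F.p A True)
      (fun ω (j : Fin R) => ⌊(2 : ℝ) ^ ⌊(M₀ - θ) * J⌋₊ *
        imR (fun _ => c N) (tgE c N r) (d.sr.ka (d.sr.y w ω)) (F.x ω) j⌋)
      (fun ω => (ceI (univ.image fun i : Fin N => c i) (fun _ => J) (F.x ω),
        (d.sr.y w ω, F.W ω))) ≤
    CH (Pool.Agent.H49.Ent.cond F.p A True)
      (fun ω (j : Fin R) => ⌊imX F c N r s M (G (z' (slam F ⌊w * J⌋₊ ω)))
        (K (z' (slam F ⌊w * J⌋₊ ω)) j) ω⌋)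
      (fun ω => (ceI ((range N).image c) (fun _ => J) (F.x ω),
        (z' (slam F ⌊w * J⌋₊ ω), F.W ω))) +
    R * Real.log (2 * (2 * (2 : ℝ) ^ ((M₀ - M) * J) + N * (2 : ℝ) ^ (b * J) + 1) + 1) := by
  classical
  have hq := isLaw_cond F.isLaw hA
  obtain ⟨μ, hμ⟩ : ∃ μ, μ = Pool.Agent.H49.Ent.cond F.p A True := ⟨_, rfl⟩
  rw [← hμ] at hq ⊢
  have h0 := hq.nonneg
  have hμA : ∀ ω, 0 < μ ω → A ω := fun ω hω => by
    rw [hμ] at hω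
    exact of_condp hω
  have hJ0 : (0 : ℝ) ≤ J := Nat.cast_nonneg J
  obtain ⟨v, hv⟩ : ∃ v : F.Ω → V, v = fun ω => z' (slam F ⌊w * J⌋₊ ω) := ⟨_, rfl⟩
  obtain ⟨X, hX⟩ : ∃ X : F.Ω → Fin R → ℤ, X = fun ω j => ⌊(2 : ℝ) ^ ⌊(M₀ - θ) * J⌋₊ *
    imR (fun _ => c N) (tgE c N r) (d.sr.ka (d.sr.y w ω)) (F.x ω) j⌋ := ⟨_, rfl⟩
  obtain ⟨Y, hY⟩ : ∃ Y : F.Ω → Fin R → ℤ, Y = fun ω j =>
    ⌊imX F c N r s M (G (z' (slam F ⌊w * J⌋₊ ω))) (K (z' (slam F ⌊w * J⌋₊ ω)) j) ω⌋ := ⟨_, rfl⟩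
  obtain ⟨W, hW⟩ : ∃ W : F.Ω → (Fin m → ℤ) × (V × (ℕ × F.ζ)), W = fun ω =>
    (ceI ((range N).image c) (fun _ => J) (F.x ω), (z' (slam F ⌊w * J⌋₊ ω), F.W ω)) := ⟨_, rfl⟩
  rw [← hX, ← hY, ← hW]
  have k0 : CH μ X (fun ω => (ceI (univ.image fun i : Fin N => c i) (fun _ => J) (F.x ω),
      (d.sr.y w ω, F.W ω))) ≤ CH μ X W := by
    refine CH_mono_cond h0 fun ω ω' _ _ e => ?_
    have e1 := Prod.ext_iff.1 e
    have e2 := Prod.ext_iff.1 e1.2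
    rw [hW]
    refine Prod.ext ?_ (Prod.ext ?_ e2.2)
    · have e3 : ceI (univ.image fun i : Fin N => c i) (fun _ => J) (F.x ω) =
          ceI (univ.image fun i : Fin N => c i) (fun _ => J) (F.x ω') := e1.1
      rw [img_phi] at e3
      exact e3
    · exact (hy ω ω').2 e2.1
  refine k0.trans ((CH_le_add h0 X Y W).trans (add_le_add_right ?_ _))
  refine (CH_le_vec h0 hq.sum_one X _
    (fun _ => 2 * (2 : ℝ) ^ ((M₀ - M) * J) + N * (2 : ℝ) ^ (b * J) + 1)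
    fun ω ω' hω hω' e j => ?_).trans (by rw [Ex_const hq.sum_one])
  have aω := hμA ω hω
  have aω' := hμA ω' hω'
  have e1 : Y ω = Y ω' := (Prod.ext_iff.1 e).1
  have e2 : W ω = W ω' := (Prod.ext_iff.1 e).2
  rw [hW] at e2
  have e3 := Prod.ext_iff.1 e2
  have e4 := Prod.ext_iff.1 e3.2
  have eB : ceI ((range N).image c) (fun _ => J) (F.x ω) =
    ceI ((range N).image c) (fun _ => J) (F.x ω') := e3.1
  have eV : z' (slam F ⌊w * J⌋₊ ω) = z' (slam F ⌊w * J⌋₊ ω') := e4.1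
  have eT : F.T ω = F.T ω' := (Prod.ext_iff.1 e4.2).1
  have et : F.t ω = F.t ω' := by
    unfold Fam.t
    rw [eT]
  have ey : d.y w ω = d.y w ω' := (hy ω ω').1 eV
  have ey' : d.sr.y w ω = d.y w ω' := ey
  have ey'' : d.sr.y w ω' = d.y w ω' := rfl
  rw [hX]
  show |((⌊(2 : ℝ) ^ ⌊(M₀ - θ) * J⌋₊ *
    imR (fun _ => c N) (tgE c N r) (d.sr.ka (d.sr.y w ω)) (F.x ω) j⌋ -
    ⌊(2 : ℝ) ^ ⌊(M₀ - θ) * J⌋₊ *
    imR (fun _ => c N) (tgE c N r) (d.sr.ka (d.sr.y w ω')) (F.x ω') j⌋ : ℤ) : ℝ)| ≤ _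
  refine (abs_floor_sub _ _).trans (add_le_add_left ?_ _)
  rw [ey', ey'', imr_eq hc hr d (d.y w ω') j ω, imr_eq hc hr d (d.y w ω') j ω', ← mul_sub,
    abs_mul, abs_of_pos (by positivity : (0 : ℝ) < 2 ^ ⌊(M₀ - θ) * (J : ℝ)⌋₊)]
  obtain ⟨t, ht, ha⟩ := hal ω' aω' j
  rw [hfr ω' aω', sum_imX (M := M) ha ω, sum_imX (M := M) ha ω', et]
  -- the differences of the images
  have hdI : ∀ i, |imX F c N r s M (G (z' (slam F ⌊w * J⌋₊ ω'))) (K (z' (slam F ⌊w * J⌋₊ ω')) i) ω -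
      imX F c N r s M (G (z' (slam F ⌊w * J⌋₊ ω'))) (K (z' (slam F ⌊w * J⌋₊ ω')) i) ω'| ≤ 1 := by
    intro i
    have f1 := congrFun e1 i
    rw [hY] at f1
    have f2 : ⌊imX F c N r s M (G (z' (slam F ⌊w * J⌋₊ ω))) (K (z' (slam F ⌊w * J⌋₊ ω)) i) ω⌋ =
      ⌊imX F c N r s M (G (z' (slam F ⌊w * J⌋₊ ω'))) (K (z' (slam F ⌊w * J⌋₊ ω')) i) ω'⌋ := f1
    rw [eV] at f2
    exact (Int.abs_sub_lt_one_of_floor_eq_floor f2).le
  have hdx : ∀ i : Fin N, |F.x ω (c i) - F.x ω' (c i)| ≤ 1 / 2 ^ J := by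
    intro i
    have f1 := congrFun eB (c i)
    unfold Pool.UNJ.ceI at f1
    have hi : c i ∈ (range N).image c := mem_image_of_mem c (mem_range.2 i.2)
    rw [if_pos hi, if_pos hi] at f1
    have f2 := (Int.abs_sub_lt_one_of_floor_eq_floor f1).le
    rw [← mul_sub, abs_mul, abs_of_pos (by positivity : (0 : ℝ) < 2 ^ J)] at f2
    rw [le_div_iff₀ (by positivity), mul_comm]
    exact f2
  have hP0 : (0 : ℝ) < 2 ^ ⌊(M₀ - θ) * (J : ℝ)⌋₊ := by positivity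
  have hP1 : (2 : ℝ) ^ ⌊(M₀ - θ) * (J : ℝ)⌋₊ ≤ (2 : ℝ) ^ ((M₀ - θ) * J) := by
    rw [← Real.rpow_natCast]
    exact Real.rpow_le_rpow_of_exponent_le (by norm_num)
      (Nat.floor_le (mul_nonneg hM0 hJ0))
  have hgc : ∀ i : Fin N, |gcD c N r (G (z' (slam F ⌊w * J⌋₊ ω'))) (d.al (d.y w ω')) j (some i)| ≤
      (2 : ℝ) ^ (cx * J) := by
    intro i
    have f1 := hco ω' aω' j (some (c i))
    rw [hfr ω' aω'] at f1
    show |-coeff (Finsupp.single (some (c i)) 1) _| ≤ _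
    rw [abs_neg]
    linarith
  -- the first part
  have hA1 : |∑ i, t i * ((2 : ℝ) ^ ((θ - M) * J) * imX F c N r s M
        (G (z' (slam F ⌊w * J⌋₊ ω'))) (K (z' (slam F ⌊w * J⌋₊ ω')) i) ω) -
      ∑ i, t i * ((2 : ℝ) ^ ((θ - M) * J) * imX F c N r s M
        (G (z' (slam F ⌊w * J⌋₊ ω'))) (K (z' (slam F ⌊w * J⌋₊ ω')) i) ω')| ≤
      2 * (2 : ℝ) ^ ((θ - M) * J) := by
    rw [← Finset.sum_sub_distrib]
    refine (Finset.abs_sum_le_sum_abs _ _).trans ?_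
    calc _ ≤ ∑ i, |t i| * (2 : ℝ) ^ ((θ - M) * J) := Finset.sum_le_sum fun i _ => by
          rw [← mul_sub, ← mul_sub, abs_mul, abs_mul,
            abs_of_pos (by positivity : (0 : ℝ) < (2 : ℝ) ^ ((θ - M) * J))]
          refine mul_le_mul_of_nonneg_left ?_ (abs_nonneg _)
          calc (2 : ℝ) ^ ((θ - M) * J) * _ ≤ (2 : ℝ) ^ ((θ - M) * J) * 1 :=
                mul_le_mul_of_nonneg_left (hdI i) (by positivity)
            _ = _ := mul_one _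
      _ = (∑ i, |t i|) * (2 : ℝ) ^ ((θ - M) * J) := by rw [Finset.sum_mul]
      _ ≤ 2 * (2 : ℝ) ^ ((θ - M) * J) := mul_le_mul_of_nonneg_right ht (by positivity)
  -- the second part
  have hA2 : |∑ i : Fin N, gcD c N r (G (z' (slam F ⌊w * J⌋₊ ω'))) (d.al (d.y w ω')) j (some i) *
        F.x ω (c i) -
      ∑ i : Fin N, gcD c N r (G (z' (slam F ⌊w * J⌋₊ ω'))) (d.al (d.y w ω')) j (some i) *
        F.x ω' (c i)| ≤ N * ((2 : ℝ) ^ (cx * J) * (1 / 2 ^ J)) := by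
    rw [← Finset.sum_sub_distrib]
    refine (Finset.abs_sum_le_sum_abs _ _).trans ?_
    calc _ ≤ ∑ _i : Fin N, (2 : ℝ) ^ (cx * J) * (1 / 2 ^ J) := Finset.sum_le_sum fun i _ => by
          rw [← mul_sub, abs_mul]
          exact mul_le_mul (hgc i) (hdx i) (abs_nonneg _) (by positivity)
      _ = N * ((2 : ℝ) ^ (cx * J) * (1 / 2 ^ J)) := by
          rw [Finset.sum_const, card_univ, Fintype.card_fin, nsmul_eq_mul]
  obtain ⟨a₁, ha₁⟩ : ∃ a₁, a₁ = ∑ i, t i * ((2 : ℝ) ^ ((θ - M) * J) * imX F c N r s M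
        (G (z' (slam F ⌊w * J⌋₊ ω'))) (K (z' (slam F ⌊w * J⌋₊ ω')) i) ω) := ⟨_, rfl⟩
  obtain ⟨a₂, ha₂⟩ : ∃ a₂, a₂ = ∑ i, t i * ((2 : ℝ) ^ ((θ - M) * J) * imX F c N r s M
        (G (z' (slam F ⌊w * J⌋₊ ω'))) (K (z' (slam F ⌊w * J⌋₊ ω')) i) ω') := ⟨_, rfl⟩
  obtain ⟨b₁, hb₁⟩ : ∃ b₁, b₁ = ∑ i : Fin N, gcD c N r (G (z' (slam F ⌊w * J⌋₊ ω')))
    (d.al (d.y w ω')) j (some i) * F.x ω (c i) := ⟨_, rfl⟩
  obtain ⟨b₂, hb₂⟩ : ∃ b₂, b₂ = ∑ i : Fin N, gcD c N r (G (z' (slam F ⌊w * J⌋₊ ω')))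
    (d.al (d.y w ω')) j (some i) * F.x ω' (c i) := ⟨_, rfl⟩
  rw [← ha₁, ← ha₂] at hA1 ⊢
  rw [← hb₁, ← hb₂] at hA2 ⊢
  have h3 : |a₁ + (g0D c N r (G (z' (slam F ⌊w * J⌋₊ ω'))) (d.al (d.y w ω')) j +
      (gcD c N r (G (z' (slam F ⌊w * J⌋₊ ω'))) (d.al (d.y w ω')) j none * F.t ω' + b₁)) -
      (a₂ + (g0D c N r (G (z' (slam F ⌊w * J⌋₊ ω'))) (d.al (d.y w ω')) j +
      (gcD c N r (G (z' (slam F ⌊w * J⌋₊ ω'))) (d.al (d.y w ω')) j none * F.t ω' + b₂)))| ≤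
      2 * (2 : ℝ) ^ ((θ - M) * J) + N * ((2 : ℝ) ^ (cx * J) * (1 / 2 ^ J)) := by
    have e5 : a₁ + (g0D c N r (G (z' (slam F ⌊w * J⌋₊ ω'))) (d.al (d.y w ω')) j +
      (gcD c N r (G (z' (slam F ⌊w * J⌋₊ ω'))) (d.al (d.y w ω')) j none * F.t ω' + b₁)) -
      (a₂ + (g0D c N r (G (z' (slam F ⌊w * J⌋₊ ω'))) (d.al (d.y w ω')) j +
      (gcD c N r (G (z' (slam F ⌊w * J⌋₊ ω'))) (d.al (d.y w ω')) j none * F.t ω' + b₂))) =
      (a₁ - a₂) + (b₁ - b₂) := by ring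
    rw [e5]
    exact (abs_add_le _ _).trans (add_le_add hA1 hA2)
  refine (mul_le_mul hP1 h3 (abs_nonneg _) (by positivity)).trans ?_
  rw [mul_add]
  refine add_le_add (le_of_eq ?_) ?_
  · have e6 : (2 : ℝ) ^ ((M₀ - M) * J) = (2 : ℝ) ^ ((M₀ - θ) * J) * (2 : ℝ) ^ ((θ - M) * J) := by
      rw [← Real.rpow_add (by norm_num)]
      congr 1
      ring
    rw [e6]
    ring
  · have e7 : (2 : ℝ) ^ ((M₀ - θ) * J) * (N * ((2 : ℝ) ^ (cx * J) * (1 / 2 ^ J))) =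
        N * (2 : ℝ) ^ ((cx + (M₀ - θ)) * J - J) := by
      have e8 : (2 : ℝ) ^ ((cx + (M₀ - θ)) * J - J) =
          (2 : ℝ) ^ ((M₀ - θ) * J) * (2 : ℝ) ^ (cx * J) * (1 / 2 ^ J) := by
        rw [Real.rpow_sub (by norm_num), Real.rpow_natCast, ← Real.rpow_add (by norm_num)]
        rw [show (cx + (M₀ - θ)) * (J : ℝ) = (M₀ - θ) * J + cx * J by ring]
        ring
      rw [e8]
      ring
    rw [e7]
    refine mul_le_mul_of_nonneg_left ?_ (Nat.cast_nonneg N)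
    refine Real.rpow_le_rpow_of_exponent_le (by norm_num) ?_
    have := mul_le_mul_of_nonneg_right hb hJ0
    linarith

end Pool.IMN17
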